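import Mathlib

set_option autoImplicit false

namespace Pool.Agent.P.MP_dc323a_nt

open Finset

/-- The data on a ring used in the counting argument: an embedding in the complex numbers with
a packing bound of dimension `d`. -/
structure Setup (R : Type) [CommRing R] where
  φ : R →+* ℂ
  d : ℕ
  d_pos : 1 ≤ d
  one_le : ∀ x : R, x ≠ 0 → 1 ≤ ‖φ x‖
  two_le : ∀ x : R, x ≠ 0 → ¬ IsUnit x → 2 ≤ ‖φ x‖ ^ 2
  rep : ∀ γ : R, γ ≠ 0 → ∀ x : R, ∃ y : R, γ ∣ x - y ∧ ‖φ y‖ ≤ ‖φ γ‖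
  C0 : ℝ
  C0_ge : 1 ≤ C0
  pack : ∀ (T : Finset ℂ) (z0 : ℂ) (ρ δ : ℝ), 0 ≤ ρ → 0 < δ →
    (∀ z ∈ T, ∃ u v : R, z = φ u / φ v) → (∀ z ∈ T, ‖z - z0‖ ≤ ρ) →
    (∀ z ∈ T, ∀ w ∈ T, z ≠ w → δ ≤ ‖z - w‖) → (T.card : ℝ) ≤ C0 * (1 + ρ / δ) ^ d

theorem card_le_of_fibers {α β : Type*} [DecidableEq β] (s : Finset α) (t : Finset β) (f : α → β)
    (B : ℝ) (hf : ∀ a ∈ s, f a ∈ t)
    (hB : ∀ b ∈ t, ((s.filter (fun a => f a = b)).card : ℝ) ≤ B) :
    (s.card : ℝ) ≤ t.card * B := by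
  have h := Finset.card_eq_sum_card_fiberwise (s := s) (t := t) (f := f) hf
  rw [h]
  push_cast
  calc ∑ b ∈ t, ((s.filter (fun a => f a = b)).card : ℝ) ≤ ∑ _b ∈ t, B := Finset.sum_le_sum hB
    _ = t.card * B := by simp

theorem card_le_of_cover {α β : Type*} (s : Finset α) (t : Finset β) (r : α → β → Prop)
    [∀ a b, Decidable (r a b)] (B : ℝ) (hf : ∀ a ∈ s, ∃ b ∈ t, r a b)
    (hB : ∀ b ∈ t, ((s.filter (fun a => r a b)).card : ℝ) ≤ B) :
    (s.card : ℝ) ≤ t.card * B := by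
  classical
  have hsub : s ⊆ t.biUnion (fun b => s.filter (fun a => r a b)) := by
    intro a ha
    obtain ⟨b, hb, hr⟩ := hf a ha
    exact Finset.mem_biUnion.2 ⟨b, hb, Finset.mem_filter.2 ⟨ha, hr⟩⟩
  have h1 := (Finset.card_le_card hsub).trans Finset.card_biUnion_le
  have h2 : (s.card : ℝ) ≤ ∑ b ∈ t, ((s.filter (fun a => r a b)).card : ℝ) := by
    exact_mod_cast h1
  calc (s.card : ℝ) ≤ _ := h2
    _ ≤ ∑ _b ∈ t, B := Finset.sum_le_sum hB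
    _ = t.card * B := by simp

namespace Setup

variable {R : Type} [CommRing R] (S : Setup R)

/-- The size of an element. -/
noncomputable def N (x : R) : ℝ := ‖S.φ x‖

theorem N_nonneg (x : R) : 0 ≤ S.N x := norm_nonneg _
theorem N_mul (x y : R) : S.N (x * y) = S.N x * S.N y := by simp [N]
theorem N_pow (x : R) (n : ℕ) : S.N (x ^ n) = S.N x ^ n := by simp [N]
theorem N_one : S.N 1 = 1 := by simp [N]
theorem N_zero : S.N 0 = 0 := by simp [N]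
theorem N_neg (x : R) : S.N (-x) = S.N x := by simp [N]
theorem N_add_le (x y : R) : S.N (x + y) ≤ S.N x + S.N y := by
  simp only [N, map_add]; exact norm_add_le _ _
theorem N_sub_le (x y : R) : S.N (x - y) ≤ S.N x + S.N y := by
  simp only [N, map_sub]; exact norm_sub_le _ _
theorem N_prod {ι : Type*} (s : Finset ι) (f : ι → R) :
    S.N (∏ i ∈ s, f i) = ∏ i ∈ s, S.N (f i) := by simp [N]
theorem N_natCast (n : ℕ) : S.N (n : R) = n := by simp [N]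
theorem one_le_N {x : R} (hx : x ≠ 0) : 1 ≤ S.N x := S.one_le x hx
theorem N_pos {x : R} (hx : x ≠ 0) : 0 < S.N x := lt_of_lt_of_le one_pos (S.one_le_N hx)
theorem ne_zero_of_N_pos {x : R} (hx : 0 < S.N x) : x ≠ 0 := by
  rintro rfl; rw [S.N_zero] at hx; exact lt_irrefl _ hx
theorem φ_ne_zero {x : R} (hx : x ≠ 0) : S.φ x ≠ 0 := by
  intro h
  have := S.N_pos hx
  simp [N, h] at this
theorem φ_inj : Function.Injective S.φ := by
  intro x y h
  by_contra hne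
  exact S.φ_ne_zero (sub_ne_zero.2 hne) (by rw [map_sub, h, sub_self])
include S in
theorem natCast_ne_zero {n : ℕ} (hn : n ≠ 0) : (n : R) ≠ 0 := by
  apply S.ne_zero_of_N_pos
  rw [S.N_natCast]; exact_mod_cast Nat.pos_of_ne_zero hn
theorem N_le_of_dvd {x y : R} (hy : y ≠ 0) (h : x ∣ y) : S.N x ≤ S.N y := by
  obtain ⟨z, rfl⟩ := h
  have hz : z ≠ 0 := by rintro rfl; exact hy (mul_zero _)
  rw [S.N_mul]
  exact le_mul_of_one_le_right (S.N_nonneg _) (S.one_le_N hz)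
theorem N_unit [Nontrivial R] {u : R} (hu : IsUnit u) : S.N u ≤ 1 := by
  rw [← S.N_one]
  exact S.N_le_of_dvd one_ne_zero (IsUnit.dvd hu)
theorem C0_pos : 0 < S.C0 := lt_of_lt_of_le one_pos S.C0_ge

theorem pack' {α : Type*} (T : Finset α) (f : α → ℂ) (z0 : ℂ) (ρ δ : ℝ) (hρ : 0 ≤ ρ) (hδ : 0 < δ)
    (h1 : ∀ a ∈ T, ∃ u v : R, f a = S.φ u / S.φ v) (h2 : ∀ a ∈ T, ‖f a - z0‖ ≤ ρ)
    (h3 : ∀ a ∈ T, ∀ b ∈ T, a ≠ b → δ ≤ ‖f a - f b‖) :
    (T.card : ℝ) ≤ S.C0 * (1 + ρ / δ) ^ S.d := by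
  classical
  have hinj : Set.InjOn f T := by
    intro a ha b hb hab
    by_contra hne
    have := h3 a ha b hb hne
    rw [hab, sub_self, norm_zero] at this
    exact absurd this (not_le.2 hδ)
  rw [← Finset.card_image_of_injOn hinj]
  apply S.pack _ z0 ρ δ hρ hδ
  · intro z hz
    obtain ⟨a, ha, rfl⟩ := Finset.mem_image.1 hz
    exact h1 a ha
  · intro z hz
    obtain ⟨a, ha, rfl⟩ := Finset.mem_image.1 hz
    exact h2 a ha
  · intro z hz w hw hzw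
    obtain ⟨a, ha, rfl⟩ := Finset.mem_image.1 hz
    obtain ⟨b, hb, rfl⟩ := Finset.mem_image.1 hw
    exact h3 a ha b hb (by rintro rfl; exact hzw rfl)

theorem card_sep (T : Finset R) (Y δ : ℝ) (hY : 0 ≤ Y) (hδ : 0 < δ) (h1 : ∀ a ∈ T, S.N a ≤ Y)
    (h3 : ∀ a ∈ T, ∀ b ∈ T, a ≠ b → δ ≤ S.N (a - b)) :
    (T.card : ℝ) ≤ S.C0 * (1 + Y / δ) ^ S.d := by
  apply S.pack' T (fun a => S.φ a) 0 Y δ hY hδ
  · intro a _; exact ⟨a, 1, by simp⟩
  · intro a ha; simpa [N] using h1 a ha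
  · intro a ha b hb hab; simpa [N] using h3 a ha b hb hab

theorem card_ball (T : Finset R) (Y : ℝ) (hY : 0 ≤ Y) (h1 : ∀ a ∈ T, S.N a ≤ Y) :
    (T.card : ℝ) ≤ S.C0 * (1 + Y) ^ S.d := by
  have := S.card_sep T Y 1 hY one_pos h1 (fun a _ b _ hab => S.one_le_N (sub_ne_zero.2 hab))
  simpa using this

theorem finite_ball (Y : ℝ) : {x : R | S.N x ≤ Y}.Finite := by
  by_contra hinf
  have hinf' : {x : R | S.N x ≤ Y}.Infinite := hinf
  obtain ⟨n, hn⟩ := exists_nat_gt (S.C0 * (1 + |Y|) ^ S.d)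
  obtain ⟨T, hT, hc⟩ := hinf'.exists_subset_card_eq n
  have := S.card_ball T |Y| (abs_nonneg _) (fun a ha => (hT ha).trans (le_abs_self _))
  rw [hc] at this
  exact absurd this (not_le.2 hn)

/-- The finite set of elements of size at most `Y`. -/
noncomputable def ball (Y : ℝ) : Finset R := (S.finite_ball Y).toFinset

theorem mem_ball {Y : ℝ} {x : R} : x ∈ S.ball Y ↔ S.N x ≤ Y := by simp [ball]

theorem card_ball' (Y : ℝ) (hY : 0 ≤ Y) : ((S.ball Y).card : ℝ) ≤ S.C0 * (1 + Y) ^ S.d :=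
  S.card_ball _ Y hY (fun _ ha => S.mem_ball.1 ha)

end Setup

end Pool.Agent.P.MP_dc323a_nt
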