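import Pool.Agent.P.MP_dc323a_nt.Lattice

set_option autoImplicit false

namespace Pool.Agent.P.MP_dc323a_nt

open Finset

/-- Real powers of two. -/
noncomputable def tw (x : ℝ) : ℝ := (2 : ℝ) ^ x

theorem tw_pos (x : ℝ) : 0 < tw x := Real.rpow_pos_of_pos (by norm_num) x
theorem tw_add (x y : ℝ) : tw (x + y) = tw x * tw y := Real.rpow_add (by norm_num) x y
theorem tw_sub (x y : ℝ) : tw (x - y) = tw x / tw y := Real.rpow_sub (by norm_num) x y
theorem tw_zero : tw 0 = 1 := Real.rpow_zero 2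
theorem tw_mono {x y : ℝ} (h : x ≤ y) : tw x ≤ tw y :=
  Real.rpow_le_rpow_of_exponent_le (by norm_num) h
theorem tw_nat (n : ℕ) : tw n = (2 : ℝ) ^ n := Real.rpow_natCast 2 n
theorem tw_rpow (x y : ℝ) : tw x ^ y = tw (x * y) := (Real.rpow_mul (by norm_num) x y).symm
theorem tw_pow (x : ℝ) (n : ℕ) : tw x ^ n = tw (n * x) := by
  rw [← Real.rpow_natCast, tw_rpow, mul_comm]
theorem one_le_tw {x : ℝ} (h : 0 ≤ x) : 1 ≤ tw x := by rw [← tw_zero]; exact tw_mono h
theorem tw_sum {ι : Type*} (s : Finset ι) (f : ι → ℝ) : tw (∑ i ∈ s, f i) = ∏ i ∈ s, tw (f i) :=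
  Real.rpow_sum_of_pos (by norm_num) f s
theorem tw_one : tw 1 = 2 := Real.rpow_one 2

theorem one_add_le (C c y : ℝ) (hC : 0 ≤ C) :
    1 + C * tw (c + y) ≤ (1 + C * tw c) * tw (max 0 y) := by
  have h1 : 1 ≤ tw (max 0 y) := one_le_tw (le_max_left _ _)
  have h2 : tw y ≤ tw (max 0 y) := tw_mono (le_max_right _ _)
  have h3 := tw_pos c
  rw [tw_add]
  have h4 : C * (tw c * tw y) ≤ C * (tw c * tw (max 0 y)) :=
    mul_le_mul_of_nonneg_left (mul_le_mul_of_nonneg_left h2 h3.le) hC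
  nlinarith

variable {R : Type} [CommRing R] {ι : Type} [Fintype ι] [DecidableEq ι]

/-- The monomial in the variables indexed by `A`. -/
def mon (ex : ι → ℕ) (A : Finset ι) (x : ι → R) : R := ∏ i ∈ A, x i ^ ex i

/-- The weight of a set of variables. -/
def wt (ex n : ι → ℕ) (A : Finset ι) : ℝ := ∑ i ∈ A, (ex i : ℝ) * n i

/-- The mass of a set of variables. -/
def ms (n : ι → ℕ) (A : Finset ι) : ℝ := ∑ i ∈ A, (n i : ℝ)

/-- The sum of all exponents. -/
def tot (ex : ι → ℕ) : ℝ := ∑ i, (ex i : ℝ)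

omit [DecidableEq ι] in
theorem tot_nonneg (ex : ι → ℕ) : 0 ≤ tot ex := Finset.sum_nonneg (fun _ _ => by positivity)
omit [Fintype ι] [DecidableEq ι] in
theorem wt_nonneg (ex n : ι → ℕ) (A : Finset ι) : 0 ≤ wt ex n A :=
  Finset.sum_nonneg (fun _ _ => by positivity)
omit [Fintype ι] [DecidableEq ι] in
theorem ms_nonneg (n : ι → ℕ) (A : Finset ι) : 0 ≤ ms n A :=
  Finset.sum_nonneg (fun _ _ => by positivity)

omit [Fintype ι] in
theorem mon_split (ex : ι → ℕ) {A I : Finset ι} (h : I ⊆ A) (x : ι → R) :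
    mon ex A x = mon ex (A \ I) x * mon ex I x := (Finset.prod_sdiff h).symm

omit [Fintype ι] in
theorem wt_split (ex n : ι → ℕ) {A I : Finset ι} (h : I ⊆ A) :
    wt ex n A = wt ex n (A \ I) + wt ex n I := (Finset.sum_sdiff h).symm

omit [Fintype ι] [DecidableEq ι] in
theorem mon_root (ex : ι → ℕ) (e : ℕ) {I : Finset ι} (h : ∀ i ∈ I, e ∣ ex i) (x : ι → R) :
    mon ex I x = mon (fun i => ex i / e) I x ^ e := by
  simp only [mon, ← Finset.prod_pow]
  refine Finset.prod_congr rfl (fun i hi => ?_)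
  rw [← pow_mul, Nat.div_mul_cancel (h i hi)]

omit [Fintype ι] [DecidableEq ι] in
theorem wt_root (ex n : ι → ℕ) (e : ℕ) {I : Finset ι} (h : ∀ i ∈ I, e ∣ ex i) :
    wt ex n I = e * wt (fun i => ex i / e) n I := by
  simp only [wt, Finset.mul_sum]
  refine Finset.sum_congr rfl (fun i hi => ?_)
  have : (ex i : ℝ) = e * ((ex i / e : ℕ) : ℝ) := by
    exact_mod_cast (Nat.mul_div_cancel' (h i hi)).symm
  rw [← mul_assoc, ← this]

omit [Fintype ι] [DecidableEq ι] in
theorem mon_congr (ex : ι → ℕ) {A : Finset ι} {x y : ι → R} (h : ∀ i ∈ A, x i = y i) :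
    mon ex A x = mon ex A y := Finset.prod_congr rfl (fun i hi => by rw [h i hi])

omit [DecidableEq ι] in
theorem tot_div_le (ex : ι → ℕ) (e : ℕ) : tot (fun i => ex i / e) ≤ tot ex :=
  Finset.sum_le_sum (fun i _ => by exact_mod_cast Nat.div_le_self _ _)

/-- Restriction of a point to the coordinates in `F`. -/
def res (F : Finset ι) (x : ι → R) : ι → R := fun i => if i ∈ F then x i else 0

omit [Fintype ι] in
theorem res_eq_iff (F : Finset ι) (x y : ι → R) : res F x = res F y ↔ ∀ i ∈ F, x i = y i := by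
  constructor
  · intro h i hi
    have := congrFun h i
    simpa [res, hi] using this
  · intro h
    funext i
    by_cases hi : i ∈ F
    · simp [res, hi, h i hi]
    · simp [res, hi]

namespace Setup

variable (S : Setup R)

/-- A dyadic box of solutions. -/
structure Box (ex : ι → ℕ) (A B C : Finset ι) (n : ι → ℕ) (T : Finset (ι → R)) : Prop where
  lo : ∀ x ∈ T, ∀ i, tw (n i) ≤ S.N (x i)
  hi : ∀ x ∈ T, ∀ i, S.N (x i) ≤ tw (n i + 1)
  sum : ∀ x ∈ T, mon ex A x + mon ex B x + mon ex C x = 0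
  cAB : ∀ x ∈ T, IsCoprime (mon ex A x) (mon ex B x)
  cAC : ∀ x ∈ T, IsCoprime (mon ex A x) (mon ex C x)
  cBC : ∀ x ∈ T, IsCoprime (mon ex B x) (mon ex C x)
  inj : ∀ x ∈ T, ∀ y ∈ T, mon ex A x = mon ex A y → mon ex B x = mon ex B y → x = y

variable {S}

omit [Fintype ι] [DecidableEq ι] in
theorem Box.swap12 {ex : ι → ℕ} {A B C : Finset ι} {n : ι → ℕ} {T : Finset (ι → R)}
    (h : S.Box ex A B C n T) : S.Box ex B A C n T :=
  ⟨h.lo, h.hi, fun x hx => by rw [← h.sum x hx]; ring, fun x hx => (h.cAB x hx).symm, h.cBC, h.cAC,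
    fun x hx y hy h1 h2 => h.inj x hx y hy h2 h1⟩

omit [Fintype ι] [DecidableEq ι] in
theorem Box.swap23 {ex : ι → ℕ} {A B C : Finset ι} {n : ι → ℕ} {T : Finset (ι → R)}
    (h : S.Box ex A B C n T) : S.Box ex A C B n T :=
  ⟨h.lo, h.hi, fun x hx => by rw [← h.sum x hx]; ring, h.cAC, h.cAB, fun x hx => (h.cBC x hx).symm,
    fun x hx y hy h1 h2 => h.inj x hx y hy h1 (by
      linear_combination h.sum x hx - h.sum y hy - h1 - h2)⟩

variable (S)

omit [Fintype ι] [DecidableEq ι] in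
theorem mon_lo (ex n : ι → ℕ) (A : Finset ι) (x : ι → R) (h : ∀ i, tw (n i) ≤ S.N (x i)) :
    tw (wt ex n A) ≤ S.N (mon ex A x) := by
  rw [wt, tw_sum, mon, S.N_prod]
  refine Finset.prod_le_prod (fun i _ => (tw_pos _).le) (fun i _ => ?_)
  rw [S.N_pow, ← tw_pow]
  exact pow_le_pow_left₀ (tw_pos _).le (h i) _

omit [DecidableEq ι] in
theorem mon_hi (ex n : ι → ℕ) (A : Finset ι) (x : ι → R) (h : ∀ i, S.N (x i) ≤ tw (n i + 1)) :
    S.N (mon ex A x) ≤ tw (wt ex n A + tot ex) := by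
  have h1 : S.N (mon ex A x) ≤ tw (∑ i ∈ A, (ex i : ℝ) * (n i + 1)) := by
    rw [tw_sum, mon, S.N_prod]
    refine Finset.prod_le_prod (fun i _ => S.N_nonneg _) (fun i _ => ?_)
    rw [S.N_pow, ← tw_pow]
    exact pow_le_pow_left₀ (S.N_nonneg _) (h i) _
  refine h1.trans (tw_mono ?_)
  simp only [mul_add, mul_one, Finset.sum_add_distrib, wt, tot]
  have : ∑ i ∈ A, (ex i : ℝ) ≤ ∑ i, (ex i : ℝ) :=
    Finset.sum_le_sum_of_subset_of_nonneg (Finset.subset_univ _) (fun _ _ _ => by positivity)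
  linarith

omit [Fintype ι] [DecidableEq ι] in
theorem mon_ne (ex n : ι → ℕ) (A : Finset ι) (x : ι → R) (h : ∀ i, tw (n i) ≤ S.N (x i)) :
    mon ex A x ≠ 0 :=
  S.ne_zero_of_N_pos (lt_of_lt_of_le (tw_pos _) (S.mon_lo ex n A x h))

/-- Constant for the number of elements in a dyadic range. -/
noncomputable def C1 : ℝ := S.C0 * 3 ^ S.d

theorem one_le_C1 : 1 ≤ S.C1 := by
  have := S.C0_ge
  have h2 : (1 : ℝ) ≤ 3 ^ S.d := one_le_pow₀ (by norm_num)
  rw [C1]; nlinarith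

theorem card_dyadic (m : ℝ) (hm : 0 ≤ m) :
    ((S.ball (tw (m + 1))).card : ℝ) ≤ S.C1 * tw (S.d * m) := by
  refine (S.card_ball' _ (tw_pos _).le).trans ?_
  rw [C1, mul_assoc, ← tw_pow, ← mul_pow]
  apply mul_le_mul_of_nonneg_left _ S.C0_pos.le
  apply pow_le_pow_left₀ (by have := tw_pos (m + 1); linarith)
  rw [tw_add, tw_one]
  have := one_le_tw hm
  linarith

open Classical in
theorem card_res (n : ι → ℕ) (T : Finset (ι → R)) (F : Finset ι)
    (h : ∀ x ∈ T, ∀ i, S.N (x i) ≤ tw (n i + 1)) :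
    ((T.image (res F)).card : ℝ) ≤ S.C1 ^ Fintype.card ι * tw (S.d * ms n F) := by
  have hsub : T.image (res F) ⊆
      Fintype.piFinset (fun i => if i ∈ F then S.ball (tw (n i + 1)) else {0}) := by
    intro y hy
    obtain ⟨x, hx, rfl⟩ := Finset.mem_image.1 hy
    rw [Fintype.mem_piFinset]
    intro i
    by_cases hi : i ∈ F
    · simp only [res, hi, if_true]; exact S.mem_ball.2 (h x hx i)
    · simp [res, hi]
  have h1 := Finset.card_le_card hsub
  rw [Fintype.card_piFinset] at h1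
  have h2 : ((T.image (res F)).card : ℝ) ≤
      ∏ i, ((if i ∈ F then S.ball (tw (n i + 1)) else {0}).card : ℝ) := by exact_mod_cast h1
  refine h2.trans ?_
  have h3 : tw (S.d * ms n F) = ∏ i, (if i ∈ F then tw (S.d * n i) else 1) := by
    rw [ms, Finset.mul_sum, tw_sum, Finset.prod_ite_mem, Finset.univ_inter]
  rw [h3, ← Finset.card_univ, ← Finset.prod_const, ← Finset.prod_mul_distrib]
  refine Finset.prod_le_prod (fun i _ => by positivity) (fun i _ => ?_)
  by_cases hi : i ∈ F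
  · simp only [hi, if_true]; exact S.card_dyadic _ (by positivity)
  · simp only [hi, if_false, Finset.card_singleton, Nat.cast_one, mul_one]; exact S.one_le_C1

open Classical in
theorem card_le_res (n : ι → ℕ) (T : Finset (ι → R)) (F : Finset ι) (Bd : ℝ) (hBd : 0 ≤ Bd)
    (h : ∀ x ∈ T, ∀ i, S.N (x i) ≤ tw (n i + 1))
    (hf : ∀ x0 ∈ T, ((T.filter (fun x => ∀ i ∈ F, x i = x0 i)).card : ℝ) ≤ Bd) :
    (T.card : ℝ) ≤ S.C1 ^ Fintype.card ι * tw (S.d * ms n F) * Bd := by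
  have h1 := card_le_of_fibers T (T.image (res F)) (res F) Bd
    (fun a ha => Finset.mem_image_of_mem _ ha) (fun b hb => by
      obtain ⟨x0, hx0, rfl⟩ := Finset.mem_image.1 hb
      simp_rw [res_eq_iff]
      exact hf x0 hx0)
  exact h1.trans (mul_le_mul_of_nonneg_right (S.card_res n T F h) hBd)

end Setup

end Pool.Agent.P.MP_dc323a_nt
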