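import Pool.Agent.P.MP_dc323a_nt.Box

set_option autoImplicit false

namespace Pool.Agent.P.MP_dc323a_nt

open Finset

theorem card_sq_le {α β : Type*} [DecidableEq β] (T : Finset α) (f : α → β) :
    (T.card : ℝ) ^ 2 ≤ ((T.image f).card : ℝ) *
      (((T ×ˢ T).filter (fun q => f q.1 = f q.2)).card : ℝ) := by
  have h1 := Finset.card_eq_sum_card_fiberwise (s := T) (t := T.image f) (f := f)
    (fun a ha => Finset.mem_image_of_mem _ ha)
  have h2 := Finset.card_eq_sum_card_fiberwise
    (s := (T ×ˢ T).filter (fun q => f q.1 = f q.2)) (t := T.image f) (f := fun q => f q.1)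
    (fun a ha => Finset.mem_image_of_mem _ (Finset.mem_product.1 (Finset.mem_filter.1 ha).1).1)
  have h3 : ∀ b, (((T ×ˢ T).filter (fun q => f q.1 = f q.2)).filter (fun q => f q.1 = b)).card =
      (T.filter (fun a => f a = b)).card ^ 2 := by
    intro b
    rw [pow_two, ← Finset.card_product]
    congr 1
    ext q
    simp only [Finset.mem_filter, Finset.mem_product]
    constructor
    · rintro ⟨⟨⟨h1, h2⟩, h3⟩, h4⟩
      exact ⟨⟨h1, h4⟩, h2, h3 ▸ h4⟩
    · rintro ⟨⟨h1, h4⟩, h2, h3⟩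
      exact ⟨⟨⟨h1, h2⟩, h4.trans h3.symm⟩, h4⟩
  simp_rw [h3] at h2
  rw [h2, h1]
  push_cast
  exact sq_sum_le_card_mul_sum_sq

theorem shift_roots {R : Type*} [CommRing R] [IsDomain R] (e : ℕ) (he : 2 ≤ e) (he0 : (e : R) ≠ 0)
    (α δ m : R) (hα : α ≠ 0) (hδ : δ ≠ 0) (V : Finset R)
    (h : ∀ U ∈ V, α * (U ^ e - (U - δ) ^ e) = m) : V.card ≤ e := by
  classical
  let p : Polynomial R := Polynomial.C α * (Polynomial.X ^ e - (Polynomial.X - Polynomial.C δ) ^ e)
    - Polynomial.C m
  have hp : p ≠ 0 := by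
    intro h0
    have h1 : (Polynomial.derivative p).eval 0 = 0 := by rw [h0]; simp
    obtain ⟨k, rfl⟩ : ∃ k, e = k + 2 := ⟨e - 2, by omega⟩
    simp only [p, Polynomial.derivative_sub, Polynomial.derivative_mul, Polynomial.derivative_C,
      Polynomial.derivative_pow, Polynomial.derivative_X] at h1
    simp [hα, hδ] at h1
    apply he0
    push_cast
    exact h1
  have hdeg : p.natDegree ≤ e := by
    simp only [p]
    refine (Polynomial.natDegree_sub_le _ _).trans (max_le ?_ (by simp))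
    refine (Polynomial.natDegree_C_mul_le _ _).trans ?_
    refine (Polynomial.natDegree_sub_le _ _).trans (max_le (by simp) ?_)
    refine Polynomial.natDegree_pow_le.trans ?_
    rw [Polynomial.natDegree_X_sub_C, mul_one]
  refine le_trans (Polynomial.card_le_degree_of_subset_roots (p := p) ?_) hdeg
  intro U hU
  rw [Polynomial.mem_roots hp]
  simp [p, h U hU]

theorem le_of_sq_le {x s o : ℝ} (hx : 0 ≤ x) (hs : 0 ≤ s) (ho : 0 ≤ o)
    (h : x ^ 2 ≤ s * (x + o)) : x ≤ 2 * s ∨ x ^ 2 ≤ 2 * s * o := by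
  by_contra hc
  push Not at hc
  obtain ⟨h1, h2⟩ := hc
  nlinarith

namespace Setup

variable {R : Type} [CommRing R] [IsDomain R] [IsPrincipalIdealRing R] (S : Setup R)
variable {ι : Type} [Fintype ι] [DecidableEq ι]

theorem toolF (ex : ι → ℕ) (e : ℕ) (he : 2 ≤ e) (ε : ℝ) (hε : 0 < ε) : ∃ K : ℝ, 0 < K ∧
    ∀ (A B C : Finset ι) (n : ι → ℕ) (T : Finset (ι → R)) (L : ℝ), S.Box ex A B C n T →
      0 ≤ L → wt ex n B ≤ L → ∀ I F : Finset ι, I ⊆ A → (∀ i ∈ I, e ∣ ex i) → A \ I ⊆ F → C ⊆ F →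
      (T.card : ℝ) ≤ K * tw (ε * L + S.d * max (ms n F) (ms n F / 2 + ms n B)) := by
  classical
  obtain ⟨C2, hC2, hdiv⟩ := S.divisor_bound ε hε
  set E := tot ex with hE
  have hE0 : 0 ≤ E := tot_nonneg ex
  have hC1 := S.one_le_C1
  set K0 : ℝ := S.C1 ^ Fintype.card ι with hK0
  have hK01 : 1 ≤ K0 := one_le_pow₀ hC1
  set K1 : ℝ := C2 * tw (ε * (E + 1)) with hK1
  have hK11 : 1 ≤ K1 := by
    have := one_le_tw (x := ε * (E + 1)) (by positivity)
    rw [hK1]; nlinarith
  have he1 : (1 : ℝ) ≤ e := by exact_mod_cast (show 1 ≤ e by omega)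
  refine ⟨2 * K0 ^ 2 * K1 * e, by positivity, ?_⟩
  intro A B C n T L hbox hL0 hL I F hI hIe hAF hCF
  set ex' : ι → ℕ := fun i => ex i / e with hex'
  have hA : ∀ x : ι → R, mon ex A x = mon ex (A \ I) x * mon ex' I x ^ e := by
    intro x
    rw [mon_split ex hI, mon_root ex e hIe]
  have h1 := card_sq_le T (res F)
  have h2 := S.card_res n T F hbox.hi
  set Pi := (T ×ˢ T).filter (fun q => res F q.1 = res F q.2) with hPi
  set Po := Pi.filter (fun q => q.1 ≠ q.2) with hPo
  have h3 : (Pi.card : ℝ) ≤ T.card + Po.card := by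
    have h4 := Finset.card_filter_add_card_filter_not (s := Pi) (fun q => q.1 = q.2)
    have h5 : (Pi.filter (fun q => q.1 = q.2)).card ≤ T.card := by
      apply Finset.card_le_card_of_injOn (fun q => q.1)
      · intro q hq
        exact (Finset.mem_product.1 (Finset.mem_filter.1 (Finset.mem_filter.1 hq).1).1).1
      · intro q hq q' hq' h
        have h6 := (Finset.mem_filter.1 hq).2
        have h7 := (Finset.mem_filter.1 hq').2
        have h8 : q.1 = q'.1 := h
        exact Prod.ext h8 (by rw [← h6, ← h7, h8])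
    have : Pi.card ≤ T.card + Po.card := by rw [← h4]; exact Nat.add_le_add_right h5 _
    exact_mod_cast this
  have hPo' : ∀ q ∈ Po, q.1 ∈ T ∧ q.2 ∈ T ∧ (∀ i ∈ F, q.1 i = q.2 i) ∧ q.1 ≠ q.2 := by
    intro q hq
    have h4 := Finset.mem_filter.1 hq
    have h5 := Finset.mem_filter.1 h4.1
    have h6 := Finset.mem_product.1 h5.1
    exact ⟨h6.1, h6.2, (res_eq_iff F _ _).1 h5.2, h4.2⟩
  set Bv := T.image (mon ex B) with hBv
  have hBv' : (Bv.card : ℝ) ≤ K0 * tw (S.d * ms n B) := by
    refine le_trans ?_ (S.card_res n T B hbox.hi)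
    have : Bv = (T.image (res B)).image (mon ex B) := by
      rw [Finset.image_image, hBv]
      refine Finset.image_congr (fun x _ => ?_)
      exact mon_congr ex (fun i hi => by simp [res, hi])
    rw [this]
    exact_mod_cast Finset.card_image_le
  have h4 : (Po.card : ℝ) ≤ (Bv ×ˢ Bv).card * ((K1 * tw (ε * L)) ^ 2 * e) := by
    apply card_le_of_fibers Po (Bv ×ˢ Bv) (fun q => (mon ex B q.1, mon ex B q.2))
    · intro q hq
      obtain ⟨a, b, -, -⟩ := hPo' q hq
      exact Finset.mem_product.2 ⟨Finset.mem_image_of_mem _ a, Finset.mem_image_of_mem _ b⟩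
    rintro ⟨b, b'⟩ _
    set P1 := Po.filter (fun q => (mon ex B q.1, mon ex B q.2) = (b, b')) with hP1
    rcases P1.eq_empty_or_nonempty with h | ⟨q0, hq0⟩
    · rw [h]; simp only [Finset.card_empty, Nat.cast_zero]; positivity
    have hP1' : ∀ q ∈ P1, q ∈ Po ∧ mon ex B q.1 = b ∧ mon ex B q.2 = b' := by
      intro q hq
      have := Finset.mem_filter.1 hq
      exact ⟨this.1, congrArg Prod.fst this.2, congrArg Prod.snd this.2⟩
    have hαα : ∀ q ∈ Po, mon ex (A \ I) q.1 = mon ex (A \ I) q.2 := fun q hq =>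
      mon_congr ex (fun i hi => (hPo' q hq).2.2.1 i (hAF hi))
    have heq : ∀ q ∈ P1, mon ex (A \ I) q.1 * (mon ex' I q.1 ^ e - mon ex' I q.2 ^ e) = b' - b := by
      intro q hq
      obtain ⟨hq1, hb, hb'⟩ := hP1' q hq
      obtain ⟨a1, a2, a3, -⟩ := hPo' q hq1
      have hC : mon ex C q.1 = mon ex C q.2 := mon_congr ex (fun i hi => a3 i (hCF hi))
      have s1 := hbox.sum _ a1
      have s2 := hbox.sum _ a2
      rw [hA, hb] at s1
      rw [hA, hb', ← hαα q hq1] at s2
      linear_combination s1 - s2 - hC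
    have hUU : ∀ q ∈ P1, mon ex' I q.1 - mon ex' I q.2 ≠ 0 := by
      intro q hq h0
      obtain ⟨hq1, hb, hb'⟩ := hP1' q hq
      obtain ⟨a1, a2, -, a4⟩ := hPo' q hq1
      have h5 := heq q hq
      rw [sub_eq_zero.1 h0, sub_self, mul_zero] at h5
      apply a4
      apply hbox.inj _ a1 _ a2
      · rw [hA, hA, hαα q hq1, sub_eq_zero.1 h0]
      · rw [hb, hb']; exact (sub_eq_zero.1 h5.symm).symm
    have hm : b' - b ≠ 0 := by
      intro h0
      obtain ⟨hq1, hb, hb'⟩ := hP1' q0 hq0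
      obtain ⟨a1, a2, a3, a4⟩ := hPo' q0 hq1
      have hC : mon ex C q0.1 = mon ex C q0.2 := mon_congr ex (fun i hi => a3 i (hCF hi))
      apply a4
      apply hbox.inj _ a1 _ a2
      · linear_combination hbox.sum _ a1 - hbox.sum _ a2 - hC - hb + hb' + h0
      · rw [hb, hb']; exact (sub_eq_zero.1 h0).symm
    have hNm : S.N (b' - b) ≤ tw (L + (E + 1)) := by
      obtain ⟨hq1, hb, hb'⟩ := hP1' q0 hq0
      obtain ⟨a1, a2, -, -⟩ := hPo' q0 hq1
      have t1 := S.mon_hi ex n B _ (hbox.hi _ a1)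
      have t2 := S.mon_hi ex n B _ (hbox.hi _ a2)
      rw [hb] at t1
      rw [hb'] at t2
      have t3 : tw (wt ex n B + tot ex) ≤ tw (L + E) := tw_mono (by linarith)
      have t4 := S.N_sub_le b' b
      rw [← add_assoc, tw_add _ 1, tw_one]
      linarith
    set Dv := (S.ball (S.N (b' - b))).filter (fun z => z ∣ b' - b) with hDv
    have hDv' : (Dv.card : ℝ) ≤ K1 * tw (ε * L) := by
      refine (hdiv _ hm Dv (fun z hz => (Finset.mem_filter.1 hz).2)).trans ?_
      rw [hK1, mul_assoc, ← tw_add]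
      apply mul_le_mul_of_nonneg_left _ (by linarith)
      have : ε * (E + 1) + ε * L = (L + (E + 1)) * ε := by ring
      rw [this, ← tw_rpow]
      exact Real.rpow_le_rpow (S.N_nonneg _) hNm hε.le
    have hmem : ∀ z, z ∣ b' - b → z ∈ Dv := fun z hz =>
      Finset.mem_filter.2 ⟨S.mem_ball.2 (S.N_le_of_dvd hm hz), hz⟩
    have h5 := card_le_of_fibers P1 (Dv ×ˢ Dv)
      (fun q => (mon ex (A \ I) q.1, mon ex' I q.1 - mon ex' I q.2)) e
      (fun q hq => Finset.mem_product.2 ⟨hmem _ ⟨_, (heq q hq).symm⟩, hmem _ (by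
        rw [← heq q hq]; exact (sub_dvd_pow_sub_pow _ _ e).mul_left _)⟩)
      (by
        rintro ⟨α, δ⟩ _
        set P2 := P1.filter (fun q =>
          (mon ex (A \ I) q.1, mon ex' I q.1 - mon ex' I q.2) = (α, δ)) with hP2
        have hP2' : ∀ q ∈ P2, q ∈ P1 ∧ mon ex (A \ I) q.1 = α ∧
            mon ex' I q.1 - mon ex' I q.2 = δ := by
          intro q hq
          have := Finset.mem_filter.1 hq
          exact ⟨this.1, congrArg Prod.fst this.2, congrArg Prod.snd this.2⟩
        rcases P2.eq_empty_or_nonempty with h | ⟨q1, hq1⟩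
        · rw [h]; simp
        have hinj : Set.InjOn (fun q : (ι → R) × (ι → R) => mon ex' I q.1) P2 := by
          intro q hq q' hq' h
          have h' : mon ex' I q.1 = mon ex' I q'.1 := h
          obtain ⟨b1, b2, b3⟩ := hP2' q hq
          obtain ⟨c1, c2, c3⟩ := hP2' q' hq'
          obtain ⟨d1, d2, d3⟩ := hP1' q b1
          obtain ⟨e1, e2, e3⟩ := hP1' q' c1
          have h'' : mon ex' I q.2 = mon ex' I q'.2 := by linear_combination h' - b3 + c3
          refine Prod.ext ?_ ?_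
          · apply hbox.inj _ (hPo' q d1).1 _ (hPo' q' e1).1
            · rw [hA, hA, b2, c2, h']
            · rw [d2, e2]
          · apply hbox.inj _ (hPo' q d1).2.1 _ (hPo' q' e1).2.1
            · rw [hA, hA, ← hαα q d1, ← hαα q' e1, b2, c2, h'']
            · rw [d3, e3]
        rw [← Finset.card_image_of_injOn hinj]
        obtain ⟨b1, b2, b3⟩ := hP2' q1 hq1
        have hα0 : α ≠ 0 := by
          rw [← b2]; exact S.mon_ne ex n _ _ (hbox.lo _ (hPo' q1 (hP1' q1 b1).1).1)
        have hδ0 : δ ≠ 0 := by rw [← b3]; exact hUU q1 b1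
        have := shift_roots e he (S.natCast_ne_zero (by omega)) α δ (b' - b) hα0 hδ0
          (P2.image (fun q : (ι → R) × (ι → R) => mon ex' I q.1)) (by
            intro U hU
            obtain ⟨q, hq, rfl⟩ := Finset.mem_image.1 hU
            obtain ⟨c1, c2, c3⟩ := hP2' q hq
            rw [← heq q c1, c2, ← c3, sub_sub_cancel])
        exact_mod_cast this)
    refine h5.trans (mul_le_mul_of_nonneg_right ?_ (by positivity))
    rw [Finset.card_product, pow_two]
    push_cast
    exact mul_le_mul hDv' hDv' (by positivity) (le_trans (by positivity) hDv')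
  have h6 : (Po.card : ℝ) ≤ (K0 * tw (S.d * ms n B)) ^ 2 * ((K1 * tw (ε * L)) ^ 2 * e) := by
    refine h4.trans (mul_le_mul_of_nonneg_right ?_ (by positivity))
    rw [Finset.card_product, pow_two]
    push_cast
    exact mul_le_mul hBv' hBv' (by positivity) (le_trans (by positivity) hBv')
  have p1 := tw_pos (S.d * ms n F)
  have p2 := tw_pos (S.d * ms n B)
  have p3 := tw_pos (ε * L)
  have h7 : (T.card : ℝ) ^ 2 ≤ (K0 * tw (S.d * ms n F)) *
      (T.card + (K0 * tw (S.d * ms n B)) ^ 2 * ((K1 * tw (ε * L)) ^ 2 * e)) :=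
    h1.trans (mul_le_mul h2 (h3.trans (by linarith)) (by positivity) (by positivity))
  have hd : (0 : ℝ) ≤ S.d := by positivity
  rcases le_of_sq_le (by positivity) (by positivity) (by positivity) h7 with h | h
  · refine h.trans ?_
    have t1 : tw (S.d * ms n F) ≤ tw (ε * L + S.d * max (ms n F) (ms n F / 2 + ms n B)) := by
      apply tw_mono
      have := mul_le_mul_of_nonneg_left (le_max_left (ms n F) (ms n F / 2 + ms n B)) hd
      have : 0 ≤ ε * L := by positivity
      linarith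
    have t2 : 2 * K0 ≤ 2 * K0 ^ 2 * K1 * e := by
      have : K0 ≤ K0 ^ 2 := by nlinarith
      have : 1 ≤ K1 * e := by nlinarith
      nlinarith
    calc 2 * (K0 * tw (S.d * ms n F)) = (2 * K0) * tw (S.d * ms n F) := by ring
      _ ≤ _ := mul_le_mul t2 t1 p1.le (by positivity)
  · have t1 : tw (ε * L + S.d * (ms n F / 2 + ms n B)) ≤
        tw (ε * L + S.d * max (ms n F) (ms n F / 2 + ms n B)) := by
      apply tw_mono
      have := mul_le_mul_of_nonneg_left (le_max_right (ms n F) (ms n F / 2 + ms n B)) hd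
      linarith
    refine le_trans ?_ (mul_le_mul_of_nonneg_left t1 (by positivity))
    have p4 := tw_pos (ε * L + S.d * (ms n F / 2 + ms n B))
    apply le_of_sq_le_sq _ (by positivity)
    refine h.trans ?_
    have t2 : tw (ε * L + S.d * (ms n F / 2 + ms n B)) ^ 2 =
        tw (S.d * ms n F) * tw (S.d * ms n B) ^ 2 * tw (ε * L) ^ 2 := by
      simp only [tw_pow, ← tw_add]
      congr 1
      push_cast
      ring
    rw [mul_pow (2 * K0 ^ 2 * K1 * e), t2]
    have t3 : 2 * K0 ^ 3 * K1 ^ 2 * e ≤ (2 * K0 ^ 2 * K1 * e) ^ 2 := by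
      have t4 : (2 * K0 ^ 2 * K1 * e) ^ 2 = (2 * K0 ^ 3 * K1 ^ 2 * e) * (2 * K0 * e) := by ring
      rw [t4]
      apply le_mul_of_one_le_right (by positivity)
      nlinarith
    calc 2 * (K0 * tw (S.d * ms n F)) *
          ((K0 * tw (S.d * ms n B)) ^ 2 * ((K1 * tw (ε * L)) ^ 2 * e))
        = (2 * K0 ^ 3 * K1 ^ 2 * e) *
          (tw (S.d * ms n F) * tw (S.d * ms n B) ^ 2 * tw (ε * L) ^ 2) := by ring
      _ ≤ _ := mul_le_mul_of_nonneg_right t3 (by positivity)

end Setup

end Pool.Agent.P.MP_dc323a_nt
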