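import Pool.Agent.P.MP_dc323a_nt.Box

set_option autoImplicit false

namespace Pool.Agent.P.MP_dc323a_nt

open Finset

namespace Setup

variable {R : Type} [CommRing R] [IsDomain R] [IsPrincipalIdealRing R] (S : Setup R)
variable {ι : Type} [Fintype ι] [DecidableEq ι]

theorem toolG (ex : ι → ℕ) (e : ℕ) (he : 1 ≤ e) (ε : ℝ) (hε : 0 < ε) : ∃ K : ℝ, 0 < K ∧
    ∀ (A B C : Finset ι) (n : ι → ℕ) (T : Finset (ι → R)) (L : ℝ), S.Box ex A B C n T →
      wt ex n C ≤ L → ∀ I J H F : Finset ι, I ⊆ A → J ⊆ B → H ⊆ C → (∀ i ∈ I, e ∣ ex i) →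
      (∀ i ∈ J, e ∣ ex i) → A \ I ⊆ F → B \ J ⊆ F → C \ H ⊆ F →
      (T.card : ℝ) ≤ K * tw (ε * L + S.d * (ms n F +
        max 0 (wt ex n I / e + wt ex n J / e + wt ex n H - wt ex n A))) := by
  classical
  obtain ⟨C2, hC2, hpair⟩ := S.pair_bound e he ε hε
  set E := tot ex with hE
  have hE0 : 0 ≤ E := tot_nonneg ex
  have hC1 := S.one_le_C1
  have he' : (0 : ℝ) < e := by exact_mod_cast he
  refine ⟨S.C1 ^ Fintype.card ι * (C2 * tw (ε * E) * (1 + C2 * tw ((e + 2) * E)) ^ S.d), ?_, ?_⟩
  · have := tw_pos (ε * E)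
    have := tw_pos ((e + 2) * E)
    positivity
  intro A B C n T L hbox hL I J H F hI hJ hH hIe hJe hAF hBF hCF
  set ex' : ι → ℕ := fun i => ex i / e with hex'
  set u := wt ex' n I with hu
  set v := wt ex' n J with hv
  have hu' : wt ex n I = e * u := wt_root ex n e hIe
  have hv' : wt ex n J = e * v := wt_root ex n e hJe
  set y := wt ex n I / e + wt ex n J / e + wt ex n H - wt ex n A with hy
  have hy' : y = u + v + wt ex n H - wt ex n A := by
    rw [hy, hu', hv', mul_div_cancel_left₀ _ he'.ne', mul_div_cancel_left₀ _ he'.ne']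
  have hfib : ∀ x0 ∈ T, ((T.filter (fun x => ∀ i ∈ F, x i = x0 i)).card : ℝ) ≤
      C2 * tw (ε * (L + E)) * ((1 + C2 * tw ((e + 2) * E)) * tw (max 0 y)) ^ S.d := by
    intro x0 hx0
    set T0 := T.filter (fun x => ∀ i ∈ F, x i = x0 i) with hT0
    set α := mon ex (A \ I) x0 with hα
    set β := mon ex (B \ J) x0 with hβ
    set γ := mon ex (C \ H) x0 with hγ
    have hT0T : ∀ x ∈ T0, x ∈ T := fun x hx => (Finset.mem_filter.1 hx).1
    have hA : ∀ x ∈ T0, mon ex A x = α * mon ex' I x ^ e := by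
      intro x hx
      rw [mon_split ex hI, mon_root ex e hIe,
        mon_congr ex (fun i hi => (Finset.mem_filter.1 hx).2 i (hAF hi))]
    have hB : ∀ x ∈ T0, mon ex B x = β * mon ex' J x ^ e := by
      intro x hx
      rw [mon_split ex hJ, mon_root ex e hJe,
        mon_congr ex (fun i hi => (Finset.mem_filter.1 hx).2 i (hBF hi))]
    have hC : ∀ x ∈ T0, mon ex C x = γ * mon ex H x := by
      intro x hx
      rw [mon_split ex hH, mon_congr ex (fun i hi => (Finset.mem_filter.1 hx).2 i (hCF hi))]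
    have hx00 : x0 ∈ T0 := Finset.mem_filter.2 ⟨hx0, fun _ _ => rfl⟩
    let f : (ι → R) → R × R := fun x => (mon ex' I x, mon ex' J x)
    have hinj : Set.InjOn f T0 := by
      intro x hx x' hx' h
      have h1 : mon ex' I x = mon ex' I x' := congrArg Prod.fst h
      have h2 : mon ex' J x = mon ex' J x' := congrArg Prod.snd h
      apply hbox.inj x (hT0T x hx) x' (hT0T x' hx')
      · rw [hA x hx, hA x' hx', h1]
      · rw [hB x hx, hB x' hx', h2]
    rw [← Finset.card_image_of_injOn hinj]
    have hα0 : α ≠ 0 := S.mon_ne ex n _ x0 (hbox.lo x0 hx0)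
    have hγ0 : γ ≠ 0 := S.mon_ne ex n _ x0 (hbox.lo x0 hx0)
    have hαγ : IsCoprime α γ := (hbox.cAC x0 hx0).mono
      ⟨_, hA x0 hx00⟩ ⟨_, hC x0 hx00⟩
    have hβγ : IsCoprime β γ := (hbox.cBC x0 hx0).mono
      ⟨_, hB x0 hx00⟩ ⟨_, hC x0 hx00⟩
    have h1 := hpair α β γ hα0 hγ0 hαγ hβγ (tw u) (tw v) (tw (v + E)) (tw (wt ex n C + E))
      (tw_pos _) (tw_pos _) (tw_pos _) (tw_pos _).le (T0.image f) (by
        intro q hq
        obtain ⟨x, hx, rfl⟩ := Finset.mem_image.1 hq
        have hxT := hT0T x hx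
        have hdU : mon ex' I x ∣ mon ex A x := by
          rw [hA x hx]; exact (dvd_pow_self _ (by omega)).mul_left _
        have hdV : mon ex' J x ∣ mon ex B x := by
          rw [hB x hx]; exact (dvd_pow_self _ (by omega)).mul_left _
        have hsum : α * mon ex' I x ^ e + β * mon ex' J x ^ e = -mon ex C x := by
          rw [← hA x hx, ← hB x hx]
          linear_combination hbox.sum x hxT
        refine ⟨(hbox.cAB x hxT).mono hdU hdV, (hbox.cBC x hxT).mono hdV ⟨_, hC x hx⟩, ?_,
          S.mon_lo ex' n I x (hbox.lo x hxT), S.mon_lo ex' n J x (hbox.lo x hxT), ?_, ?_⟩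
        · simp only [f]
          rw [hsum, hC x hx]; exact (dvd_mul_right _ _).neg_right
        · refine (S.mon_hi ex' n J x (hbox.hi x hxT)).trans (tw_mono ?_)
          have := tot_div_le ex e
          linarith
        · simp only [f]
          rw [hsum, S.N_neg]; exact S.mon_hi ex n C x (hbox.hi x hxT))
    refine h1.trans ?_
    have hNγ := S.mon_lo ex n (C \ H) x0 (hbox.lo x0 hx0)
    have hNα := S.mon_lo ex n (A \ I) x0 (hbox.lo x0 hx0)
    have hNγ' := S.mon_hi ex n (C \ H) x0 (hbox.hi x0 hx0)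
    have hsA := wt_split ex n hI
    have hsC := wt_split ex n hH
    have hH0 := wt_nonneg ex n H
    have h2 : S.N γ ^ ε ≤ tw (ε * (L + E)) := by
      rw [mul_comm, ← tw_rpow]
      exact Real.rpow_le_rpow (S.N_nonneg _) (hNγ'.trans (tw_mono (by linarith))) hε.le
    have h3 : tw (wt ex n C + E) * tw (v + E) ^ (e + 1) /
        (S.N α * tw v ^ e * tw u ^ (e - 1) * S.N γ) ≤ tw ((e + 2) * E + y) := by
      have h4 : tw (wt ex n (A \ I)) * tw v ^ e * tw u ^ (e - 1) * tw (wt ex n (C \ H)) ≤
          S.N α * tw v ^ e * tw u ^ (e - 1) * S.N γ := by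
        have := tw_pos u
        have := tw_pos v
        have := tw_pos (wt ex n (A \ I))
        have := tw_pos (wt ex n (C \ H))
        have := S.N_nonneg α
        gcongr
      have h5 : 0 < tw (wt ex n (A \ I)) * tw v ^ e * tw u ^ (e - 1) * tw (wt ex n (C \ H)) := by
        have := tw_pos u
        have := tw_pos v
        have := tw_pos (wt ex n (A \ I))
        have := tw_pos (wt ex n (C \ H))
        positivity
      refine (div_le_div_of_nonneg_left (by
        have := tw_pos (wt ex n C + E)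
        have := tw_pos (v + E)
        positivity) h5 h4).trans (le_of_eq ?_)
      simp only [tw_pow, ← tw_add, ← tw_sub]
      congr 1
      rw [Nat.cast_sub he, hy']
      push_cast
      linear_combination hsC + hsA + hu'
    have h6 := one_add_le C2 ((e + 2) * E) y (by linarith)
    have h7 : 0 ≤ tw (wt ex n C + E) * tw (v + E) ^ (e + 1) /
        (S.N α * tw v ^ e * tw u ^ (e - 1) * S.N γ) := by
      have := tw_pos u
      have := tw_pos v
      have := tw_pos (wt ex n C + E)
      have := tw_pos (v + E)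
      have := S.N_nonneg α
      have := S.N_nonneg γ
      positivity
    have h8 := tw_pos (ε * (L + E))
    apply mul_le_mul (mul_le_mul_of_nonneg_left h2 (by linarith)) _ (by positivity) (by positivity)
    apply pow_le_pow_left₀ (by positivity)
    refine le_trans ?_ h6
    have := mul_le_mul_of_nonneg_left h3 (show 0 ≤ C2 by linarith)
    linarith
  have h9 := S.card_le_res n T F _ (by
    have := tw_pos (ε * (L + E))
    have := tw_pos ((e + 2) * E)
    have := tw_pos (max 0 y)
    positivity) hbox.hi hfib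
  refine h9.trans (le_of_eq ?_)
  rw [mul_pow, tw_pow, mul_add ε, mul_add (S.d : ℝ), tw_add, tw_add, tw_add]
  ring

end Setup

end Pool.Agent.P.MP_dc323a_nt
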