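import Mathlib

set_option autoImplicit false

namespace Pool.Agent.P.MP_dc323a_nt

open Finset

section chars

variable {G : Type} [AddCommGroup G] [Fintype G] [DecidableEq G]

omit [Fintype G] [DecidableEq G] in
theorem char_sum {ι : Type*} (ψ : AddChar G ℂ) (s : Finset ι) (a : ι → G) :
    ψ (∑ i ∈ s, a i) = ∏ i ∈ s, ψ (a i) := by
  classical
  induction s using Finset.induction_on with
  | empty => simp
  | insert i s hi ih => rw [Finset.sum_insert hi, Finset.prod_insert hi, AddChar.map_add_eq_mul, ih]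

omit [Fintype G] [DecidableEq G] in
theorem char_sum_pi {ι α : Type*} [Fintype ι] [DecidableEq ι] (ψ : AddChar G ℂ) (I : ι → Finset α)
    (f : ι → α → G) :
    ∑ x ∈ Fintype.piFinset I, ψ (∑ i, f i (x i)) = ∏ i, ∑ a ∈ I i, ψ (f i a) := by
  rw [Finset.prod_univ_sum]
  exact Finset.sum_congr rfl (fun x _ => char_sum ψ _ _)

theorem count_eq {α : Type*} (U : Finset α) (g : α → G) (t : G) :
    (Fintype.card G : ℂ) * ((U.filter (fun u => g u = t)).card : ℂ) =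
      ∑ ψ : AddChar G ℂ, ψ (-t) * ∑ u ∈ U, ψ (g u) := by
  have h1 : ∀ ψ : AddChar G ℂ, ψ (-t) * ∑ u ∈ U, ψ (g u) = ∑ u ∈ U, ψ (g u - t) := by
    intro ψ
    rw [Finset.mul_sum]
    refine Finset.sum_congr rfl (fun u _ => ?_)
    rw [← AddChar.map_add_eq_mul]; congr 1; abel
  simp_rw [h1]
  rw [Finset.sum_comm]
  simp_rw [AddChar.sum_apply_eq_ite, sub_eq_zero]
  rw [Finset.sum_ite, Finset.sum_const_zero, add_zero, Finset.sum_const, nsmul_eq_mul, mul_comm]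

theorem energy_eq {α : Type*} (U : Finset α) (g : α → G) :
    ∑ ψ : AddChar G ℂ, ‖∑ u ∈ U, ψ (g u)‖ ^ 2 =
      (Fintype.card G : ℝ) * (((U ×ˢ U).filter (fun q => g q.1 = g q.2)).card : ℝ) := by
  have h := count_eq (U ×ˢ U) (fun q => g q.1 - g q.2) 0
  simp only [sub_eq_zero, neg_zero, AddChar.map_zero_eq_one, one_mul] at h
  have h1 : ∀ ψ : AddChar G ℂ, ∑ q ∈ U ×ˢ U, ψ (g q.1 - g q.2) =
      ((‖∑ u ∈ U, ψ (g u)‖ ^ 2 : ℝ) : ℂ) := by
    intro ψ
    rw [Finset.sum_product]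
    have h2 : ∀ a b : α, ψ (g a - g b) = ψ (g a) * (starRingEnd ℂ) (ψ (g b)) := by
      intro a b
      rw [sub_eq_add_neg, AddChar.map_add_eq_mul, AddChar.map_neg_eq_conj]
    simp_rw [h2]
    rw [← Finset.sum_mul_sum, ← map_sum (starRingEnd ℂ), Complex.mul_conj, Complex.normSq_eq_norm_sq]
  simp_rw [h1] at h
  exact_mod_cast h.symm

end chars

theorem holder {ι Ψ : Type*} [Fintype ι] [Fintype Ψ] (F : ι → Ψ → ℝ) (θ A : ι → ℝ)
    (hF : ∀ i ψ, 0 ≤ F i ψ) (hθ : ∀ i, 0 ≤ θ i) (hs : ∑ i, θ i ≤ 1) (hA : ∀ i, 0 < A i)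
    (hFA : ∀ i, ∑ ψ, F i ψ ≤ Fintype.card Ψ * A i) :
    ∑ ψ, ∏ i, F i ψ ^ θ i ≤ Fintype.card Ψ * ∏ i, A i ^ θ i := by
  have h1 : ∀ ψ, ∏ i, F i ψ ^ θ i ≤
      (∏ i, A i ^ θ i) * ((1 - ∑ i, θ i) + ∑ i, θ i * (F i ψ / A i)) := by
    intro ψ
    have h2 := Real.geom_mean_le_arith_mean_weighted (Finset.univ : Finset (Option ι))
      (fun o => o.elim (1 - ∑ i, θ i) θ) (fun o => o.elim 1 (fun i => F i ψ / A i))
      (by rintro (_ | i) _
          · simp only [Option.elim]; linarith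
          · exact hθ i)
      (by rw [Fintype.sum_option]; simp)
      (by rintro (_ | i) _
          · simp
          · exact div_nonneg (hF i ψ) (hA i).le)
    rw [Fintype.prod_option, Fintype.sum_option] at h2
    simp only [Option.elim, Real.one_rpow, one_mul, mul_one] at h2
    have h3 : ∏ i, F i ψ ^ θ i = (∏ i, A i ^ θ i) * ∏ i, (F i ψ / A i) ^ θ i := by
      rw [← Finset.prod_mul_distrib]
      refine Finset.prod_congr rfl (fun i _ => ?_)
      rw [← Real.mul_rpow (hA i).le (div_nonneg (hF i ψ) (hA i).le), mul_div_cancel₀ _ (hA i).ne']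
    rw [h3]
    exact mul_le_mul_of_nonneg_left h2
      (Finset.prod_nonneg (fun i _ => Real.rpow_nonneg (hA i).le _))
  have h4 : ∑ ψ, ((1 - ∑ i, θ i) + ∑ i, θ i * (F i ψ / A i)) ≤ (Fintype.card Ψ : ℝ) := by
    rw [Finset.sum_add_distrib, Finset.sum_comm]
    have h5 : ∀ i, ∑ ψ, θ i * (F i ψ / A i) ≤ θ i * Fintype.card Ψ := by
      intro i
      rw [← Finset.mul_sum, ← Finset.sum_div]
      apply mul_le_mul_of_nonneg_left _ (hθ i)
      rw [div_le_iff₀ (hA i)]; exact hFA i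
    have h6 := Finset.sum_le_sum (s := Finset.univ) (fun i _ => h5 i)
    rw [← Finset.sum_mul] at h6
    simp only [Finset.sum_const, Finset.card_univ, nsmul_eq_mul]
    linarith
  calc ∑ ψ, ∏ i, F i ψ ^ θ i ≤ _ := Finset.sum_le_sum (fun ψ _ => h1 ψ)
    _ = (∏ i, A i ^ θ i) * ∑ ψ, ((1 - ∑ i, θ i) + ∑ i, θ i * (F i ψ / A i)) := by
        rw [Finset.mul_sum]
    _ ≤ (∏ i, A i ^ θ i) * Fintype.card Ψ := mul_le_mul_of_nonneg_left h4
        (Finset.prod_nonneg (fun i _ => Real.rpow_nonneg (hA i).le _))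
    _ = _ := mul_comm _ _

theorem energy_bound {G : Type} [AddCommGroup G] [Fintype G] [DecidableEq G] {ι α : Type*}
    [Fintype ι] [DecidableEq ι] (I : ι → Finset α) (f : ι → α → G) (t : G) (k : ι → ℕ)
    (θ M A : ι → ℝ) (hθ : ∀ i, 0 ≤ θ i) (hs : ∑ i, θ i ≤ 1) (hk : ∀ i, 2 * k i * θ i ≤ 1)
    (hM : ∀ i, ((I i).card : ℝ) ≤ M i) (hA : ∀ i, 0 < A i)
    (hE : ∀ i, ((((Fintype.piFinset (fun _ : Fin (k i) => I i)) ×ˢ
      (Fintype.piFinset (fun _ : Fin (k i) => I i))).filter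
        (fun q => ∑ l, f i (q.1 l) = ∑ l, f i (q.2 l))).card : ℝ) ≤ A i) :
    (((Fintype.piFinset I).filter (fun x => ∑ i, f i (x i) = t)).card : ℝ) ≤
      ∏ i, (M i ^ (1 - 2 * k i * θ i) * A i ^ θ i) := by
  have hG : (0 : ℝ) < Fintype.card G := by exact_mod_cast Fintype.card_pos
  let s : ι → AddChar G ℂ → ℝ := fun i ψ => ‖∑ a ∈ I i, ψ (f i a)‖
  have hs0 : ∀ i ψ, 0 ≤ s i ψ := fun i ψ => norm_nonneg _
  have hsM : ∀ i ψ, s i ψ ≤ M i := by
    intro i ψ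
    refine le_trans ((norm_sum_le _ _).trans ?_) (hM i)
    simp
  have h1 := count_eq (Fintype.piFinset I) (fun x => ∑ i, f i (x i)) t
  have h2 : (Fintype.card G : ℝ) *
      (((Fintype.piFinset I).filter (fun x => ∑ i, f i (x i) = t)).card : ℝ) ≤
      ∑ ψ : AddChar G ℂ, ∏ i, s i ψ := by
    have h3 := congrArg norm h1
    rw [norm_mul, Complex.norm_natCast, Complex.norm_natCast] at h3
    rw [h3]
    refine (norm_sum_le _ _).trans (Finset.sum_le_sum (fun ψ _ => ?_))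
    rw [norm_mul, AddChar.norm_apply, one_mul, char_sum_pi, norm_prod]
  have h4 : ∀ i, ∑ ψ : AddChar G ℂ, s i ψ ^ (2 * k i) ≤ Fintype.card (AddChar G ℂ) * A i := by
    intro i
    have h5 := energy_eq (Fintype.piFinset (fun _ : Fin (k i) => I i))
      (fun u => ∑ l, f i (u l))
    have h6 : ∀ ψ : AddChar G ℂ,
        ‖∑ u ∈ Fintype.piFinset (fun _ : Fin (k i) => I i), ψ (∑ l, f i (u l))‖ ^ 2 =
        s i ψ ^ (2 * k i) := by
      intro ψ
      rw [char_sum_pi ψ (fun _ : Fin (k i) => I i) (fun _ => f i), Finset.prod_const,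
        Finset.card_univ, Fintype.card_fin, norm_pow, ← pow_mul, mul_comm]
    simp_rw [h6] at h5
    rw [h5, AddChar.card_eq]
    exact mul_le_mul_of_nonneg_left (hE i) hG.le
  have h7 := holder (fun i ψ => s i ψ ^ (2 * k i)) θ A (fun i ψ => pow_nonneg (hs0 i ψ) _) hθ hs
    hA h4
  have hM0 : ∀ i, 0 ≤ M i := fun i => le_trans (Nat.cast_nonneg _) (hM i)
  have h8 : ∀ ψ : AddChar G ℂ, ∏ i, s i ψ ≤
      (∏ i, M i ^ (1 - 2 * k i * θ i)) * ∏ i, (s i ψ ^ (2 * k i)) ^ θ i := by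
    intro ψ
    rw [← Finset.prod_mul_distrib]
    refine Finset.prod_le_prod (fun i _ => hs0 i ψ) (fun i _ => ?_)
    have h9 : s i ψ = s i ψ ^ (1 - 2 * k i * θ i) * (s i ψ ^ (2 * k i)) ^ θ i := by
      rw [← Real.rpow_natCast, ← Real.rpow_mul (hs0 i ψ), ← Real.rpow_add' (hs0 i ψ)]
      · push_cast; simp
      · push_cast; simp
    calc s i ψ = _ := h9
      _ ≤ _ := mul_le_mul_of_nonneg_right
          (Real.rpow_le_rpow (hs0 i ψ) (hsM i ψ) (by linarith [hk i]))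
          (Real.rpow_nonneg (pow_nonneg (hs0 i ψ) _) _)
  have h10 : 0 ≤ ∏ i, M i ^ (1 - 2 * k i * θ i) :=
    Finset.prod_nonneg (fun i _ => Real.rpow_nonneg (hM0 i) _)
  have h11 : ∑ ψ : AddChar G ℂ, ∏ i, s i ψ ≤
      Fintype.card G * ∏ i, (M i ^ (1 - 2 * k i * θ i) * A i ^ θ i) := by
    calc ∑ ψ : AddChar G ℂ, ∏ i, s i ψ ≤ _ := Finset.sum_le_sum (fun ψ _ => h8 ψ)
      _ = (∏ i, M i ^ (1 - 2 * k i * θ i)) *
          ∑ ψ : AddChar G ℂ, ∏ i, (s i ψ ^ (2 * k i)) ^ θ i := by rw [Finset.mul_sum]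
      _ ≤ (∏ i, M i ^ (1 - 2 * k i * θ i)) *
          (Fintype.card (AddChar G ℂ) * ∏ i, A i ^ θ i) := mul_le_mul_of_nonneg_left h7 h10
      _ = _ := by rw [AddChar.card_eq, Finset.prod_mul_distrib]; ring
  exact le_of_mul_le_mul_left (h2.trans h11) hG

end Pool.Agent.P.MP_dc323a_nt
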