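import Pool.Agent.P.MP_dc323a_nt.Box
import Pool.Agent.P.MP_dc323a_nt.Energy

set_option autoImplicit false

namespace Pool.Agent.P.MP_dc323a_nt

open Finset

theorem item_choice (ξ g c : ℝ) (hξ : 1 ≤ ξ) (hc0 : 0 ≤ c) (hc1 : c ≤ 1) (hcg : c * ξ ≤ g) :
    ∃ (k : ℕ) (θ : ℝ), 1 ≤ k ∧ 0 ≤ θ ∧ 2 * k * θ ≤ 1 ∧ θ ≤ c * ξ / g ∧ k * ξ ≤ max g ξ ∧
      (1 - 2 * k * θ) * ξ + θ * (k * ξ + max 0 (k * ξ - g)) ≤ ξ - c * ξ / 2 := by
  have hξ0 : 0 < ξ := by linarith
  have hg0 : 0 ≤ g := le_trans (by positivity) hcg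
  by_cases h : ξ ≤ g
  · have hg : 0 < g := by linarith
    set k := ⌊g / ξ⌋₊ with hk
    have hk1 : 1 ≤ k := by
      rw [hk]; apply Nat.le_floor; rw [Nat.cast_one, le_div_iff₀ hξ0]; linarith
    have hk1' : (1 : ℝ) ≤ k := by exact_mod_cast hk1
    have h1 : (k : ℝ) * ξ ≤ g := by
      have := Nat.floor_le (show 0 ≤ g / ξ by positivity)
      rwa [← hk, le_div_iff₀ hξ0] at this
    have h2 : g ≤ 2 * k * ξ := by
      have := (Nat.lt_floor_add_one (g / ξ)).le
      rw [← hk, div_le_iff₀ hξ0] at this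
      nlinarith
    have h3 : 2 * (k : ℝ) * (c / (2 * k)) = c := by field_simp
    refine ⟨k, c / (2 * k), hk1, by positivity, by rw [h3]; exact hc1, ?_,
      h1.trans (le_max_left _ _), ?_⟩
    · rw [div_le_div_iff₀ (by positivity) hg]
      nlinarith
    · rw [h3, max_eq_left (by linarith), add_zero]
      have : c / (2 * k) * (k * ξ) = c * ξ / 2 := by field_simp
      rw [this]; linarith
  · push Not at h
    rcases hg0.eq_or_lt with hg | hg
    · have hc : c = 0 := by
        have : c * ξ ≤ 0 := by linarith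
        nlinarith
      refine ⟨1, 0, le_rfl, le_rfl, by simp, by simp [hc], by simp, by simp [hc]⟩
    · refine ⟨1, c * ξ / (2 * g), le_rfl, by positivity, ?_, ?_, by simp, ?_⟩
      · have : 2 * ((1 : ℕ) : ℝ) * (c * ξ / (2 * g)) = c * ξ / g := by
          push_cast; field_simp
        rw [this, div_le_one hg]; exact hcg
      · apply div_le_div_of_nonneg_left (by positivity) hg; linarith
      · rw [Nat.cast_one, one_mul, max_eq_right (by linarith)]
        have : c * ξ / (2 * g) * g = c * ξ / 2 := by field_simp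
        nlinarith

section units

variable {R : Type} [CommRing R]

open Classical in
/-- The class of an element in the unit group of a quotient ring. -/
noncomputable def un (γ a : R) : (R ⧸ Ideal.span {γ})ˣ :=
  if h : IsUnit (Ideal.Quotient.mk (Ideal.span {γ}) a) then h.unit else 1

theorem un_val {γ a : R} (h : IsCoprime a γ) :
    (un γ a : R ⧸ Ideal.span {γ}) = Ideal.Quotient.mk (Ideal.span {γ}) a := by
  have hu : IsUnit (Ideal.Quotient.mk (Ideal.span {γ}) a) := by
    obtain ⟨u, v, huv⟩ := h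
    refine IsUnit.of_mul_eq_one (Ideal.Quotient.mk _ u) ?_
    rw [← map_mul, ← map_one (Ideal.Quotient.mk (Ideal.span {γ})), Ideal.Quotient.eq,
      Ideal.mem_span_singleton]
    exact ⟨-v, by linear_combination huv⟩
  simp [un, hu]

end units

namespace Setup

variable {R : Type} [CommRing R] [IsDomain R] [IsPrincipalIdealRing R] (S : Setup R)

omit [IsDomain R] [IsPrincipalIdealRing R] in
include S in
theorem finite_quot {γ : R} (hγ : γ ≠ 0) : Finite (R ⧸ Ideal.span {γ}) := by
  have : Finite {x : R | S.N x ≤ S.N γ} := S.finite_ball _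
  refine Finite.of_surjective
    (fun x : {x : R | S.N x ≤ S.N γ} => Ideal.Quotient.mk (Ideal.span {γ}) x.1) ?_
  intro q
  obtain ⟨x, rfl⟩ := Ideal.Quotient.mk_surjective q
  obtain ⟨y, h1, h2⟩ := S.rep γ hγ x
  refine ⟨⟨y, h2⟩, ?_⟩
  simp only
  rw [eq_comm, Ideal.Quotient.eq, Ideal.mem_span_singleton]
  exact h1

theorem energy_count (e : ℕ) (he : 1 ≤ e) (ε : ℝ) (hε : 0 < ε) : ∃ K : ℝ, 1 ≤ K ∧
    ∀ (γ : R) (g g' ξ : ℝ) (k : ℕ) (I : Finset R), tw g ≤ S.N γ → S.N γ ≤ tw g' →
      (∀ a ∈ I, a ≠ 0 ∧ S.N a ≤ tw ξ ∧ IsCoprime a γ) →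
      ∀ P : Finset ((Fin k → R) × (Fin k → R)),
        (∀ q ∈ P, (∀ l, q.1 l ∈ I) ∧ (∀ l, q.2 l ∈ I) ∧
          γ ∣ (∏ l, q.1 l) ^ e - (∏ l, q.2 l) ^ e) →
        (P.card : ℝ) ≤ (I.card : ℝ) ^ k * (K ^ (k + 1) *
          tw (ε * (k * (k * ξ) + g') + S.d * max 0 (k * ξ - g))) := by
  classical
  obtain ⟨C2, hC2, hdiv⟩ := S.divisor_bound ε hε
  obtain ⟨C3, hC3, hcong⟩ := S.cong_bound e he ε hε
  have he' : (1 : ℝ) ≤ e := by exact_mod_cast he
  set K : ℝ := C2 * (C3 * (1 + e) ^ S.d) with hK
  have hK3 : 1 ≤ C3 * (1 + e) ^ S.d := by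
    have : (1 : ℝ) ≤ (1 + e) ^ S.d := one_le_pow₀ (by linarith)
    nlinarith
  have hK1 : C2 ≤ K := by rw [hK]; nlinarith
  have hK2 : C3 * (1 + e) ^ S.d ≤ K := by rw [hK]; nlinarith
  refine ⟨K, by linarith, ?_⟩
  intro γ g g' ξ k I hg hg' hI P hP
  have hγN : 0 < S.N γ := lt_of_lt_of_le (tw_pos _) hg
  have hγ : γ ≠ 0 := S.ne_zero_of_N_pos hγN
  have hprod : ∀ y : Fin k → R, (∀ l, y l ∈ I) → (∏ l, y l) ≠ 0 ∧ S.N (∏ l, y l) ≤ tw (k * ξ) ∧
      IsCoprime (∏ l, y l) γ := by
    intro y hy
    refine ⟨Finset.prod_ne_zero_iff.2 (fun l _ => (hI _ (hy l)).1), ?_,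
      IsCoprime.prod_left (fun l _ => (hI _ (hy l)).2.2)⟩
    rw [S.N_prod, ← tw_pow]
    calc ∏ l, S.N (y l) ≤ ∏ _l : Fin k, tw ξ :=
          Finset.prod_le_prod (fun l _ => S.N_nonneg _) (fun l _ => (hI _ (hy l)).2.1)
      _ = _ := by simp
  have h1 := card_le_of_fibers P (Fintype.piFinset (fun _ : Fin k => I)) (fun q => q.2)
    (K ^ (k + 1) * tw (ε * (k * (k * ξ) + g') + S.d * max 0 (k * ξ - g)))
    (fun q hq => Fintype.mem_piFinset.2 (hP q hq).2.1) (by
      intro y' hy'
      have hy'' := hprod y' (Fintype.mem_piFinset.1 hy')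
      set P1 := P.filter (fun q => q.2 = y') with hP1
      set Z := P1.image (fun q => ∏ l, q.1 l) with hZ
      have hZc : (Z.card : ℝ) ≤ K * tw (ε * g' + S.d * max 0 (k * ξ - g)) := by
        have h2 := hcong γ hγ ((∏ l, y' l) ^ e) hy''.2.2.pow_left (tw (k * ξ)) (tw_pos _).le Z
          (by
            intro z hz
            obtain ⟨q, hq, rfl⟩ := Finset.mem_image.1 hz
            exact (hprod _ (hP q (Finset.mem_filter.1 hq).1).1).2.1)
          (by
            intro z hz
            obtain ⟨q, hq, rfl⟩ := Finset.mem_image.1 hz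
            have := (hP q (Finset.mem_filter.1 hq).1).2.2
            rwa [(Finset.mem_filter.1 hq).2] at this)
        refine h2.trans ?_
        have h3 : S.N γ ^ ε ≤ tw (ε * g') := by
          rw [mul_comm, ← tw_rpow]
          exact Real.rpow_le_rpow hγN.le hg' hε.le
        have h4 : 1 + e * tw (k * ξ) / S.N γ ≤ (1 + e) * tw (max 0 (k * ξ - g)) := by
          have h5 := one_add_le e 0 (k * ξ - g) (by linarith)
          rw [zero_add, tw_zero, mul_one, tw_sub] at h5
          refine le_trans ?_ h5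
          have h6 : tw (k * ξ) / S.N γ ≤ tw (k * ξ) / tw g :=
            div_le_div_of_nonneg_left (tw_pos _).le (tw_pos _) hg
          rw [mul_div_assoc]
          nlinarith
        have h7 : (1 + e * tw (k * ξ) / S.N γ) ^ S.d ≤
            (1 + e) ^ S.d * tw (S.d * max 0 (k * ξ - g)) := by
          rw [← tw_pow (max 0 _), ← mul_pow]
          exact pow_le_pow_left₀ (by have := tw_pos (k * ξ); positivity) h4 _
        have p1 := tw_pos (ε * g')
        have p2 := tw_pos (S.d * max 0 (k * ξ - g))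
        have p3 := tw_pos (k * ξ)
        calc C3 * S.N γ ^ ε * (1 + e * tw (k * ξ) / S.N γ) ^ S.d
            ≤ C3 * tw (ε * g') * ((1 + e) ^ S.d * tw (S.d * max 0 (k * ξ - g))) :=
              mul_le_mul (mul_le_mul_of_nonneg_left h3 (by linarith)) h7 (by positivity)
                (by positivity)
          _ = (C3 * (1 + e) ^ S.d) * tw (ε * g' + S.d * max 0 (k * ξ - g)) := by
              rw [tw_add]; ring
          _ ≤ _ := mul_le_mul_of_nonneg_right hK2 (tw_pos _).le
      have h8 := card_le_of_fibers P1 Z (fun q => ∏ l, q.1 l) ((K * tw (ε * (k * ξ))) ^ k)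
        (fun q hq => Finset.mem_image_of_mem _ hq) (by
          intro z hz
          obtain ⟨q0, hq0, hz0⟩ := Finset.mem_image.1 hz
          have hz1 := hprod _ (hP q0 (Finset.mem_filter.1 hq0).1).1
          rw [hz0] at hz1
          set Dv := (S.ball (S.N z)).filter (fun w => w ∣ z) with hDv
          have hDv' : (Dv.card : ℝ) ≤ K * tw (ε * (k * ξ)) := by
            refine (hdiv _ hz1.1 Dv (fun w hw => (Finset.mem_filter.1 hw).2)).trans ?_
            apply mul_le_mul hK1 _ (Real.rpow_nonneg (S.N_nonneg _) _) (by linarith)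
            rw [mul_comm, ← tw_rpow]
            exact Real.rpow_le_rpow (S.N_nonneg _) hz1.2.1 hε.le
          have h9 : (P1.filter (fun q => ∏ l, q.1 l = z)).card ≤
              (Fintype.piFinset (fun _ : Fin k => Dv)).card := by
            apply Finset.card_le_card_of_injOn (fun q => q.1)
            · intro q hq
              have hq1 := (Finset.mem_filter.1 hq).2
              apply Finset.mem_coe.2
              rw [Fintype.mem_piFinset]
              intro l
              have : q.1 l ∣ z := by rw [← hq1]; exact Finset.dvd_prod_of_mem _ (Finset.mem_univ l)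
              exact Finset.mem_filter.2 ⟨S.mem_ball.2 (S.N_le_of_dvd hz1.1 this), this⟩
            · intro q hq q' hq' h
              have a1 := (Finset.mem_filter.1 (Finset.mem_filter.1 hq).1).2
              have a2 := (Finset.mem_filter.1 (Finset.mem_filter.1 hq').1).2
              exact Prod.ext h (a1.trans a2.symm)
          rw [Fintype.card_piFinset] at h9
          simp only [Finset.prod_const, Finset.card_univ, Fintype.card_fin] at h9
          have h10 : ((P1.filter (fun q => ∏ l, q.1 l = z)).card : ℝ) ≤ (Dv.card : ℝ) ^ k := by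
            exact_mod_cast h9
          exact h10.trans (pow_le_pow_left₀ (by positivity) hDv' _))
      refine h8.trans ?_
      have p4 := tw_pos (ε * (k * ξ))
      have hK0 : 0 ≤ K := by linarith
      refine (mul_le_mul_of_nonneg_right hZc (by positivity)).trans (le_of_eq ?_)
      rw [mul_pow, tw_pow, mul_add ε, add_assoc, tw_add (ε * (k * (k * ξ)))]
      have : (k : ℝ) * (ε * (k * ξ)) = ε * (k * (k * ξ)) := by ring
      rw [this]; ring)
  rw [Fintype.card_piFinset] at h1
  simp only [Finset.prod_const, Finset.card_univ, Fintype.card_fin] at h1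
  exact_mod_cast h1

variable {ι : Type} [Fintype ι] [DecidableEq ι]

theorem toolM (ex : ι → ℕ) (hex : ∀ i, 1 ≤ ex i) (ε : ℝ) (hε : 0 < ε) : ∃ K : ℝ, 0 < K ∧
    ∀ (A B C : Finset ι) (n : ι → ℕ) (T : Finset (ι → R)) (L : ℝ), S.Box ex A B C n T →
      Disjoint A B → wt ex n A ≤ L → wt ex n B ≤ L → wt ex n C ≤ L → ∀ Γ : Finset ι, Γ ⊆ C →
      (T.card : ℝ) ≤ K * tw (ε * L + S.d * (ms n Γ + (ms n A + ms n B) / 2 +
        max 0 (ms n A + ms n B - wt ex n Γ) / 2)) := by
  classical
  set N0 : ℝ := (Fintype.card ι : ℝ) with hN0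
  have hN00 : 0 ≤ N0 := by positivity
  set ε' : ℝ := ε / (N0 + 1) with hε'
  have hε'0 : 0 < ε' := by positivity
  choose Kf hKf hen using fun i => S.energy_count (ex i) (hex i) ε' hε'0
  set E := tot ex with hE
  have hE0 : 0 ≤ E := tot_nonneg ex
  have hC1 := S.one_le_C1
  set K : ℝ := S.C1 + ∑ i, Kf i with hK
  have hKs : 0 ≤ ∑ i, Kf i := Finset.sum_nonneg (fun i _ => by linarith [hKf i])
  have hK1 : S.C1 ≤ K := by linarith
  have hK2 : ∀ i, Kf i ≤ K := fun i => by
    have := Finset.single_le_sum (f := Kf) (fun i _ => by linarith [hKf i]) (Finset.mem_univ i)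
    linarith
  have hK3 : 1 ≤ K := by linarith
  have hd : (0 : ℝ) ≤ S.d := by positivity
  refine ⟨S.C1 ^ Fintype.card ι * ((K ^ 2) ^ Fintype.card ι * tw (ε * (1 + E) + S.d * N0)), ?_, ?_⟩
  · have := tw_pos (ε * (1 + E) + S.d * N0)
    positivity
  intro A B C n T L hbox hAB hLA hLB hLC Γ hΓ
  set m := ms n A + ms n B with hm
  set g := wt ex n Γ with hg
  have hg0 : 0 ≤ g := wt_nonneg ex n Γ
  have hgL : g ≤ L := by
    have := wt_split ex n hΓ
    have := wt_nonneg ex n (C \ Γ)
    linarith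
  have hL0 : 0 ≤ L := hg0.trans hgL
  let J := {i // i ∈ A ∪ B}
  let ξ : J → ℝ := fun i => n i.1 + 1
  have hξ1 : ∀ i, 1 ≤ ξ i := fun i => by
    have : (0 : ℝ) ≤ n i.1 := by positivity
    simp only [ξ]; linarith
  have hξL : ∀ i, ξ i ≤ L + 1 := by
    intro i
    have h1 : ∀ D : Finset ι, i.1 ∈ D → (n i.1 : ℝ) ≤ wt ex n D := by
      intro D hD
      have h2 := Finset.single_le_sum (f := fun j => (ex j : ℝ) * n j)
        (fun j _ => by positivity) hD
      have h3 : (1 : ℝ) ≤ ex i.1 := by exact_mod_cast hex i.1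
      have h4 : (0 : ℝ) ≤ n i.1 := by positivity
      simp only [wt]
      nlinarith
    rcases Finset.mem_union.1 i.2 with h | h
    · have := h1 A h; simp only [ξ]; linarith
    · have := h1 B h; simp only [ξ]; linarith
  set m' : ℝ := ∑ i, ξ i with hm'
  have hJc : (Fintype.card J : ℝ) ≤ N0 := by
    rw [hN0]; exact_mod_cast Fintype.card_subtype_le _
  have hmm : m' = m + Fintype.card J := by
    have h1 : ∑ i : J, (n i.1 : ℝ) = ∑ i ∈ A ∪ B, (n i : ℝ) :=
      Finset.sum_coe_sort (A ∪ B) (fun i => (n i : ℝ))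
    rw [Finset.sum_union hAB] at h1
    simp only [hm', ξ, Finset.sum_add_distrib, h1, hm, ms]
    simp
  have hm'0 : 0 ≤ m' := Finset.sum_nonneg (fun i _ => by linarith [hξ1 i])
  obtain ⟨c, hc0, hc1, hcg, hcm⟩ : ∃ c : ℝ, 0 ≤ c ∧ c ≤ 1 ∧ c * m' ≤ g ∧
      m' - c * m' / 2 ≤ m' / 2 + max 0 (m' - g) / 2 := by
    by_cases h : m' ≤ g
    · refine ⟨1, zero_le_one, le_rfl, by linarith, ?_⟩
      have := le_max_left 0 (m' - g)
      linarith
    · push Not at h
      have h1 : 0 < m' := by linarith
      have h2 : g / m' * m' = g := by field_simp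
      refine ⟨g / m', by positivity, by rw [div_le_one h1]; linarith, h2.le, ?_⟩
      have := le_max_right 0 (m' - g)
      linarith
  have hξm : ∀ i, c * ξ i ≤ g := fun i => by
    have := Finset.single_le_sum (f := ξ) (fun i _ => by linarith [hξ1 i]) (Finset.mem_univ i)
    nlinarith
  choose k θ hk1 hθ0 hkθ hθc hkξ hval using
    fun i : J => item_choice (ξ i) g c (hξ1 i) hc0 hc1 (hξm i)
  have hθs : ∑ i, θ i ≤ 1 := by
    refine (Finset.sum_le_sum (fun i _ => hθc i)).trans ?_
    rw [← Finset.sum_div, ← Finset.mul_sum]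
    exact div_le_one_of_le₀ hcg hg0
  have hfib : ∀ x0 ∈ T, ((T.filter (fun x => ∀ i ∈ Γ, x i = x0 i)).card : ℝ) ≤
      (K ^ 2) ^ Fintype.card ι * tw (ε * (L + 1 + E) + S.d * (m' - c * m' / 2)) := by
    intro x0 hx0
    set T0 := T.filter (fun x => ∀ i ∈ Γ, x i = x0 i) with hT0
    set γ := mon ex Γ x0 with hγ
    have hγ0 : γ ≠ 0 := S.mon_ne ex n _ x0 (hbox.lo x0 hx0)
    have hγ1 : tw g ≤ S.N γ := S.mon_lo ex n Γ x0 (hbox.lo x0 hx0)
    have hγ2 : S.N γ ≤ tw (L + E) :=
      (S.mon_hi ex n Γ x0 (hbox.hi x0 hx0)).trans (tw_mono (by linarith))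
    have hT0T : ∀ x ∈ T0, x ∈ T := fun x hx => (Finset.mem_filter.1 hx).1
    have hγC : ∀ x ∈ T0, γ ∣ mon ex C x := by
      intro x hx
      rw [mon_split ex hΓ, mon_congr ex (Finset.mem_filter.1 hx).2]
      exact dvd_mul_left _ _
    haveI := S.finite_quot hγ0
    let G := Additive (R ⧸ Ideal.span {γ})ˣ
    letI : Fintype G := Fintype.ofFinite G
    let I : J → Finset R := fun i =>
      (S.ball (tw (ξ i))).filter (fun a => a ≠ 0 ∧ IsCoprime a γ)
    let f : J → R → G := fun i a =>
      Additive.ofMul (if i.1 ∈ A then un γ a ^ ex i.1 else (un γ a ^ ex i.1)⁻¹)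
    have hI : ∀ i, ∀ a ∈ I i, a ≠ 0 ∧ S.N a ≤ tw (ξ i) ∧ IsCoprime a γ := by
      intro i a ha
      have := Finset.mem_filter.1 ha
      exact ⟨this.2.1, S.mem_ball.1 this.1, this.2.2⟩
    have hIc : ∀ i, ((I i).card : ℝ) ≤ K * tw (S.d * ξ i) := by
      intro i
      have h1 : ((I i).card : ℝ) ≤ (S.ball (tw (ξ i))).card := by
        exact_mod_cast Finset.card_filter_le _ _
      refine h1.trans ((S.card_dyadic (n i.1) (by positivity)).trans ?_)
      apply mul_le_mul hK1 (tw_mono _) (tw_pos _).le (by linarith)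
      apply mul_le_mul_of_nonneg_left _ hd
      simp [ξ]
    have hcop : ∀ x ∈ T0, ∀ i : J, IsCoprime (x i.1) γ := by
      intro x hx i
      have h1 : ∀ D : Finset ι, i.1 ∈ D → x i.1 ∣ mon ex D x := fun D hD =>
        (dvd_pow_self _ (by have := hex i.1; omega)).trans
          (Finset.dvd_prod_of_mem (fun j => x j ^ ex j) hD)
      rcases Finset.mem_union.1 i.2 with h | h
      · exact (hbox.cAC x (hT0T x hx)).mono (h1 A h) (hγC x hx)
      · exact (hbox.cBC x (hT0T x hx)).mono (h1 B h) (hγC x hx)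
    have hsum : ∀ (κ : ℕ) (u : Fin κ → (R ⧸ Ideal.span {γ})ˣ) (v : (R ⧸ Ideal.span {γ})ˣ),
        ∑ l, Additive.ofMul (u l) = Additive.ofMul v → ∏ l, u l = v := fun κ u v h =>
      Additive.ofMul.injective ((ofMul_prod _ _).trans h)
    have hb := energy_bound I f (Additive.ofMul (un γ (-1))) k θ (fun i => K * tw (S.d * ξ i))
      (fun i => (K * tw (S.d * ξ i)) ^ k i * (K ^ (k i + 1) *
        tw (ε' * (k i * (k i * ξ i) + (L + E)) + S.d * max 0 (k i * ξ i - g))))
      hθ0 hθs hkθ hIc
      (fun i => by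
        have := tw_pos (S.d * ξ i)
        have := tw_pos (ε' * (k i * (k i * ξ i) + (L + E)) + S.d * max 0 (k i * ξ i - g))
        positivity)
      (fun i => by
        refine (hen i.1 γ g (L + E) (ξ i) (k i) (I i) hγ1 hγ2 (hI i) _ ?_).trans ?_
        · intro q hq
          have h1 := Finset.mem_filter.1 hq
          have h2 := Finset.mem_product.1 h1.1
          have h3 := Fintype.mem_piFinset.1 h2.1
          have h4 := Fintype.mem_piFinset.1 h2.2
          refine ⟨h3, h4, ?_⟩
          have h5 : ∏ l, un γ (q.1 l) ^ ex i.1 = ∏ l, un γ (q.2 l) ^ ex i.1 := by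
            have h6 := hsum _ _ _ (h1.2.trans (ofMul_prod _ _).symm)
            by_cases hi : i.1 ∈ A
            · simpa only [hi, if_true] using h6
            · simp only [hi, if_false, Finset.prod_inv_distrib, inv_inj] at h6
              exact h6
          have h7 := congrArg (Units.val) h5
          simp only [Units.coe_prod, Units.val_pow_eq_pow_val] at h7
          rw [Finset.prod_congr rfl (fun l _ => by rw [un_val (hI i _ (h3 l)).2.2]),
            Finset.prod_congr (s₁ := Finset.univ) (f := fun l =>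
              (un γ (q.2 l) : R ⧸ Ideal.span {γ}) ^ ex i.1) rfl
              (fun l _ => by rw [un_val (hI i _ (h4 l)).2.2])] at h7
          rw [← Ideal.mem_span_singleton, ← Ideal.Quotient.eq, map_pow, map_pow, map_prod, map_prod,
            ← Finset.prod_pow, ← Finset.prod_pow]
          exact h7
        · have p1 := tw_pos (ε' * (k i * (k i * ξ i) + (L + E)) + S.d * max 0 (k i * ξ i - g))
          have p2 := tw_pos (S.d * ξ i)
          have p3 := hKf i.1
          apply mul_le_mul (pow_le_pow_left₀ (by positivity) (hIc i) _) _ (by positivity)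
            (by positivity)
          exact mul_le_mul_of_nonneg_right (pow_le_pow_left₀ (by linarith) (hK2 i.1) _) p1.le)
    have h1 : T0.card ≤ ((Fintype.piFinset I).filter
        (fun x => ∑ i, f i (x i) = Additive.ofMul (un γ (-1)))).card := by
      apply Finset.card_le_card_of_injOn (fun x (i : J) => x i.1)
      · intro x hx
        have hx' : x ∈ T0 := hx
        apply Finset.mem_coe.2
        refine Finset.mem_filter.2 ⟨Fintype.mem_piFinset.2 (fun i => ?_), ?_⟩
        · refine Finset.mem_filter.2 ⟨S.mem_ball.2 (hbox.hi x (hT0T x hx') i.1), ?_, hcop x hx' i⟩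
          exact S.ne_zero_of_N_pos (lt_of_lt_of_le (tw_pos _) (hbox.lo x (hT0T x hx') i.1))
        · refine (ofMul_prod _ _).symm.trans (congrArg Additive.ofMul ?_)
          have h2 := Finset.prod_coe_sort (A ∪ B)
            (fun i => if i ∈ A then un γ (x i) ^ ex i else (un γ (x i) ^ ex i)⁻¹)
          rw [h2, Finset.prod_union hAB,
            Finset.prod_congr rfl (fun i hi => if_pos hi),
            Finset.prod_congr (s₁ := B) rfl
              (fun i hi => if_neg (fun h => Finset.disjoint_left.1 hAB h hi)),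
            Finset.prod_inv_distrib, mul_inv_eq_iff_eq_mul]
          apply Units.ext
          simp only [Units.coe_prod, Units.val_pow_eq_pow_val, Units.val_mul]
          have h5 : ∀ D : Finset ι, D ⊆ A ∪ B →
              ∏ i ∈ D, (un γ (x i) : R ⧸ Ideal.span {γ}) ^ ex i =
              ∏ i ∈ D, Ideal.Quotient.mk (Ideal.span {γ}) (x i) ^ ex i := fun D hD =>
            Finset.prod_congr rfl (fun i hi => by rw [un_val (hcop x hx' ⟨i, hD hi⟩)])
          rw [h5 A Finset.subset_union_left, h5 B Finset.subset_union_right,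
            un_val (IsCoprime.neg_left isCoprime_one_left)]
          simp only [← map_pow, ← map_prod, ← map_mul]
          rw [Ideal.Quotient.eq, Ideal.mem_span_singleton]
          have h3 := (hγC x hx').neg_right
          have h4 : -mon ex C x = ∏ i ∈ A, x i ^ ex i - -1 * ∏ i ∈ B, x i ^ ex i := by
            have := hbox.sum x (hT0T x hx')
            simp only [mon] at this ⊢
            linear_combination -this
          rwa [h4] at h3
      · intro x hx y hy h
        have h' : ∀ i ∈ A ∪ B, x i = y i := fun i hi => congrFun h ⟨i, hi⟩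
        exact hbox.inj x (hT0T x hx) y (hT0T y hy)
          (mon_congr ex (fun i hi => h' i (Finset.mem_union_left _ hi)))
          (mon_congr ex (fun i hi => h' i (Finset.mem_union_right _ hi)))
    have h2 : (T0.card : ℝ) ≤ _ := le_trans (by exact_mod_cast h1) hb
    refine h2.trans ?_
    have h3 : ∀ i : J, (K * tw (S.d * ξ i)) ^ (1 - 2 * k i * θ i) *
        ((K * tw (S.d * ξ i)) ^ k i * (K ^ (k i + 1) *
        tw (ε' * (k i * (k i * ξ i) + (L + E)) + S.d * max 0 (k i * ξ i - g)))) ^ θ i ≤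
        K ^ 2 * tw (ε' * (L + 1 + E) + S.d * (ξ i - c * ξ i / 2)) := by
      intro i
      have hK0 : 0 < K := by linarith
      obtain ⟨κ, hκ0, hκ⟩ : ∃ κ : ℝ, 0 ≤ κ ∧ K = tw κ :=
        ⟨Real.logb 2 K, Real.logb_nonneg (by norm_num) hK3,
          (Real.rpow_logb (by norm_num) (by norm_num) hK0).symm⟩
      rw [hκ]
      simp only [tw_pow, ← tw_add, tw_rpow]
      apply tw_mono
      have a1 := hval i
      have a2 := hkθ i
      have a3 := hθ0 i
      have a4 : (1 : ℝ) ≤ k i := by exact_mod_cast hk1 i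
      have a5 : θ i ≤ 1 / 2 := by nlinarith
      have a6 : k i * ξ i ≤ L + 1 := (hkξ i).trans (max_le (by linarith) (hξL i))
      have a7 : 0 ≤ k i * ξ i := by have := hξ1 i; positivity
      have a8 : θ i * (k i * (k i * ξ i) + (L + E)) ≤ L + 1 + E := by
        have b1 : (k i * θ i) * (k i * ξ i) ≤ (1 / 2) * (L + 1) :=
          mul_le_mul (by linarith) a6 a7 (by norm_num)
        have b2 : θ i * (L + E) ≤ (1 / 2) * (L + E) :=
          mul_le_mul_of_nonneg_right a5 (by linarith)
        nlinarith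
      have a9 := mul_le_mul_of_nonneg_left a1 hd
      have a10 := mul_le_mul_of_nonneg_left a8 hε'0.le
      have a11 : κ * θ i ≤ κ := by nlinarith
      push_cast
      nlinarith
    refine (Finset.prod_le_prod (fun i _ => ?_) (fun i _ => h3 i)).trans ?_
    · have := tw_pos (S.d * ξ i)
      have := tw_pos (ε' * (k i * (k i * ξ i) + (L + E)) + S.d * max 0 (k i * ξ i - g))
      positivity
    rw [Finset.prod_mul_distrib, ← tw_sum, Finset.prod_const, Finset.card_univ]
    apply mul_le_mul (pow_le_pow_right₀ (by nlinarith) (Fintype.card_subtype_le _)) (tw_mono _)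
      (tw_pos _).le (by positivity)
    rw [Finset.sum_add_distrib, Finset.sum_const, ← Finset.mul_sum, Finset.sum_sub_distrib,
      ← Finset.sum_div, ← Finset.mul_sum, Finset.card_univ, nsmul_eq_mul]
    have b1 : (Fintype.card J : ℝ) * ε' ≤ ε := by
      rw [hε', mul_div_assoc', div_le_iff₀ (by positivity)]
      nlinarith
    have b2 := mul_le_mul_of_nonneg_right b1 (show 0 ≤ L + 1 + E by linarith)
    linarith
  have h9 := S.card_le_res n T Γ _ (by
    have := tw_pos (ε * (L + 1 + E) + S.d * (m' - c * m' / 2))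
    positivity) hbox.hi hfib
  refine h9.trans ?_
  have h10 : m' - c * m' / 2 ≤ m / 2 + max 0 (m - g) / 2 + N0 := by
    have h11 : max 0 (m' - g) ≤ max 0 (m - g) + N0 := by
      apply max_le
      · have := le_max_left 0 (m - g); linarith
      · have := le_max_right 0 (m - g); linarith
    linarith
  have h12 := mul_le_mul_of_nonneg_left h10 hd
  rw [mul_assoc, mul_assoc, mul_assoc, ← tw_add, mul_left_comm (tw _), ← tw_add]
  apply mul_le_mul_of_nonneg_left _ (by positivity)
  apply mul_le_mul_of_nonneg_left (tw_mono _) (by positivity)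
  linarith

end Setup

end Pool.Agent.P.MP_dc323a_nt
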