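import Pool.Agent.P.MP_dc323a_nt.Decomp
import Pool.Agent.P.MP_dc323a_nt.ToolG
import Pool.Agent.P.MP_dc323a_nt.ToolF
import Pool.Agent.P.MP_dc323a_nt.ToolM
import Pool.Agent.P.MP_dc323a_nt.LP

set_option autoImplicit false

namespace Pool.Agent.P.MP_dc323a_nt

open Finset Filter

theorem tw_le_iff {x y : ℝ} : tw x ≤ tw y ↔ x ≤ y := Real.rpow_le_rpow_left_iff (by norm_num)

theorem ev_tw (K ε : ℝ) (hK : 0 < K) (hε : 0 < ε) : ∀ᶠ L : ℝ in atTop, 0 ≤ L ∧ K ≤ tw (ε * L) := by
  filter_upwards [eventually_ge_atTop 0, eventually_ge_atTop (Real.logb 2 K / ε)] with L h0 h1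
  refine ⟨h0, ?_⟩
  rw [div_le_iff₀ hε] at h1
  calc K = tw (Real.logb 2 K) := (Real.rpow_logb (by norm_num) (by norm_num) hK).symm
    _ ≤ _ := tw_mono (by linarith)

theorem nu_le {d ν K L B : ℝ} (hd : 1 ≤ d) (h : tw (d * ν) ≤ K * tw (1 / 10000 * L + d * B))
    (hK : 0 ≤ L ∧ K ≤ tw (1 / 10000 * L)) : ν ≤ B + L * (1 / 5000) := by
  have h1 := h.trans (mul_le_mul_of_nonneg_right hK.2 (tw_pos _).le)
  rw [← tw_add, tw_le_iff] at h1
  have h2 := hK.1
  have h3 : d * ν ≤ d * (B + L * (1 / 5000)) := by nlinarith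
  exact le_of_mul_le_mul_left h3 (by linarith)

namespace Setup

variable {R : Type} [CommRing R] [IsDomain R] [IsPrincipalIdealRing R] (S : Setup R) (K : ℕ)

theorem oG (e : ℕ) : ∀ᶠ L : ℝ in atTop, 1 ≤ e → ∀ (n : Fin 3 × Kp K → ℕ)
    (T : Finset (Fin 3 × Kp K → R)) (ν : ℝ) (p q r : Fin 3),
    S.Box exi (sd p) (sd q) (sd r) n T → (∀ s, wt exi n (sd s) ≤ L) →
    (T.card : ℝ) = tw (S.d * ν) → ∀ μP μQ μR : Mask, μP.ok e → μQ.ok e →
    ν ≤ ((side n p).M - (side n p).fm μP + ((side n q).M - (side n q).fm μQ) +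
      ((side n r).M - (side n r).fm μR)) + max 0 ((side n p).fw μP / e + (side n q).fw μQ / e +
        (side n r).fw μR - (side n p).W) + L * (1 / 5000) := by
  by_cases he : 1 ≤ e
  swap
  · exact Eventually.of_forall (fun _ h => absurd h he)
  obtain ⟨K1, hK1, h⟩ := S.toolG (exi (K := K)) e he (1 / 10000) (by norm_num)
  filter_upwards [ev_tw K1 (1 / 10000) hK1 (by norm_num)] with L hL _ n T ν p q r hbox hW hν
    μP μQ μR hP hQ
  have hd : (1 : ℝ) ≤ S.d := by exact_mod_cast S.d_pos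
  have h1 := h _ _ _ n T L hbox (hW r) (sm p μP) (sm q μQ) (sm r μR)
    (sd p \ sm p μP ∪ sd q \ sm q μQ ∪ sd r \ sm r μR) (sm_sub _ _) (sm_sub _ _) (sm_sub _ _)
    (sm_dvd _ _ _ hP) (sm_dvd _ _ _ hQ)
    (Finset.subset_union_left.trans Finset.subset_union_left)
    (Finset.subset_union_right.trans Finset.subset_union_left) Finset.subset_union_right
  rw [hν] at h1
  have h2 := nu_le hd h1 hL
  have h3 := ms_union n (sd p \ sm p μP ∪ sd q \ sm q μQ) (sd r \ sm r μR)
  have h4 := ms_union n (sd p \ sm p μP) (sd q \ sm q μQ)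
  simp only [ms_sdiff n (sm_sub _ _), ms_sd, ms_sm, wt_sd, wt_sm] at h2 h3 h4
  linarith

theorem oF (e : ℕ) : ∀ᶠ L : ℝ in atTop, 2 ≤ e → ∀ (n : Fin 3 × Kp K → ℕ)
    (T : Finset (Fin 3 × Kp K → R)) (ν : ℝ) (p q r : Fin 3),
    S.Box exi (sd p) (sd q) (sd r) n T → (∀ s, wt exi n (sd s) ≤ L) →
    (T.card : ℝ) = tw (S.d * ν) → ∀ μ : Mask, μ.ok e →
    ν ≤ max ((side n p).M - (side n p).fm μ + (side n r).M)
      (((side n p).M - (side n p).fm μ + (side n r).M) / 2 + (side n q).M) + L * (1 / 5000) := by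
  by_cases he : 2 ≤ e
  swap
  · exact Eventually.of_forall (fun _ h => absurd h he)
  obtain ⟨K1, hK1, h⟩ := S.toolF (exi (K := K)) e he (1 / 10000) (by norm_num)
  filter_upwards [ev_tw K1 (1 / 10000) hK1 (by norm_num)] with L hL _ n T ν p q r hbox hW hν μ hP
  have hd : (1 : ℝ) ≤ S.d := by exact_mod_cast S.d_pos
  have h1 := h _ _ _ n T L hbox hL.1 (hW q) (sm p μ) (sd p \ sm p μ ∪ sd r) (sm_sub _ _)
    (sm_dvd _ _ _ hP) Finset.subset_union_left Finset.subset_union_right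
  rw [hν] at h1
  have h2 := nu_le hd h1 hL
  have h3 := ms_union n (sd p \ sm p μ) (sd r)
  simp only [ms_sdiff n (sm_sub _ _), ms_sd, ms_sm] at h2 h3
  refine h2.trans ?_
  gcongr

theorem oM : ∀ᶠ L : ℝ in atTop, ∀ (n : Fin 3 × Kp K → ℕ)
    (T : Finset (Fin 3 × Kp K → R)) (ν : ℝ) (p q r : Fin 3), p ≠ q →
    S.Box exi (sd p) (sd q) (sd r) n T → (∀ s, wt exi n (sd s) ≤ L) →
    (T.card : ℝ) = tw (S.d * ν) → OM ν (L * (1 / 5000)) (side n p) (side n q) (side n r) := by
  obtain ⟨K1, hK1, h⟩ := S.toolM (exi (K := K)) (fun i => one_le_exk i.2) (1 / 10000) (by norm_num)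
  filter_upwards [ev_tw K1 (1 / 10000) hK1 (by norm_num)] with L hL n T ν p q r hpq hbox hW hν μ
  have hd : (1 : ℝ) ≤ S.d := by exact_mod_cast S.d_pos
  have h1 := h _ _ _ n T L hbox (sd_disj hpq) (hW p) (hW q) (hW r) (sm r μ) (sm_sub _ _)
  rw [hν] at h1
  have h2 := nu_le hd h1 hL
  simpa only [ms_sd, ms_sm, wt_sm] using h2

theorem oAll : ∀ᶠ L : ℝ in atTop, ∀ (n : Fin 3 × Kp K → ℕ)
    (T : Finset (Fin 3 × Kp K → R)) (ν : ℝ) (p q r : Fin 3), p ≠ q →
    S.Box exi (sd p) (sd q) (sd r) n T → (∀ s, wt exi n (sd s) ≤ L) →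
    (T.card : ℝ) = tw (S.d * ν) → OG ν (L * (1 / 5000)) (side n p) (side n q) (side n r) ∧
      OF ν (L * (1 / 5000)) (side n p) (side n q) (side n r) ∧
      OM ν (L * (1 / 5000)) (side n p) (side n q) (side n r) := by
  filter_upwards [(Finset.range 5).eventually_all.2 (fun e _ => S.oG K e),
    (Finset.range 5).eventually_all.2 (fun e _ => S.oF K e), S.oM K] with L h1 h2 h3
    n T ν p q r hpq hbox hW hν
  exact ⟨fun e μP μQ μR a b c d =>
      h1 e (Finset.mem_range.2 (by omega)) a n T ν p q r hbox hW hν μP μQ μR c d,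
    fun e μ a b c => h2 e (Finset.mem_range.2 (by omega)) a n T ν p q r hbox hW hν μ c,
    h3 n T ν p q r hpq hbox hW hν⟩

theorem box_ord : ∀ᶠ L : ℝ in atTop, ∀ (n : Fin 3 × Kp K → ℕ)
    (T : Finset (Fin 3 × Kp K → R)) (ν : ℝ) (p q r : Fin 3), p ≠ q → p ≠ r → q ≠ r →
    S.Box exi (sd p) (sd q) (sd r) n T → (∀ s, wt exi n (sd s) ≤ L) →
    (T.card : ℝ) = tw (S.d * ν) → 0 ≤ ν → L - L * (1 / 5000) ≤ wt exi n (sd q) →
    L - L * (1 / 5000) ≤ wt exi n (sd r) →
    ms n (sd p) + ms n (sd q) + ms n (sd r) ≤ L + L * (1 / 5000) → ν ≤ 549 / 1000 * L := by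
  filter_upwards [S.oAll K, eventually_gt_atTop 0] with L h hL
  have key : ∀ (n : Fin 3 × Kp K → ℕ)
      (T : Finset (Fin 3 × Kp K → R)) (ν : ℝ) (p q r : Fin 3), p ≠ q → p ≠ r → q ≠ r →
      S.Box exi (sd p) (sd q) (sd r) n T → (∀ s, wt exi n (sd s) ≤ L) →
      (T.card : ℝ) = tw (S.d * ν) → 0 ≤ ν → L - L * (1 / 5000) ≤ wt exi n (sd q) →
      L - L * (1 / 5000) ≤ wt exi n (sd r) →
      ms n (sd p) + ms n (sd q) + ms n (sd r) ≤ L + L * (1 / 5000) →
      (side n q).M ≤ (side n r).M → ν ≤ 549 / 1000 * L := by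
    intro n T ν p q r hpq hpr hqr b hW hν h0 l1 l2 ht hs
    have o012 := h n T ν p q r hpq b hW hν
    have o021 := h n T ν p r q hpr b.swap23 hW hν
    have o102 := h n T ν q p r hpq.symm b.swap12 hW hν
    have o120 := h n T ν q r p hqr b.swap12.swap23 hW hν
    have o201 := h n T ν r p q hpr.symm b.swap23.swap12 hW hν
    have o210 := h n T ν r q p hqr.symm b.swap23.swap12.swap23 hW hν
    simp only [wt_sd, ms_sd] at hW l1 l2 ht
    refine lp (side n p) (side n q) (side n r) ν L hL h0 (side_ok _ _) (side_ok _ _) (side_ok _ _)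
      (hW p) (hW q) (hW r) l1 l2 ht ?_ hs o120.1 o201.1 o102.1 o012.2.1 o021.2.1 o102.2.1
      o120.2.1 o201.2.1 o210.2.1 o120.2.2 o201.2.2 o012.2.2
    have h1 := o012.1 1 ⟨false, false, false, false, false⟩ ⟨false, false, false, false, false⟩
      ⟨false, false, false, false, false⟩ le_rfl (by norm_num) (by decide) (by decide)
    have h2 : 0 ≤ (side n p).W := by rw [← wt_sd]; exact wt_nonneg _ _ _
    simp only [Side.fm, Side.fw, cond_false, add_zero, zero_div, sub_zero, zero_sub] at h1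
    rwa [max_eq_left (by linarith), add_zero] at h1
  intro n T ν p q r hpq hpr hqr b hW hν h0 l1 l2 ht
  rcases le_total (side n q).M (side n r).M with hs | hs
  · exact key n T ν p q r hpq hpr hqr b hW hν h0 l1 l2 ht hs
  · exact key n T ν p r q hpr hpq hqr.symm b.swap23 hW hν h0 l2 l1 (by linarith) hs

omit [IsDomain R] [IsPrincipalIdealRing R] in
theorem tri {ι : Type} [Fintype ι] {ex : ι → ℕ} {A B C : Finset ι} {n : ι → ℕ}
    {T : Finset (ι → R)} (h : S.Box ex A B C n T) (hT : T.Nonempty) :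
    wt ex n C ≤ max (wt ex n A) (wt ex n B) + (tot ex + 1) := by
  obtain ⟨x, hx⟩ := hT
  have h1 := S.mon_lo ex n C x (h.lo x hx)
  have h2 := (S.mon_hi ex n A x (h.hi x hx)).trans
    (tw_mono (add_le_add_left (le_max_left _ (wt ex n B)) _))
  have h3 := (S.mon_hi ex n B x (h.hi x hx)).trans
    (tw_mono (add_le_add_left (le_max_right (wt ex n A) _) _))
  have h4 : mon ex C x = -(mon ex A x + mon ex B x) := by linear_combination h.sum x hx
  have h5 := S.N_add_le (mon ex A x) (mon ex B x)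
  rw [h4, S.N_neg] at h1
  rw [← tw_le_iff, ← add_assoc, tw_add _ 1, tw_one]
  linarith

theorem box_large (hK : 29995 ≤ K) : ∀ᶠ L : ℝ in atTop, ∀ (n : Fin 3 × Kp K → ℕ)
    (T : Finset (Fin 3 × Kp K → R)),
    S.Box exi (sd 0) (sd 1) (sd 2) n T → (∀ s, wt exi n (sd s) ≤ L) →
    (∃ s, wt exi n (sd s) = L) →
    (∀ x ∈ T, ∃ s, S.N (∏ t, ∏ j ∈ univ.erase topk, x (t, j)) ≤ S.N (mon exi (sd s) x)) →
    (T.card : ℝ) ≤ tw (S.d * (549 / 1000 * L)) := by
  filter_upwards [S.box_ord K, eventually_ge_atTop (10000 * (tot (exi (K := K)) + 1))]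
    with L h hL n T b hW hs hrad
  rcases T.eq_empty_or_nonempty with hT | hT
  · rw [hT, Finset.card_empty, Nat.cast_zero]; exact (tw_pos _).le
  have hd : (1 : ℝ) ≤ S.d := by exact_mod_cast S.d_pos
  have hc : (1 : ℝ) ≤ T.card := by exact_mod_cast hT.card_pos
  set ν := Real.logb 2 T.card / S.d with hν
  have hν1 : (T.card : ℝ) = tw (S.d * ν) := by
    rw [hν, mul_div_cancel₀ _ (by linarith)]
    exact (Real.rpow_logb (by norm_num) (by norm_num) (by linarith)).symm
  have hν0 : 0 ≤ ν := div_nonneg (Real.logb_nonneg (by norm_num) hc) (by linarith)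
  rw [hν1]
  apply tw_mono
  apply mul_le_mul_of_nonneg_left _ (by linarith)
  have hE := tot_nonneg (exi (K := K))
  have ht : ms n (sd 0) + ms n (sd 1) + ms n (sd 2) ≤ L + L * (1 / 5000) := by
    obtain ⟨x, hx⟩ := hT
    obtain ⟨s, h1⟩ := hrad x hx
    have h2 := h1.trans (S.mon_hi exi n (sd s) x (b.hi x hx))
    have h3 : tw (∑ t, ∑ j ∈ univ.erase topk, (n (t, j) : ℝ)) ≤
        S.N (∏ t, ∏ j ∈ univ.erase topk, x (t, j)) := by
      simp only [tw_sum, S.N_prod]
      refine Finset.prod_le_prod (fun t _ => Finset.prod_nonneg (fun _ _ => (tw_pos _).le))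
        (fun t _ => Finset.prod_le_prod (fun _ _ => (tw_pos _).le) (fun j _ => b.lo x hx _))
    have h4 := tw_le_iff.1 (h3.trans h2)
    have h5 : ∀ t, ms n (sd t) ≤ ∑ j ∈ univ.erase topk, (n (t, j) : ℝ) + L / 30000 := by
      intro t
      have h6 : ms n (sd t) = ∑ j ∈ univ.erase topk, (n (t, j) : ℝ) + n (t, topk) := by
        rw [Finset.sum_erase_add _ _ (Finset.mem_univ _)]
        simp only [ms, sd, Finset.sum_product, Finset.sum_singleton]
      have h7 : (exi (t, (topk : Kp K)) : ℝ) * n (t, topk) ≤ wt exi n (sd t) :=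
        Finset.single_le_sum (f := fun i => (exi i : ℝ) * n i) (fun _ _ => by positivity)
          (by simp [sd])
      have h8 : (30000 : ℝ) ≤ exi (t, (topk : Kp K)) := by
        have : 30000 ≤ exi (t, (topk : Kp K)) := by
          simp only [exi, exk_top]; omega
        exact_mod_cast this
      have h9 : (0 : ℝ) ≤ n (t, topk) := by positivity
      have := hW t
      nlinarith
    rw [Fin.sum_univ_three] at h4
    have := h5 0
    have := h5 1
    have := h5 2
    have := hW s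
    linarith
  have t2 := S.tri b hT
  have t1 := S.tri b.swap23 hT
  have t0 := S.tri b.swap12.swap23 hT
  have q0 := h n T ν 0 1 2 (by decide) (by decide) (by decide) b hW hν1 hν0
  have q1 := h n T ν 1 0 2 (by decide) (by decide) (by decide) b.swap12 hW hν1 hν0
  have q2 := h n T ν 2 0 1 (by decide) (by decide) (by decide) b.swap23.swap12 hW hν1 hν0
  obtain ⟨s, hs⟩ := hs
  have hs' : wt exi n (sd 0) = L ∨ wt exi n (sd 1) = L ∨ wt exi n (sd 2) = L := by
    fin_cases s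
    · exact Or.inl hs
    · exact Or.inr (Or.inl hs)
    · exact Or.inr (Or.inr hs)
  rcases hs' with a | a | a
  · rcases max_cases (wt exi n (sd 1)) (wt exi n (sd 2)) with c | c
    · exact q2 (by linarith) (by linarith [c.1]) (by linarith)
    · exact q1 (by linarith) (by linarith [c.1]) (by linarith)
  · rcases max_cases (wt exi n (sd 0)) (wt exi n (sd 2)) with c | c
    · exact q2 (by linarith [c.1]) (by linarith) (by linarith)
    · exact q0 (by linarith) (by linarith [c.1]) (by linarith)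
  · rcases max_cases (wt exi n (sd 0)) (wt exi n (sd 1)) with c | c
    · exact q1 (by linarith [c.1]) (by linarith) (by linarith)
    · exact q0 (by linarith [c.1]) (by linarith) (by linarith)

theorem box_all (hK : 29995 ≤ K) : ∃ K1 : ℝ, 0 < K1 ∧ ∀ (L : ℝ) (n : Fin 3 × Kp K → ℕ)
    (T : Finset (Fin 3 × Kp K → R)),
    S.Box exi (sd 0) (sd 1) (sd 2) n T → (∀ s, wt exi n (sd s) ≤ L) →
    (∀ x ∈ T, ∃ s, S.N (∏ t, ∏ j ∈ univ.erase topk, x (t, j)) ≤ S.N (mon exi (sd s) x)) →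
    (T.card : ℝ) ≤ K1 * tw (S.d * (549 / 1000 * L)) := by
  classical
  obtain ⟨L0, hL0⟩ := eventually_atTop.1 (S.box_large K hK)
  set K1 := S.C1 ^ Fintype.card (Fin 3 × Kp K) * tw (S.d * (3 * |L0|)) with hK1
  have hd : (0 : ℝ) ≤ S.d := by positivity
  have hK11 : 1 ≤ K1 := by
    have h1 : 1 ≤ S.C1 ^ Fintype.card (Fin 3 × Kp K) := one_le_pow₀ S.one_le_C1
    have h2 := one_le_tw (x := S.d * (3 * |L0|)) (by positivity)
    rw [hK1]; nlinarith
  refine ⟨K1, by linarith, fun L n T b hW hrad => ?_⟩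
  obtain ⟨s, -, hs⟩ := Finset.exists_max_image univ (fun s => wt exi n (sd s)) Finset.univ_nonempty
  have hs' : ∀ t, wt exi n (sd t) ≤ wt exi n (sd s) := fun t => hs t (Finset.mem_univ _)
  have h0 : 0 ≤ wt exi n (sd s) := wt_nonneg _ _ _
  have h1 := hW s
  rcases le_total L0 (wt exi n (sd s)) with h | h
  · refine (hL0 _ h n T b hs' ⟨s, rfl⟩ hrad).trans ?_
    refine (tw_mono (mul_le_mul_of_nonneg_left (by linarith) hd)).trans
      (le_mul_of_one_le_left (tw_pos _).le hK11)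
  · have h2 := S.card_le_res n T (sd 0 ∪ sd 1) 1 zero_le_one b.hi (fun x0 hx0 => by
      have : (T.filter (fun x => ∀ i ∈ sd 0 ∪ sd 1, x i = x0 i)).card ≤ 1 := by
        rw [Finset.card_le_one]
        intro x hx y hy
        have a1 := Finset.mem_filter.1 hx
        have a2 := Finset.mem_filter.1 hy
        have a3 : ∀ i ∈ sd 0 ∪ sd 1, x i = y i := fun i hi => (a1.2 i hi).trans (a2.2 i hi).symm
        exact b.inj x a1.1 y a2.1 (mon_congr _ (fun i hi => a3 i (Finset.mem_union_left _ hi)))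
          (mon_congr _ (fun i hi => a3 i (Finset.mem_union_right _ hi)))
      exact_mod_cast this)
    have h3 : ∀ t, ms n (sd t) ≤ |L0| := by
      intro t
      refine le_trans ?_ ((hs' t).trans (h.trans (le_abs_self _)))
      refine Finset.sum_le_sum (fun i _ => le_mul_of_one_le_left (by positivity) ?_)
      exact_mod_cast one_le_exk i.2
    have h4 := ms_union n (sd 0) (sd 1)
    have h5 := abs_nonneg L0
    rw [mul_one] at h2
    refine h2.trans (le_trans ?_ (le_mul_of_one_le_right (by linarith) (one_le_tw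
      (mul_nonneg hd (by linarith)))))
    apply mul_le_mul_of_nonneg_left (tw_mono (mul_le_mul_of_nonneg_left _ hd))
      (pow_nonneg (by linarith [S.one_le_C1]) _)
    linarith [h3 0, h3 1]

end Setup

end Pool.Agent.P.MP_dc323a_nt
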