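import Pool.Agent.P.MP_dc323a_nt.BoxMain

set_option autoImplicit false

namespace Pool.Agent.P.MP_dc323a_nt

open Finset

theorem lin_le_tw (δ : ℝ) (hδ : 0 < δ) : ∃ c : ℝ, 0 < c ∧ ∀ L : ℝ, 0 ≤ L → L + 1 ≤ c * tw (δ * L) := by
  have h2 : 0 < Real.log 2 := Real.log_pos (by norm_num)
  set δ' := Real.log 2 * δ with hδ'
  have hδ0 : 0 < δ' := by positivity
  refine ⟨1 + 1 / δ', by positivity, fun L hL => ?_⟩
  have h1 : δ' * L + 1 ≤ tw (δ * L) := by
    rw [tw, Real.rpow_def_of_pos (by norm_num), ← mul_assoc]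
    exact Real.add_one_le_exp _
  refine le_trans ?_ (mul_le_mul_of_nonneg_left h1 (by positivity))
  have h3 : (1 + 1 / δ') * (δ' * L + 1) = L + 1 + (δ' * L + 1 / δ') := by field_simp; ring
  rw [h3]
  have : 0 ≤ δ' * L + 1 / δ' := by positivity
  linarith

namespace Setup

variable {R : Type} [CommRing R] [IsDomain R] [IsPrincipalIdealRing R] (S : Setup R)

theorem count_fun : ∃ C : ℝ, 0 < C ∧ ∀ X : ℝ, 1 ≤ X → ∀ U : Finset (Fin 3 → R),
    (∀ v ∈ U, (∀ s, v s ≠ 0) ∧ v 0 + v 1 + v 2 = 0 ∧ IsCoprime (v 0) (v 1) ∧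
      IsCoprime (v 0) (v 2) ∧ IsCoprime (v 1) (v 2) ∧ (∀ s, S.N (v s) ≤ X) ∧
      ∃ (r : R) (k : ℕ) (s : Fin 3), r ≠ 0 ∧ v 0 * v 1 * v 2 ∣ r ^ k ∧ S.N r ≤ S.N (v s)) →
    (U.card : ℝ) ≤ C * X ^ (S.d * (11 / 20 : ℝ)) := by
  classical
  obtain ⟨K, hK⟩ : ∃ K : ℕ, 29995 ≤ K := ⟨_, le_rfl⟩
  obtain ⟨K1, hK1, hbox⟩ := S.box_all K hK
  set N0 := Fintype.card (Fin 3 × Kp K) with hN0
  obtain ⟨c, hc, hlin⟩ := lin_le_tw (1 / (1000 * ((N0 : ℝ) + 1))) (by positivity)
  refine ⟨c ^ N0 * K1, by positivity, fun X hX U hU => ?_⟩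
  have hdec : ∀ a : R, ∃ x : Kp K → R, a ≠ 0 →
      a = ∏ j, x j ^ exk j ∧ Squarefree (∏ j ∈ univ.erase topk, x j) := by
    intro a
    by_cases ha : a = 0
    · exact ⟨fun _ => 0, fun h => absurd ha h⟩
    · obtain ⟨x, hx⟩ := decomp exk one_le_exk (topk : Kp K) (by rw [exk_top]; omega) exk_surj a ha
      exact ⟨x, fun _ => hx⟩
  choose dec hdec using hdec
  let F : (Fin 3 → R) → Fin 3 × Kp K → R := fun v i => dec (v i.1) i.2
  have hF : ∀ v ∈ U, ∀ s, mon exi (sd s) (F v) = v s := fun v hv s => by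
    rw [mon_sd]; exact (hdec _ ((hU v hv).1 s)).1.symm
  have hFd : ∀ v ∈ U, ∀ i, F v i ∣ v i.1 := fun v hv i => by
    have h1 := (hdec _ ((hU v hv).1 i.1)).1
    have h2 : F v i ∣ ∏ j, dec (v i.1) j ^ exk j :=
      (dvd_pow_self _ (by have := one_le_exk i.2; omega)).trans
        (Finset.dvd_prod_of_mem (fun j => dec (v i.1) j ^ exk j) (Finset.mem_univ i.2))
    rwa [← h1] at h2
  have hF0 : ∀ v ∈ U, ∀ i, F v i ≠ 0 := fun v hv i h => by
    have := hFd v hv i
    rw [h, zero_dvd_iff] at this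
    exact (hU v hv).1 _ this
  have hinj : Set.InjOn F U := by
    intro v hv w hw h
    funext s
    rw [← hF v hv s, ← hF w hw s, h]
  rw [← Finset.card_image_of_injOn hinj]
  set L := Real.logb 2 X with hL
  have hL0 : 0 ≤ L := Real.logb_nonneg (by norm_num) hX
  have hXL : X = tw L := (Real.rpow_logb (by norm_num) (by norm_num) (by linarith)).symm
  let nb : (Fin 3 × Kp K → R) → Fin 3 × Kp K → ℕ := fun x i => ⌊Real.logb 2 (S.N (x i))⌋₊
  have hnb : ∀ a : R, a ≠ 0 → tw (⌊Real.logb 2 (S.N a)⌋₊ : ℕ) ≤ S.N a ∧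
      S.N a ≤ tw ((⌊Real.logb 2 (S.N a)⌋₊ : ℕ) + 1) := by
    intro a ha
    have h1 : S.N a = tw (Real.logb 2 (S.N a)) :=
      (Real.rpow_logb (by norm_num) (by norm_num) (S.N_pos ha)).symm
    have h2 := Real.logb_nonneg (b := 2) (by norm_num) (S.one_le_N ha)
    exact ⟨(tw_mono (Nat.floor_le h2)).trans h1.ge,
      h1.le.trans (tw_mono (Nat.lt_floor_add_one _).le)⟩
  have h1 := card_le_of_fibers (U.image F)
    (Fintype.piFinset (fun _ : Fin 3 × Kp K => Finset.range (⌊L⌋₊ + 1))) nb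
    (K1 * tw (S.d * (549 / 1000 * L)))
    (by
      intro x hx
      obtain ⟨v, hv, rfl⟩ := Finset.mem_image.1 hx
      rw [Fintype.mem_piFinset]
      intro i
      rw [Finset.mem_range, Nat.lt_succ_iff]
      apply Nat.floor_le_floor
      apply Real.logb_le_logb_of_le (by norm_num) (S.N_pos (hF0 v hv i))
      exact (S.N_le_of_dvd ((hU v hv).1 _) (hFd v hv i)).trans ((hU v hv).2.2.2.2.2.1 _))
    (by
      intro n _
      set T := (U.image F).filter (fun x => nb x = n) with hT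
      have hT' : ∀ x ∈ T, ∃ v ∈ U, F v = x ∧ nb x = n := by
        intro x hx
        obtain ⟨h1, h2⟩ := Finset.mem_filter.1 hx
        obtain ⟨v, hv, h3⟩ := Finset.mem_image.1 h1
        exact ⟨v, hv, h3, h2⟩
      rcases T.eq_empty_or_nonempty with h | ⟨x0, hx0⟩
      · rw [h, Finset.card_empty, Nat.cast_zero]
        exact mul_nonneg hK1.le (tw_pos _).le
      have b : S.Box exi (sd 0) (sd 1) (sd 2) n T := by
        constructor
        · intro x hx i
          obtain ⟨v, hv, rfl, rfl⟩ := hT' x hx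
          exact (hnb _ (hF0 v hv i)).1
        · intro x hx i
          obtain ⟨v, hv, rfl, rfl⟩ := hT' x hx
          exact (hnb _ (hF0 v hv i)).2
        · intro x hx
          obtain ⟨v, hv, rfl, -⟩ := hT' x hx
          rw [hF v hv, hF v hv, hF v hv]; exact (hU v hv).2.1
        · intro x hx
          obtain ⟨v, hv, rfl, -⟩ := hT' x hx
          rw [hF v hv, hF v hv]; exact (hU v hv).2.2.1
        · intro x hx
          obtain ⟨v, hv, rfl, -⟩ := hT' x hx
          rw [hF v hv, hF v hv]; exact (hU v hv).2.2.2.1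
        · intro x hx
          obtain ⟨v, hv, rfl, -⟩ := hT' x hx
          rw [hF v hv, hF v hv]; exact (hU v hv).2.2.2.2.1
        · intro x hx y hy a1 a2
          obtain ⟨v, hv, rfl, -⟩ := hT' x hx
          obtain ⟨w, hw, rfl, -⟩ := hT' y hy
          rw [hF v hv, hF w hw] at a1 a2
          have a3 : v 2 = w 2 := by linear_combination (hU v hv).2.1 - (hU w hw).2.1 - a1 - a2
          congr 1
          funext s
          fin_cases s
          · exact a1
          · exact a2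
          · exact a3
      apply hbox L n T b
      · intro s
        obtain ⟨v, hv, h1, -⟩ := hT' x0 hx0
        have h2 := S.mon_lo exi n (sd s) x0 (b.lo x0 hx0)
        rw [← h1, hF v hv] at h2
        rw [← tw_le_iff, ← hXL]
        exact h2.trans ((hU v hv).2.2.2.2.2.1 _)
      · intro x hx
        obtain ⟨v, hv, rfl, -⟩ := hT' x hx
        obtain ⟨g1, -, g2, g3, g4, -, r, k, s, g5, g6, g7⟩ := hU v hv
        refine ⟨s, ?_⟩
        rw [hF v hv]
        refine le_trans (S.N_le_of_dvd g5 ?_) g7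
        have hd : ∀ t, ∏ j ∈ univ.erase topk, F v (t, j) ∣ v t := fun t => by
          have a1 := (hdec _ (g1 t)).1
          have a2 : ∏ j ∈ univ.erase topk, F v (t, j) ∣ ∏ j, dec (v t) j ^ exk j :=
            (Finset.prod_dvd_prod_of_dvd _ _ (fun j _ => dvd_pow_self (dec (v t) j)
              (by have := one_le_exk j; omega))).trans
              (Finset.prod_dvd_prod_of_subset _ _ _ (Finset.subset_univ _))
          rwa [← a1] at a2
        have hsq : Squarefree (∏ t, ∏ j ∈ univ.erase topk, F v (t, j)) := by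
          rw [Fin.prod_univ_three, squarefree_mul_iff, squarefree_mul_iff]
          refine ⟨?_, ⟨?_, (hdec _ (g1 0)).2, (hdec _ (g1 1)).2⟩, (hdec _ (g1 2)).2⟩
          · exact ((g3.mono (hd 0) (hd 2)).mul_left (g4.mono (hd 1) (hd 2))).isRelPrime
          · exact (g2.mono (hd 0) (hd 1)).isRelPrime
        have hdv : ∏ t, ∏ j ∈ univ.erase topk, F v (t, j) ∣ r ^ (k + 1) := by
          rw [Fin.prod_univ_three]
          exact ((mul_dvd_mul (mul_dvd_mul (hd 0) (hd 1)) (hd 2)).trans g6).trans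
            (pow_dvd_pow _ (Nat.le_succ k))
        exact (hsq.dvd_pow_iff_dvd (Nat.succ_ne_zero k)).1 hdv)
  refine h1.trans ?_
  rw [Fintype.card_piFinset, Finset.prod_const, Finset.card_univ, Finset.card_range, ← hN0]
  have h2 : ((⌊L⌋₊ + 1 : ℕ) : ℝ) ≤ c * tw (1 / (1000 * ((N0 : ℝ) + 1)) * L) := by
    refine le_trans ?_ (hlin L hL0)
    push_cast
    linarith [Nat.floor_le hL0]
  have h3 : (((⌊L⌋₊ + 1) ^ N0 : ℕ) : ℝ) ≤ c ^ N0 * tw (L / 1000) := by
    rw [Nat.cast_pow]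
    refine (pow_le_pow_left₀ (by positivity) h2 _).trans ?_
    rw [mul_pow, tw_pow]
    apply mul_le_mul_of_nonneg_left (tw_mono _) (by positivity)
    have h4 : (N0 : ℝ) * (1 / (1000 * ((N0 : ℝ) + 1))) ≤ 1 / 1000 := by
      rw [mul_one_div, div_le_div_iff₀ (by positivity) (by norm_num)]
      linarith
    nlinarith
  have hd : (1 : ℝ) ≤ S.d := by exact_mod_cast S.d_pos
  calc _ ≤ (c ^ N0 * tw (L / 1000)) * (K1 * tw (S.d * (549 / 1000 * L))) :=
        mul_le_mul_of_nonneg_right h3 (mul_nonneg hK1.le (tw_pos _).le)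
    _ = c ^ N0 * K1 * tw (L / 1000 + S.d * (549 / 1000 * L)) := by rw [tw_add]; ring
    _ ≤ _ := by
        apply mul_le_mul_of_nonneg_left _ (by positivity)
        rw [hXL, tw_rpow]
        apply tw_mono
        nlinarith

end Setup

end Pool.Agent.P.MP_dc323a_nt
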