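import Mathlib

set_option autoImplicit false

namespace Pool.Agent.P.MP_dc323a_nt

/-- The masses of the classes of variables on one side of the equation. -/
structure Side where
  a1 : ℝ
  a2 : ℝ
  a3 : ℝ
  a4 : ℝ
  h : ℝ
  w : ℝ

/-- A choice of classes. -/
structure Mask where
  b1 : Bool
  b2 : Bool
  b3 : Bool
  b4 : Bool
  b5 : Bool

/-- Total mass. -/
def Side.M (s : Side) : ℝ := s.a1 + s.a2 + s.a3 + s.a4 + s.h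
/-- Total weight. -/
def Side.W (s : Side) : ℝ := s.a1 + 2 * s.a2 + 3 * s.a3 + 4 * s.a4 + s.w
/-- Mass of the chosen classes. -/
def Side.fm (s : Side) (μ : Mask) : ℝ :=
  cond μ.b1 s.a1 0 + cond μ.b2 s.a2 0 + cond μ.b3 s.a3 0 + cond μ.b4 s.a4 0 + cond μ.b5 s.h 0
/-- Weight of the chosen classes. -/
def Side.fw (s : Side) (μ : Mask) : ℝ :=
  cond μ.b1 s.a1 0 + cond μ.b2 (2 * s.a2) 0 + cond μ.b3 (3 * s.a3) 0 + cond μ.b4 (4 * s.a4) 0 +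
    cond μ.b5 s.w 0
/-- Sign conditions. -/
def Side.Ok (s : Side) : Prop :=
  0 ≤ s.a1 ∧ 0 ≤ s.a2 ∧ 0 ≤ s.a3 ∧ 0 ≤ s.a4 ∧ 0 ≤ s.h ∧ 5 * s.h ≤ s.w
/-- All chosen exponents are multiples of `e`. -/
def Mask.ok (μ : Mask) (e : ℕ) : Prop :=
  (μ.b1 = true → e ∣ 1) ∧ (μ.b2 = true → e ∣ 2) ∧ (μ.b3 = true → e ∣ 3) ∧ (μ.b4 = true → e ∣ 4) ∧
    (μ.b5 = true → e = 1)

instance (μ : Mask) (e : ℕ) : Decidable (μ.ok e) := by unfold Mask.ok; infer_instance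

/-- The lattice bounds. -/
def OG (ν η : ℝ) (P Q R : Side) : Prop :=
  ∀ (e : ℕ) (μP μQ μR : Mask), 1 ≤ e → e ≤ 4 → μP.ok e → μQ.ok e →
    ν ≤ (P.M - P.fm μP + (Q.M - Q.fm μQ) + (R.M - R.fm μR)) +
      max 0 (P.fw μP / e + Q.fw μQ / e + R.fw μR - P.W) + η

/-- The differencing bounds. -/
def OF (ν η : ℝ) (P Q R : Side) : Prop :=
  ∀ (e : ℕ) (μ : Mask), 2 ≤ e → e ≤ 4 → μ.ok e →
    ν ≤ max (P.M - P.fm μ + R.M) ((P.M - P.fm μ + R.M) / 2 + Q.M) + η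

/-- The character sum bounds. -/
def OM (ν η : ℝ) (P Q R : Side) : Prop :=
  ∀ μ : Mask, ν ≤ R.fm μ + (P.M + Q.M) / 2 + max 0 (P.M + Q.M - R.fw μ) / 2 + η

theorem spG {ν a y η : ℝ} (h : ν ≤ a + max 0 y + η) :
    (ν ≤ a + η ∧ y ≤ 0) ∨ (ν ≤ a + y + η ∧ 0 ≤ y) := by
  rcases le_total y 0 with h1 | h1
  · rw [max_eq_left h1, add_zero] at h; exact Or.inl ⟨h, h1⟩
  · rw [max_eq_right h1] at h; exact Or.inr ⟨h, h1⟩

theorem spM {ν a y η : ℝ} (h : ν ≤ a + max 0 y / 2 + η) :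
    (ν ≤ a + η ∧ y ≤ 0) ∨ (ν ≤ a + y / 2 + η ∧ 0 ≤ y) := by
  rcases le_total y 0 with h1 | h1
  · rw [max_eq_left h1, zero_div, add_zero] at h; exact Or.inl ⟨h, h1⟩
  · rw [max_eq_right h1] at h; exact Or.inr ⟨h, h1⟩

theorem spF {ν x y η : ℝ} (h : ν ≤ max x y + η) :
    (ν ≤ y + η ∧ x ≤ y) ∨ (ν ≤ x + η ∧ y ≤ x) := by
  rcases le_total x y with h1 | h1
  · rw [max_eq_right h1] at h; exact Or.inl ⟨h, h1⟩
  · rw [max_eq_left h1] at h; exact Or.inr ⟨h, h1⟩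

end Pool.Agent.P.MP_dc323a_nt
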