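import Pool.Agent.P.MP_dc323a_nt.Box
import Pool.Agent.P.MP_dc323a_nt.LPDefs

set_option autoImplicit false

namespace Pool.Agent.P.MP_dc323a_nt

open Finset

theorem decomp {R : Type} [CommRing R] [IsDomain R] [IsPrincipalIdealRing R] {κ : Type} [Fintype κ]
    [DecidableEq κ] (ex : κ → ℕ) (hex : ∀ j, 1 ≤ ex j) (top : κ) (h2 : 2 ≤ ex top)
    (hs : ∀ m, 1 ≤ m → m < ex top → ∃ j, ex j = m) (n : R) :
    n ≠ 0 → ∃ x : κ → R, n = ∏ j, x j ^ ex j ∧ Squarefree (∏ j ∈ univ.erase top, x j) := by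
  have key : ∀ (j : κ) (u v : R), j ≠ top → Squarefree u → ∃ x : κ → R,
      u ^ ex j * v ^ ex top = ∏ j, x j ^ ex j ∧ Squarefree (∏ j ∈ univ.erase top, x j) := by
    intro j u v hj hu
    refine ⟨fun i => (if i = j then u else 1) * (if i = top then v else 1), ?_, ?_⟩
    · simp only [mul_pow, Finset.prod_mul_distrib, ite_pow, one_pow, Finset.prod_ite_eq',
        Finset.mem_univ, if_true]
    · simp only [Finset.prod_mul_distrib, Finset.prod_ite_eq', Finset.mem_erase, Finset.mem_univ,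
        and_true, ne_eq, not_true, if_false, mul_one, hj, not_false_iff, if_true]
      exact hu
  obtain ⟨j1, hj1⟩ := hs 1 le_rfl (by omega)
  have hj1' : j1 ≠ top := by rintro rfl; omega
  induction n using UniqueFactorizationMonoid.induction_on_coprime with
  | h0 => intro h; exact absurd rfl h
  | h1 hu =>
    intro _
    have := key j1 _ 1 hj1' hu.squarefree
    simpa [hj1] using this
  | @hpr p i hp =>
    intro _
    have hi : i = i % ex top + (i / ex top) * ex top := by
      rw [mul_comm]; exact (Nat.mod_add_div i _).symm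
    rcases Nat.eq_zero_or_pos (i % ex top) with h | h
    · have := key j1 1 (p ^ (i / ex top)) hj1' squarefree_one
      rw [one_pow, one_mul, ← pow_mul] at this
      rw [hi, h, zero_add]; exact this
    · obtain ⟨j, hj⟩ := hs _ h (Nat.mod_lt _ (by omega))
      have hj' : j ≠ top := by
        rintro rfl
        have := Nat.mod_lt i (show 0 < ex j by omega)
        omega
      have := key j p (p ^ (i / ex top)) hj' hp.squarefree
      rw [hj, ← pow_mul, ← pow_add, ← hi] at this
      exact this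
  | @hcp a b hab iha ihb =>
    intro h
    obtain ⟨x, hx1, hx2⟩ := iha (left_ne_zero_of_mul h)
    obtain ⟨y, hy1, hy2⟩ := ihb (right_ne_zero_of_mul h)
    have hd : ∀ z : κ → R, ∏ j ∈ univ.erase top, z j ∣ ∏ j, z j ^ ex j := fun z =>
      (Finset.prod_dvd_prod_of_dvd _ _ (fun j _ => dvd_pow_self (z j)
        (by have := hex j; omega))).trans
        (Finset.prod_dvd_prod_of_subset _ _ _ (Finset.subset_univ _))
    refine ⟨fun j => x j * y j, ?_, ?_⟩
    · simp only [mul_pow, Finset.prod_mul_distrib, ← hx1, ← hy1]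
    · rw [Finset.prod_mul_distrib, squarefree_mul_iff]
      refine ⟨?_, hx2, hy2⟩
      rw [hx1, hy1] at hab
      exact (hab.of_dvd_left (hd x)).of_dvd_right (hd y)

/-- Index type of the variables on one side. -/
abbrev Kp (K : ℕ) : Type := Fin 4 ⊕ Fin (K + 1)

variable {K : ℕ}

/-- The exponents on one side. -/
def exk : Kp K → ℕ := Sum.elim (fun j => j.val + 1) (fun j => j.val + 5)

/-- The index with the largest exponent. -/
def topk : Kp K := Sum.inr (Fin.last K)

/-- The exponents. -/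
def exi : Fin 3 × Kp K → ℕ := fun i => exk i.2

/-- Selection of indices by a mask. -/
def sel (μ : Mask) : Kp K → Bool := Sum.elim ![μ.b1, μ.b2, μ.b3, μ.b4] (fun _ => μ.b5)

/-- All variables on a side. -/
def sd (s : Fin 3) : Finset (Fin 3 × Kp K) := {s} ×ˢ univ

/-- The chosen variables on a side. -/
def sm (s : Fin 3) (μ : Mask) : Finset (Fin 3 × Kp K) := {s} ×ˢ univ.filter (fun j => sel μ j = true)

/-- The masses attached to a box. -/
def side (n : Fin 3 × Kp K → ℕ) (s : Fin 3) : Side :=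
  ⟨n (s, Sum.inl 0), n (s, Sum.inl 1), n (s, Sum.inl 2), n (s, Sum.inl 3),
    ∑ j, (n (s, Sum.inr j) : ℝ), ∑ j : Fin (K + 1), ((j.val + 5 : ℕ) : ℝ) * n (s, Sum.inr j)⟩

theorem one_le_exk (j : Kp K) : 1 ≤ exk j := by
  rcases j with j | j <;> simp [exk]

theorem exk_top : exk (topk : Kp K) = K + 5 := rfl

theorem exk_surj (m : ℕ) (h1 : 1 ≤ m) (h2 : m < exk (topk : Kp K)) :
    ∃ j : Kp K, exk j = m := by
  rw [exk_top] at h2
  by_cases h : m ≤ 4
  · exact ⟨Sum.inl ⟨m - 1, by omega⟩, by simp only [exk, Sum.elim_inl]; omega⟩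
  · exact ⟨Sum.inr ⟨m - 5, by omega⟩, by simp only [exk, Sum.elim_inr]; omega⟩

theorem sm_sub (s : Fin 3) (μ : Mask) : (sm s μ : Finset (Fin 3 × Kp K)) ⊆ sd s :=
  Finset.product_subset_product_right (Finset.subset_univ _)

theorem sd_disj {s t : Fin 3} (h : s ≠ t) : Disjoint (sd s : Finset (Fin 3 × Kp K)) (sd t) := by
  rw [Finset.disjoint_left]
  intro i h1 h2
  simp only [sd, Finset.mem_product, Finset.mem_singleton] at h1 h2
  exact h (h1.1.symm.trans h2.1)

theorem ms_sd (n : Fin 3 × Kp K → ℕ) (s : Fin 3) : ms n (sd s) = (side n s).M := by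
  simp only [ms, sd, Finset.sum_product, Finset.sum_singleton, Fintype.sum_sum_type,
    Fin.sum_univ_four, Side.M, side]

theorem wt_sd (n : Fin 3 × Kp K → ℕ) (s : Fin 3) : wt exi n (sd s) = (side n s).W := by
  simp only [wt, sd, Finset.sum_product, Finset.sum_singleton, Fintype.sum_sum_type,
    Fin.sum_univ_four, Side.W, side, exi, exk, Sum.elim_inl, Sum.elim_inr]
  norm_num

theorem ms_sm (n : Fin 3 × Kp K → ℕ) (s : Fin 3) (μ : Mask) :
    ms n (sm s μ) = (side n s).fm μ := by
  obtain ⟨b1, b2, b3, b4, b5⟩ := μ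
  simp only [ms, sm, Finset.sum_product, Finset.sum_singleton, Finset.sum_filter,
    Fintype.sum_sum_type, Fin.sum_univ_four, Side.fm, side, sel, Sum.elim_inl, Sum.elim_inr]
  cases b1 <;> cases b2 <;> cases b3 <;> cases b4 <;> cases b5 <;> simp

theorem wt_sm (n : Fin 3 × Kp K → ℕ) (s : Fin 3) (μ : Mask) :
    wt exi n (sm s μ) = (side n s).fw μ := by
  obtain ⟨b1, b2, b3, b4, b5⟩ := μ
  simp only [wt, sm, Finset.sum_product, Finset.sum_singleton, Finset.sum_filter,
    Fintype.sum_sum_type, Fin.sum_univ_four, Side.fw, side, sel, Sum.elim_inl, Sum.elim_inr,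
    exi, exk]
  cases b1 <;> cases b2 <;> cases b3 <;> cases b4 <;> cases b5 <;> simp <;> norm_num

theorem sm_dvd (s : Fin 3) (μ : Mask) (e : ℕ) (h : μ.ok e) :
    ∀ i ∈ (sm s μ : Finset (Fin 3 × Kp K)), e ∣ exi i := by
  rintro ⟨t, j⟩ hi
  have h1 : sel μ j = true := by
    simp only [sm, Finset.mem_product, Finset.mem_filter] at hi
    exact hi.2.2
  obtain ⟨c1, c2, c3, c4, c5⟩ := h
  rcases j with j | j
  · fin_cases j
    · exact c1 h1
    · exact c2 h1
    · exact c3 h1
    · exact c4 h1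
  · rw [c5 h1]; exact one_dvd _

theorem side_ok (n : Fin 3 × Kp K → ℕ) (s : Fin 3) : (side n s).Ok := by
  refine ⟨Nat.cast_nonneg _, Nat.cast_nonneg _, Nat.cast_nonneg _, Nat.cast_nonneg _,
    ?_, ?_⟩
  · simp only [side]; positivity
  simp only [side, Finset.mul_sum]
  refine Finset.sum_le_sum (fun j _ => mul_le_mul_of_nonneg_right ?_ (Nat.cast_nonneg _))
  exact_mod_cast Nat.le_add_left 5 j.val

theorem mon_sd {R : Type} [CommRing R] (s : Fin 3) (x : Fin 3 × Kp K → R) :
    mon exi (sd s) x = ∏ j, x (s, j) ^ exk j := by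
  simp only [mon, sd, Finset.prod_product, Finset.prod_singleton, exi]

theorem ms_sdiff {ι : Type} [DecidableEq ι] (n : ι → ℕ) {A I : Finset ι} (h : I ⊆ A) :
    ms n (A \ I) = ms n A - ms n I := by
  have : ms n (A \ I) + ms n I = ms n A := Finset.sum_sdiff h
  linarith

theorem ms_union {ι : Type} [DecidableEq ι] (n : ι → ℕ) (A B : Finset ι) :
    ms n (A ∪ B) ≤ ms n A + ms n B := by
  have h1 : ms n (A ∪ B) + ms n (A ∩ B) = ms n A + ms n B := Finset.sum_union_inter
  have := ms_nonneg n (A ∩ B)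
  linarith

end Pool.Agent.P.MP_dc323a_nt
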