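import Pool.Agent.P.MP_dc323a_nt.Basic

set_option autoImplicit false

namespace Pool.Agent.P.MP_dc323a_nt

open Finset

theorem succ_le_geom (t : ℝ) (ht : 1 < t) (i : ℕ) :
    ((i : ℝ) + 1) ≤ (1 + 1 / (t - 1)) * t ^ i := by
  have h1 : 1 + (i : ℝ) * (t - 1) ≤ (1 + (t - 1)) ^ i := one_add_mul_le_pow (by linarith) i
  have h2 : (1 + (t - 1)) = t := by ring
  rw [h2] at h1
  have h3 : 0 < t - 1 := by linarith
  have h4 : 0 < 1 / (t - 1) := by positivity
  have h5 : (1 + 1 / (t - 1)) * (1 + (i : ℝ) * (t - 1)) ≤ (1 + 1 / (t - 1)) * t ^ i :=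
    mul_le_mul_of_nonneg_left h1 (by linarith)
  have h6 : (1 + 1 / (t - 1)) * (1 + (i : ℝ) * (t - 1)) =
      1 + (i : ℝ) * (t - 1) + 1 / (t - 1) + i := by field_simp; ring
  have h7 : 0 ≤ (i : ℝ) * (t - 1) := by positivity
  linarith

namespace Setup

variable {R : Type} [CommRing R] [IsDomain R] [IsPrincipalIdealRing R] (S : Setup R)

theorem mult (Q : R → ℝ → Prop) (A : ℝ) (hA : 1 ≤ A)
    (mono : ∀ n L L', L ≤ L' → Q n L → Q n L')
    (hu : ∀ u, IsUnit u → Q u 1)
    (hp : ∀ (p : R) (i : ℕ), Prime p → 1 ≤ i → Q (p ^ i) (A * ((i : ℝ) + 1)))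
    (hc : ∀ x y L L', 0 ≤ L → 0 ≤ L' → IsCoprime x y → Q x L → Q y L' → Q (x * y) (L * L'))
    (ε : ℝ) (hε : 0 < ε) : ∃ C : ℝ, 1 ≤ C ∧ ∀ n : R, n ≠ 0 → Q n (C * S.N n ^ ε) := by
  classical
  set t : ℝ := (2 : ℝ) ^ (ε / 2) with ht
  have ht1 : 1 < t := Real.one_lt_rpow (by norm_num) (by linarith)
  set B : ℝ := A * (1 + 1 / (t - 1)) with hB
  have hB1 : 1 ≤ B := by
    have : 0 < 1 / (t - 1) := by apply one_div_pos.2; linarith
    nlinarith
  set Y0 : ℝ := (2 * A) ^ (1 / ε) with hY0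
  set P : Finset R := (S.ball Y0).filter Prime with hP
  let s : R → ℕ := fun n => (P.filter (fun p => p ∣ n)).card
  have key : ∀ n : R, n ≠ 0 → Q n (B ^ s n * S.N n ^ ε) := by
    intro n
    refine UniqueFactorizationMonoid.induction_on_coprime
      (P := fun n => n ≠ 0 → Q n (B ^ s n * S.N n ^ ε)) n ?_ ?_ ?_ ?_
    · intro h; exact absurd rfl h
    · intro u hu' h0
      refine mono _ _ _ ?_ (hu u hu')
      have h1 : 1 ≤ S.N u ^ ε := Real.one_le_rpow (S.one_le_N h0) hε.le
      have h2 : 1 ≤ B ^ s u := one_le_pow₀ hB1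
      nlinarith
    · intro p i hpr h0
      rcases Nat.eq_zero_or_pos i with rfl | hi
      · refine mono _ _ _ ?_ (hu _ (by simp))
        have h1 : 1 ≤ S.N (p ^ 0) ^ ε := Real.one_le_rpow (S.one_le_N h0) hε.le
        have h2 : 1 ≤ B ^ s (p ^ 0) := one_le_pow₀ hB1
        nlinarith
      · refine mono _ _ _ ?_ (hp p i hpr hi)
        have hNp : 0 ≤ S.N p := S.N_nonneg p
        have hrw : S.N (p ^ i) ^ ε = (S.N p ^ ε) ^ i := by
          rw [S.N_pow, ← Real.rpow_natCast, ← Real.rpow_mul hNp, mul_comm, Real.rpow_mul hNp,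
            Real.rpow_natCast]
        rw [hrw]
        by_cases hsmall : S.N p ≤ Y0
        · have hmem : p ∈ P.filter (fun q => q ∣ p ^ i) := by
            refine Finset.mem_filter.2 ⟨Finset.mem_filter.2 ⟨S.mem_ball.2 hsmall, hpr⟩, ?_⟩
            exact dvd_pow_self p (Nat.pos_iff_ne_zero.1 hi)
          have hs : 1 ≤ s (p ^ i) := Finset.card_pos.2 ⟨p, hmem⟩
          have h2 : B ≤ B ^ s (p ^ i) := by
            simpa using pow_le_pow_right₀ hB1 hs
          have h3 : t ≤ S.N p ^ ε := by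
            have h4 : (2 : ℝ) ≤ S.N p ^ 2 := S.two_le p hpr.ne_zero hpr.not_isUnit
            have h5 : (2 : ℝ) ^ (ε / 2) ≤ (S.N p ^ 2) ^ (ε / 2) :=
              Real.rpow_le_rpow (by norm_num) h4 (by linarith)
            have h6 : (S.N p ^ 2) ^ (ε / 2) = S.N p ^ ε := by
              rw [← Real.rpow_natCast, ← Real.rpow_mul hNp]
              congr 1; push_cast; ring
            rw [h6] at h5; exact h5
          have h7 : t ^ i ≤ (S.N p ^ ε) ^ i := pow_le_pow_left₀ (by linarith) h3 i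
          have h8 := succ_le_geom t ht1 i
          have h9 : 0 ≤ (S.N p ^ ε) ^ i := by positivity
          calc A * ((i : ℝ) + 1) ≤ A * ((1 + 1 / (t - 1)) * t ^ i) :=
                mul_le_mul_of_nonneg_left h8 (by linarith)
            _ = B * t ^ i := by rw [hB]; ring
            _ ≤ B * (S.N p ^ ε) ^ i := mul_le_mul_of_nonneg_left h7 (by linarith)
            _ ≤ B ^ s (p ^ i) * (S.N p ^ ε) ^ i := mul_le_mul_of_nonneg_right h2 h9
        · have h3 : 2 * A ≤ S.N p ^ ε := by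
            have h4 : Y0 ^ ε ≤ S.N p ^ ε :=
              Real.rpow_le_rpow (by positivity) (not_le.1 hsmall).le hε.le
            have h5 : Y0 ^ ε = 2 * A := by
              rw [hY0, ← Real.rpow_mul (by linarith), one_div_mul_cancel hε.ne', Real.rpow_one]
            rw [h5] at h4; exact h4
          have h7 : (2 * A) ^ i ≤ (S.N p ^ ε) ^ i := pow_le_pow_left₀ (by linarith) h3 i
          have h8 : ((i : ℝ) + 1) ≤ 2 ^ i := by
            have := Nat.lt_two_pow_self (n := i)
            exact_mod_cast this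
          have h9 : A ≤ A ^ i := by simpa using pow_le_pow_right₀ hA hi
          have h2 : 1 ≤ B ^ s (p ^ i) := one_le_pow₀ hB1
          have h10 : 0 ≤ (S.N p ^ ε) ^ i := by positivity
          calc A * ((i : ℝ) + 1) ≤ A ^ i * 2 ^ i :=
                mul_le_mul h9 h8 (by positivity) (by positivity)
            _ = (2 * A) ^ i := by rw [mul_pow]; ring
            _ ≤ (S.N p ^ ε) ^ i := h7
            _ ≤ B ^ s (p ^ i) * (S.N p ^ ε) ^ i := le_mul_of_one_le_left h10 h2
    · intro x y hxy hx hy h0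
      have hx0 : x ≠ 0 := left_ne_zero_of_mul h0
      have hy0 : y ≠ 0 := right_ne_zero_of_mul h0
      have hco : IsCoprime x y := hxy.isCoprime
      have hBx : 0 ≤ B ^ s x * S.N x ^ ε :=
        mul_nonneg (by positivity) (Real.rpow_nonneg (S.N_nonneg _) _)
      have hBy : 0 ≤ B ^ s y * S.N y ^ ε :=
        mul_nonneg (by positivity) (Real.rpow_nonneg (S.N_nonneg _) _)
      refine mono _ _ _ ?_ (hc x y _ _ hBx hBy hco (hx hx0) (hy hy0))
      have hs : s x + s y ≤ s (x * y) := by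
        have hdisj : Disjoint (P.filter (fun p => p ∣ x)) (P.filter (fun p => p ∣ y)) := by
          rw [Finset.disjoint_left]
          intro p h1 h2
          have h3 := Finset.mem_filter.1 h1
          have h4 := Finset.mem_filter.1 h2
          exact (Finset.mem_filter.1 h3.1).2.not_isUnit (hxy h3.2 h4.2)
        simp only [s]
        rw [← Finset.card_union_of_disjoint hdisj]
        apply Finset.card_le_card
        intro p hp'
        rcases Finset.mem_union.1 hp' with h | h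
        · have := Finset.mem_filter.1 h
          exact Finset.mem_filter.2 ⟨this.1, this.2.mul_right _⟩
        · have := Finset.mem_filter.1 h
          exact Finset.mem_filter.2 ⟨this.1, this.2.mul_left _⟩
      have h1 : B ^ (s x + s y) ≤ B ^ s (x * y) := pow_le_pow_right₀ hB1 hs
      rw [S.N_mul, Real.mul_rpow (S.N_nonneg _) (S.N_nonneg _)]
      have h2 : 0 ≤ S.N x ^ ε * S.N y ^ ε :=
        mul_nonneg (Real.rpow_nonneg (S.N_nonneg _) _) (Real.rpow_nonneg (S.N_nonneg _) _)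
      calc B ^ s x * S.N x ^ ε * (B ^ s y * S.N y ^ ε)
          = B ^ (s x + s y) * (S.N x ^ ε * S.N y ^ ε) := by rw [pow_add]; ring
        _ ≤ _ := mul_le_mul_of_nonneg_right h1 h2
  refine ⟨B ^ P.card, one_le_pow₀ hB1, fun n hn => mono _ _ _ ?_ (key n hn)⟩
  apply mul_le_mul_of_nonneg_right _ (Real.rpow_nonneg (S.N_nonneg _) _)
  exact pow_le_pow_right₀ hB1 (Finset.card_filter_le _ _)

omit [IsPrincipalIdealRing R] in
theorem card_assoc (T : Finset R) (y : R) (h : ∀ x ∈ T, Associated x y) :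
    (T.card : ℝ) ≤ S.C0 * 2 ^ S.d := by
  classical
  have hsub : T ⊆ (S.ball 1).image (fun u => y * u) := by
    intro x hx
    obtain ⟨u, hu⟩ := (h x hx).symm
    exact Finset.mem_image.2 ⟨u, S.mem_ball.2 (S.N_unit u.isUnit), hu⟩
  have h1 : T.card ≤ (S.ball 1).card := (Finset.card_le_card hsub).trans Finset.card_image_le
  have h2 := S.card_ball' 1 zero_le_one
  have h3 : (T.card : ℝ) ≤ (S.ball 1).card := by exact_mod_cast h1
  norm_num at h2
  linarith

theorem divisor_bound (ε : ℝ) (hε : 0 < ε) : ∃ C : ℝ, 1 ≤ C ∧ ∀ n : R, n ≠ 0 →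
    ∀ T : Finset R, (∀ x ∈ T, x ∣ n) → (T.card : ℝ) ≤ C * S.N n ^ ε := by
  classical
  obtain ⟨C, hC, h⟩ := S.mult
    (fun n L => ∃ D : Finset R, (D.card : ℝ) ≤ L ∧ ∀ x, x ∣ n → ∃ y ∈ D, Associated x y) 1 le_rfl
    (by
      rintro n L L' hL ⟨D, hD, h⟩
      exact ⟨D, hD.trans hL, h⟩)
    (by
      intro u hu
      refine ⟨{1}, by simp, fun x hx => ⟨1, by simp, ?_⟩⟩
      exact associated_one_iff_isUnit.2 (isUnit_of_dvd_unit hx hu))
    (by
      intro p i hp _
      refine ⟨(Finset.range (i + 1)).image (fun j => p ^ j), ?_, fun x hx => ?_⟩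
      · have : ((Finset.range (i + 1)).image (fun j => p ^ j)).card ≤ i + 1 := by
          simpa using Finset.card_image_le (s := Finset.range (i + 1)) (f := fun j => p ^ j)
        have h2 : (((Finset.range (i + 1)).image (fun j => p ^ j)).card : ℝ) ≤ (i : ℝ) + 1 := by
          exact_mod_cast this
        linarith
      · obtain ⟨j, hj, hx⟩ := (dvd_prime_pow hp i).1 hx
        exact ⟨p ^ j, Finset.mem_image.2 ⟨j, Finset.mem_range.2 (by omega), rfl⟩, hx⟩)
    (by
      rintro x y L L' hL hL' _ ⟨D, hD, h⟩ ⟨D', hD', h'⟩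
      refine ⟨(D ×ˢ D').image (fun q => q.1 * q.2), ?_, fun z hz => ?_⟩
      · have : ((D ×ˢ D').image (fun q => q.1 * q.2)).card ≤ D.card * D'.card := by
          simpa using Finset.card_image_le (s := D ×ˢ D') (f := fun q => q.1 * q.2)
        have h2 : (((D ×ˢ D').image (fun q => q.1 * q.2)).card : ℝ) ≤ (D.card : ℝ) * D'.card := by
          exact_mod_cast this
        exact h2.trans (mul_le_mul hD hD' (by positivity) hL)
      · obtain ⟨a, b, ha, hb, rfl⟩ := exists_dvd_and_dvd_of_dvd_mul hz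
        obtain ⟨a', ha', haa⟩ := h a ha
        obtain ⟨b', hb', hbb⟩ := h' b hb
        exact ⟨a' * b', Finset.mem_image.2 ⟨(a', b'), Finset.mem_product.2 ⟨ha', hb'⟩, rfl⟩,
          haa.mul_mul hbb⟩)
    ε hε
  have hK : 1 ≤ S.C0 * 2 ^ S.d := by
    have := S.C0_ge
    have h2 : (1 : ℝ) ≤ 2 ^ S.d := one_le_pow₀ (by norm_num)
    nlinarith
  refine ⟨C * (S.C0 * 2 ^ S.d), by nlinarith, fun n hn T hT => ?_⟩
  obtain ⟨D, hD, hcov⟩ := h n hn
  have := card_le_of_cover T D (fun x y => Associated x y) (S.C0 * 2 ^ S.d)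
    (fun x hx => hcov x (hT x hx))
    (fun y _ => S.card_assoc _ y (fun x hx => (Finset.mem_filter.1 hx).2))
  calc (T.card : ℝ) ≤ D.card * (S.C0 * 2 ^ S.d) := this
    _ ≤ (C * S.N n ^ ε) * (S.C0 * 2 ^ S.d) := mul_le_mul_of_nonneg_right hD (by linarith)
    _ = _ := by ring

end Setup

end Pool.Agent.P.MP_dc323a_nt
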