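import Pool.Agent.P.MP_dc323a_nt.Count

set_option autoImplicit false

namespace Pool.Agent.P.MP_dc323a_nt

open Finset

theorem cell_mem {x c ρ δ : ℝ} (hδ : 0 < δ) (h : |x - c| ≤ ρ) :
    ⌊(x - c + ρ) / δ⌋₊ ∈ Finset.range (⌊2 * ρ / δ⌋₊ + 1) := by
  rw [Finset.mem_range, Nat.lt_succ_iff]
  apply Nat.floor_le_floor
  apply div_le_div_of_nonneg_right _ hδ.le
  linarith [(abs_le.1 h).2]

theorem cell_close {x y c ρ δ : ℝ} (hδ : 0 < δ) (hx : |x - c| ≤ ρ) (hy : |y - c| ≤ ρ)
    (h : ⌊(x - c + ρ) / δ⌋₊ = ⌊(y - c + ρ) / δ⌋₊) : |x - y| < δ := by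
  have a1 := Nat.floor_le (show 0 ≤ (x - c + ρ) / δ from
    div_nonneg (by linarith [(abs_le.1 hx).1]) hδ.le)
  have a2 := Nat.floor_le (show 0 ≤ (y - c + ρ) / δ from
    div_nonneg (by linarith [(abs_le.1 hy).1]) hδ.le)
  have a3 := Nat.lt_floor_add_one ((x - c + ρ) / δ)
  have a4 := Nat.lt_floor_add_one ((y - c + ρ) / δ)
  rw [h] at a1 a3
  rw [le_div_iff₀ hδ] at a1 a2
  rw [div_lt_iff₀ hδ] at a3 a4
  rw [abs_lt]
  constructor <;> linarith

theorem cell_card {ρ δ : ℝ} (hρ : 0 ≤ ρ) (hδ : 0 < δ) :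
    ((Finset.range (⌊2 * ρ / δ⌋₊ + 1)).card : ℝ) ≤ 2 * ρ / δ + 1 := by
  rw [Finset.card_range]
  push_cast
  linarith [Nat.floor_le (show 0 ≤ 2 * ρ / δ by positivity)]

theorem re_le {z z0 : ℂ} {ρ : ℝ} (h : ‖z - z0‖ ≤ ρ) : |z.re - z0.re| ≤ ρ := by
  rw [← Complex.sub_re]; exact (Complex.abs_re_le_norm _).trans h

theorem im_le {z z0 : ℂ} {ρ : ℝ} (h : ‖z - z0‖ ≤ ρ) : |z.im - z0.im| ≤ ρ := by
  rw [← Complex.sub_im]; exact (Complex.abs_im_le_norm _).trans h

/-- The rational integers. -/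
noncomputable def setupZ : Setup ℤ where
  φ := Int.castRingHom ℂ
  d := 1
  d_pos := le_rfl
  one_le := fun x hx => by
    simp only [eq_intCast, Complex.norm_intCast]
    exact_mod_cast Int.one_le_abs hx
  two_le := fun x hx hu => by
    simp only [eq_intCast, Complex.norm_intCast, sq_abs]
    rw [Int.isUnit_iff] at hu
    have : 2 ≤ x ^ 2 := by
      rcases (by omega : x ≤ -2 ∨ 2 ≤ x) with h | h <;> nlinarith
    exact_mod_cast this
  rep := fun γ hγ x => by
    refine ⟨x % γ, ?_, ?_⟩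
    · exact Int.dvd_self_sub_emod
    · simp only [eq_intCast, Complex.norm_intCast]
      have h1 := Int.emod_nonneg x hγ
      have h2 := Int.emod_lt_abs x hγ
      have : |x % γ| ≤ |γ| := by rw [abs_of_nonneg h1]; exact h2.le
      exact_mod_cast this
  C0 := 2
  C0_ge := by norm_num
  pack := fun T z0 ρ δ hρ hδ h1 h2 h3 => by
    have him : ∀ z ∈ T, z.im = 0 := by
      intro z hz
      obtain ⟨u, v, rfl⟩ := h1 z hz
      simp only [eq_intCast]
      rw [← Complex.ofReal_intCast, ← Complex.ofReal_intCast, ← Complex.ofReal_div,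
        Complex.ofReal_im]
    have h4 : T.card ≤ (Finset.range (⌊2 * ρ / δ⌋₊ + 1)).card := by
      apply Finset.card_le_card_of_injOn (fun z => ⌊(z.re - z0.re + ρ) / δ⌋₊)
      · intro z hz
        exact cell_mem hδ (re_le (h2 z hz))
      · intro z hz w hw h
        by_contra hne
        have a1 := cell_close hδ (re_le (h2 z hz)) (re_le (h2 w hw)) h
        have a2 := h3 z hz w hw hne
        have a3 := Complex.norm_le_abs_re_add_abs_im (z - w)
        rw [Complex.sub_re, Complex.sub_im, him z hz, him w hw, sub_zero, abs_zero] at a3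
        linarith
    have h5 : (T.card : ℝ) ≤ _ := le_trans (by exact_mod_cast h4) (cell_card hρ hδ)
    rw [pow_one, mul_add, ← mul_div_assoc]
    linarith

theorem gnorm (x : GaussianInt) : ‖GaussianInt.toComplex x‖ ^ 2 = (x.norm : ℝ) := by
  rw [← Complex.normSq_eq_norm_sq, GaussianInt.intCast_real_norm]

/-- The Gaussian integers. -/
noncomputable def setupG : Setup GaussianInt where
  φ := GaussianInt.toComplex
  d := 2
  d_pos := by norm_num
  one_le := fun x hx => by
    have h1 : (1 : ℝ) ≤ x.norm := by exact_mod_cast GaussianInt.norm_pos.2 hx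
    rw [← gnorm] at h1
    nlinarith [norm_nonneg (GaussianInt.toComplex x)]
  two_le := fun x hx hu => by
    rw [gnorm]
    have h1 := GaussianInt.norm_pos.2 hx
    have h2 : x.norm ≠ 1 := fun h => hu ((Zsqrtd.norm_eq_one_iff' (by norm_num) x).1 h)
    have : 2 ≤ x.norm := by omega
    exact_mod_cast this
  rep := fun γ hγ x => by
    refine ⟨x % γ, ⟨x / γ, ?_⟩, ?_⟩
    · rw [GaussianInt.mod_def]; ring
    · have h1 : ((x % γ).norm : ℝ) ≤ γ.norm := by
        exact_mod_cast (GaussianInt.norm_mod_lt x hγ).le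
      rw [← gnorm, ← gnorm] at h1
      exact le_of_sq_le_sq h1 (norm_nonneg _)
  C0 := 16
  C0_ge := by norm_num
  pack := fun T z0 ρ δ hρ hδ _ h2 h3 => by
    have hδ2 : 0 < δ / 2 := by positivity
    have h4 : T.card ≤ (Finset.range (⌊2 * ρ / (δ / 2)⌋₊ + 1) ×ˢ
        Finset.range (⌊2 * ρ / (δ / 2)⌋₊ + 1)).card := by
      apply Finset.card_le_card_of_injOn
        (fun z => (⌊(z.re - z0.re + ρ) / (δ / 2)⌋₊, ⌊(z.im - z0.im + ρ) / (δ / 2)⌋₊))
      · intro z hz
        exact Finset.mem_coe.2 (Finset.mem_product.2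
          ⟨cell_mem hδ2 (re_le (h2 z hz)), cell_mem hδ2 (im_le (h2 z hz))⟩)
      · intro z hz w hw h
        by_contra hne
        have a1 := cell_close hδ2 (re_le (h2 z hz)) (re_le (h2 w hw)) (congrArg Prod.fst h)
        have a4 := cell_close hδ2 (im_le (h2 z hz)) (im_le (h2 w hw)) (congrArg Prod.snd h)
        have a2 := h3 z hz w hw hne
        have a3 := Complex.norm_le_abs_re_add_abs_im (z - w)
        rw [Complex.sub_re, Complex.sub_im] at a3
        linarith
    rw [Finset.card_product] at h4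
    have h5 := cell_card hρ hδ2
    have h6 : 2 * ρ / (δ / 2) + 1 ≤ 4 * (1 + ρ / δ) := by
      have : 2 * ρ / (δ / 2) = 4 * (ρ / δ) := by field_simp; ring
      rw [this]; linarith
    have h7 := h5.trans h6
    calc (T.card : ℝ) ≤ _ := Nat.cast_le.2 h4
      _ ≤ (4 * (1 + ρ / δ)) * (4 * (1 + ρ / δ)) := by
          rw [Nat.cast_mul]
          exact mul_le_mul h7 h7 (by positivity) (by positivity)
      _ = _ := by ring

end Pool.Agent.P.MP_dc323a_nt
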