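import Pool.Agent.P.MP_dc323a_nt.Roots

set_option autoImplicit false

namespace Pool.Agent.P.MP_dc323a_nt

open Finset

theorem root_close (e : ℕ) (he : 1 ≤ e) : ∃ c : ℝ, 0 < c ∧ ∃ Z : Finset ℂ, ∀ z w : ℂ,
    ∃ ζ ∈ Z, ‖z - ζ * w‖ * (c * ‖w‖) ^ (e - 1) ≤ ‖z ^ e - w ^ e‖ := by
  classical
  have hprim := Complex.isPrimitiveRoot_exp e (by omega)
  set Z := Polynomial.nthRootsFinset e (1 : ℂ) with hZ
  have hcard : Z.card = e := hprim.card_nthRootsFinset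
  have hne : Z.Nonempty := Finset.card_pos.1 (by omega)
  obtain ⟨s, hs, hsep⟩ : ∃ s : ℝ, 0 < s ∧ ∀ a ∈ Z, ∀ b ∈ Z, a ≠ b → s ≤ ‖a - b‖ := by
    rcases (Z.offDiag).eq_empty_or_nonempty with h | h
    · refine ⟨1, one_pos, fun a ha b hb hab => ?_⟩
      have : (a, b) ∈ Z.offDiag := Finset.mem_offDiag.2 ⟨ha, hb, hab⟩
      rw [h] at this; simp at this
    · obtain ⟨q, hq, hmin⟩ := Finset.exists_min_image Z.offDiag (fun q => ‖q.1 - q.2‖) h
      refine ⟨‖q.1 - q.2‖, norm_pos_iff.2 (sub_ne_zero.2 (Finset.mem_offDiag.1 hq).2.2),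
        fun a ha b hb hab => hmin (a, b) (Finset.mem_offDiag.2 ⟨ha, hb, hab⟩)⟩
  refine ⟨s / 2, by linarith, Z, fun z w => ?_⟩
  obtain ⟨ζ, hζ, hmin⟩ := Finset.exists_min_image Z (fun ζ => ‖z - ζ * w‖) hne
  refine ⟨ζ, hζ, ?_⟩
  rw [hprim.pow_sub_pow_eq_prod_sub_mul z w (by omega), norm_prod, ← hZ,
    ← Finset.mul_prod_erase Z _ hζ]
  apply mul_le_mul_of_nonneg_left _ (norm_nonneg _)
  have hc : (Z.erase ζ).card = e - 1 := by rw [Finset.card_erase_of_mem hζ, hcard]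
  rw [← hc, ← Finset.prod_const]
  apply Finset.prod_le_prod
  · intro _ _; positivity
  · intro η hη
    have h1 := hsep η (Finset.mem_of_mem_erase hη) ζ hζ (Finset.ne_of_mem_erase hη)
    have h2 := hmin η (Finset.mem_of_mem_erase hη)
    have h3 : ‖(η - ζ) * w‖ ≤ ‖z - ζ * w‖ + ‖z - η * w‖ := by
      have : (η - ζ) * w = (z - ζ * w) - (z - η * w) := by ring
      rw [this]; exact norm_sub_le _ _
    rw [norm_mul] at h3
    have h4 : s * ‖w‖ ≤ ‖η - ζ‖ * ‖w‖ := mul_le_mul_of_nonneg_right h1 (norm_nonneg _)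
    linarith

namespace Setup

variable {R : Type} [CommRing R] [IsDomain R] [IsPrincipalIdealRing R] (S : Setup R)

omit [IsPrincipalIdealRing R] in
theorem ratio_fiber (P : Finset (R × R)) (b : ℂ) (h0 : ∀ q ∈ P, q.2 ≠ 0)
    (hco : ∀ q ∈ P, IsCoprime q.1 q.2) (hb : ∀ q ∈ P, S.φ q.1 / S.φ q.2 = b) :
    (P.card : ℝ) ≤ S.C0 * 2 ^ S.d := by
  classical
  rcases P.eq_empty_or_nonempty with rfl | ⟨q1, hq1⟩
  · have := S.C0_pos
    simp only [Finset.card_empty, Nat.cast_zero]; positivity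
  have hcross : ∀ q ∈ P, ∀ q' ∈ P, q.1 * q'.2 = q'.1 * q.2 := by
    intro q hq q' hq'
    apply S.φ_inj
    have h1 := (hb q hq).trans (hb q' hq').symm
    rw [div_eq_div_iff (S.φ_ne_zero (h0 q hq)) (S.φ_ne_zero (h0 q' hq'))] at h1
    simpa using h1
  have hdvd : ∀ q ∈ P, ∀ q' ∈ P, q.2 ∣ q'.2 := by
    intro q hq q' hq'
    apply (hco q hq).symm.dvd_of_dvd_mul_left
    rw [hcross q hq q' hq']; exact dvd_mul_left _ _
  have hinj : Set.InjOn (fun q : R × R => q.2) P := by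
    intro q hq q' hq' h
    have h2 : q.2 = q'.2 := h
    have h1 := hcross q hq q' hq'
    rw [← h2] at h1
    exact Prod.ext (mul_right_cancel₀ (h0 q hq) h1) h2
  rw [← Finset.card_image_of_injOn hinj]
  apply S.card_assoc _ q1.2
  intro x hx
  obtain ⟨q, hq, rfl⟩ := Finset.mem_image.1 hx
  exact associated_of_dvd_dvd (hdvd q hq q1 hq1) (hdvd q1 hq1 q hq)

theorem pair_bound (e : ℕ) (he : 1 ≤ e) (ε : ℝ) (hε : 0 < ε) : ∃ C : ℝ, 1 ≤ C ∧
    ∀ α β γ : R, α ≠ 0 → γ ≠ 0 → IsCoprime α γ → IsCoprime β γ →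
    ∀ U0 V0 V1 T : ℝ, 0 < U0 → 0 < V0 → 0 < V1 → 0 ≤ T → ∀ P : Finset (R × R),
      (∀ q ∈ P, IsCoprime q.1 q.2 ∧ IsCoprime q.2 γ ∧ γ ∣ α * q.1 ^ e + β * q.2 ^ e ∧
        U0 ≤ S.N q.1 ∧ V0 ≤ S.N q.2 ∧ S.N q.2 ≤ V1 ∧ S.N (α * q.1 ^ e + β * q.2 ^ e) ≤ T) →
      (P.card : ℝ) ≤ C * S.N γ ^ ε *
        (1 + C * (T * V1 ^ (e + 1) / (S.N α * V0 ^ e * U0 ^ (e - 1) * S.N γ))) ^ S.d := by
  classical
  obtain ⟨c, hc, Z, hZ⟩ := root_close e he
  obtain ⟨C1, hC1, hcov⟩ := S.root_cover e he ε hε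
  have he' : (0 : ℝ) < e := by exact_mod_cast he
  have hC0 := S.C0_pos
  set K1 : ℝ := C1 * (Z.card * (S.C0 * (S.C0 * 2 ^ S.d))) with hK1
  set K2 : ℝ := 2 * e / c ^ (e - 1) with hK2
  have hK1n : 0 ≤ K1 := by positivity
  have hK2n : 0 ≤ K2 := by positivity
  refine ⟨1 + K1 + K2, by linarith, ?_⟩
  intro α β γ hα hγ hαγ hβγ U0 V0 V1 T hU0 hV0 hV1 hT P hP
  have hNγ := S.N_pos hγ
  have hNα := S.N_pos hα
  obtain ⟨a', b', hab⟩ := hαγ
  have ht : IsCoprime (-β * a') γ :=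
    IsCoprime.mul_left hβγ.neg_left ⟨α, b', by rw [← hab]; ring⟩
  obtain ⟨D, hD, hDc⟩ := hcov γ hγ _ ht
  have hinv : ∀ q ∈ P, ∃ v k : R, q.2 * v = 1 + k * γ := by
    intro q hq
    obtain ⟨v, k, h⟩ := (hP q hq).2.1
    exact ⟨v, -k, by rw [← h]; ring⟩
  choose! v k hvk using hinv
  have hq2 : ∀ q ∈ P, q.2 ≠ 0 := fun q hq =>
    S.ne_zero_of_N_pos (lt_of_lt_of_le hV0 (hP q hq).2.2.2.2.1)
  let z : R × R → ℂ := fun q => S.φ q.1 / S.φ q.2
  set Q : ℝ := T * V1 ^ (e + 1) / (S.N α * V0 ^ e * U0 ^ (e - 1) * S.N γ) with hQ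
  have hQn : 0 ≤ Q := by positivity
  set ρ : ℝ := 2 * T / (S.N α * V0 ^ e) / (c * (U0 / V1)) ^ (e - 1) with hρ
  set δ : ℝ := S.N γ / e / V1 ^ 2 with hδ
  have hρn : 0 ≤ ρ := by positivity
  have hδp : 0 < δ := by positivity
  have hρδ : ρ / δ = K2 * Q := by
    obtain ⟨n, rfl⟩ : ∃ n, e = n + 1 := ⟨e - 1, by omega⟩
    simp only [hρ, hδ, hK2, hQ, Nat.add_sub_cancel, mul_pow, div_pow]
    field_simp
    ring
  -- membership in the cover
  have h1 : ∀ q ∈ P, ∃ y ∈ D, γ ∣ (e : R) * (q.1 * v q - y) := by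
    intro q hq
    apply hDc
    obtain ⟨m, hm⟩ := (hP q hq).2.2.1
    have h2 : γ ∣ (q.2 * v q) ^ e - 1 := by
      have := sub_dvd_pow_sub_pow (q.2 * v q) 1 e
      rw [one_pow] at this
      refine Dvd.dvd.trans ⟨k q, ?_⟩ this
      rw [hvk q hq]; ring
    obtain ⟨l, hl⟩ := h2
    refine ⟨a' * m * v q ^ e - β * a' * l + b' * (q.1 * v q) ^ e, ?_⟩
    rw [mul_pow] at hl ⊢
    linear_combination a' * v q ^ e * hm - β * a' * hl - q.1 ^ e * v q ^ e * hab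
  -- the power of the ratio is almost constant
  have hpow : ∀ q ∈ P, ‖S.φ α * z q ^ e + S.φ β‖ ≤ T / V0 ^ e := by
    intro q hq
    have h2 : S.φ α * z q ^ e + S.φ β = S.φ (α * q.1 ^ e + β * q.2 ^ e) / S.φ q.2 ^ e := by
      have := S.φ_ne_zero (hq2 q hq)
      simp only [z, map_add, map_mul, map_pow, div_pow]
      field_simp
    rw [h2, norm_div, norm_pow]
    exact div_le_div₀ hT (hP q hq).2.2.2.2.2.2 (by positivity)
      (pow_le_pow_left₀ hV0.le (hP q hq).2.2.2.2.1 e)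
  have hdiff : ∀ q ∈ P, ∀ q' ∈ P, ‖z q ^ e - z q' ^ e‖ ≤ 2 * T / (S.N α * V0 ^ e) := by
    intro q hq q' hq'
    have h2 : ‖S.φ α * (z q ^ e - z q' ^ e)‖ ≤ T / V0 ^ e + T / V0 ^ e := by
      have : S.φ α * (z q ^ e - z q' ^ e) =
          (S.φ α * z q ^ e + S.φ β) - (S.φ α * z q' ^ e + S.φ β) := by ring
      rw [this]
      exact (norm_sub_le _ _).trans (add_le_add (hpow q hq) (hpow q' hq'))
    rw [norm_mul] at h2
    have h3 : 2 * T / (S.N α * V0 ^ e) = (T / V0 ^ e + T / V0 ^ e) / S.N α := by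
      field_simp; ring
    rw [h3, le_div_iff₀ hNα, mul_comm]
    exact h2
  have hzlow : ∀ q ∈ P, U0 / V1 ≤ ‖z q‖ := by
    intro q hq
    simp only [z, norm_div]
    exact div_le_div₀ (norm_nonneg _) (hP q hq).2.2.2.1 (S.N_pos (hq2 q hq))
      (hP q hq).2.2.2.2.2.1
  have hB : ∀ y ∈ D, ((P.filter (fun q => γ ∣ (e : R) * (q.1 * v q - y))).card : ℝ) ≤
      Z.card * ((S.C0 * (1 + K2 * Q) ^ S.d) * (S.C0 * 2 ^ S.d)) := by
    intro y _
    set Py := P.filter (fun q => γ ∣ (e : R) * (q.1 * v q - y)) with hPy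
    have hPyP : ∀ q ∈ Py, q ∈ P := fun q hq => (Finset.mem_filter.1 hq).1
    rcases Py.eq_empty_or_nonempty with h | ⟨q0, hq0⟩
    · rw [h]; simp only [Finset.card_empty, Nat.cast_zero]; positivity
    apply card_le_of_cover Py Z (fun q ζ => ‖z q - ζ * z q0‖ ≤ ρ)
    · intro q hq
      obtain ⟨ζ, hζ, h⟩ := hZ (z q) (z q0)
      refine ⟨ζ, hζ, ?_⟩
      rw [hρ, le_div_iff₀ (by positivity)]
      refine le_trans ?_ (h.trans (hdiff q (hPyP q hq) q0 (hPyP q0 hq0)))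
      apply mul_le_mul_of_nonneg_left _ (norm_nonneg _)
      apply pow_le_pow_left₀ (by positivity)
      exact mul_le_mul_of_nonneg_left (hzlow q0 (hPyP q0 hq0)) hc.le
    · intro ζ _
      set Pz := Py.filter (fun q => ‖z q - ζ * z q0‖ ≤ ρ) with hPz
      have hPzy : ∀ q ∈ Pz, q ∈ Py := fun q hq => (Finset.mem_filter.1 hq).1
      have h2 := card_le_of_fibers Pz (Pz.image z) z (S.C0 * 2 ^ S.d)
        (fun a ha => Finset.mem_image_of_mem _ ha) (fun b _ => by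
          apply S.ratio_fiber _ b
          · intro q hq; exact hq2 q (hPyP q (hPzy q (Finset.mem_filter.1 hq).1))
          · intro q hq; exact (hP q (hPyP q (hPzy q (Finset.mem_filter.1 hq).1))).1
          · intro q hq; exact (Finset.mem_filter.1 hq).2)
      refine h2.trans (mul_le_mul_of_nonneg_right ?_ (by positivity))
      rw [← hρδ]
      apply S.pack _ (ζ * z q0) ρ δ hρn hδp
      · intro w hw
        obtain ⟨q, _, rfl⟩ := Finset.mem_image.1 hw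
        exact ⟨q.1, q.2, rfl⟩
      · intro w hw
        obtain ⟨q, hq, rfl⟩ := Finset.mem_image.1 hw
        exact (Finset.mem_filter.1 hq).2
      · intro w hw w' hw' hww
        obtain ⟨q, hq, rfl⟩ := Finset.mem_image.1 hw
        obtain ⟨q', hq', rfl⟩ := Finset.mem_image.1 hw'
        have hqP := hPyP q (hPzy q hq)
        have hqP' := hPyP q' (hPzy q' hq')
        have hn := S.φ_ne_zero (hq2 q hqP)
        have hn' := S.φ_ne_zero (hq2 q' hqP')
        have h3 : z q - z q' = S.φ (q.1 * q'.2 - q'.1 * q.2) / (S.φ q.2 * S.φ q'.2) := by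
          simp only [z, map_sub, map_mul]
          field_simp
        have h4 : q.1 * q'.2 - q'.1 * q.2 ≠ 0 := by
          intro h
          rw [h, map_zero, zero_div] at h3
          exact hww (sub_eq_zero.1 h3)
        have h5 : γ ∣ (e : R) * (q.1 * q'.2 - q'.1 * q.2) := by
          obtain ⟨m, hm⟩ := (Finset.mem_filter.1 (hPzy q hq)).2
          obtain ⟨m', hm'⟩ := (Finset.mem_filter.1 (hPzy q' hq')).2
          refine ⟨(m - m') * q.2 * q'.2 - e * q.1 * q'.2 * k q + e * q'.1 * q.2 * k q', ?_⟩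
          linear_combination q.2 * q'.2 * hm - q.2 * q'.2 * hm' -
            (e : R) * q.1 * q'.2 * hvk q hqP + (e : R) * q'.1 * q.2 * hvk q' hqP'
        have h6 := S.sep_of_dvd he h4 h5
        rw [h3, norm_div, norm_mul, hδ]
        refine div_le_div₀ (norm_nonneg _) h6
          (mul_pos (S.N_pos (hq2 q hqP)) (S.N_pos (hq2 q' hqP'))) ?_
        rw [pow_two]
        exact mul_le_mul (hP q hqP).2.2.2.2.2.1 (hP q' hqP').2.2.2.2.2.1 (norm_nonneg _) hV1.le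
  have h7 := card_le_of_cover P D (fun q y => γ ∣ (e : R) * (q.1 * v q - y)) _ h1 hB
  have h8 : (1 + K2 * Q) ^ S.d ≤ (1 + (1 + K1 + K2) * Q) ^ S.d := by
    apply pow_le_pow_left₀ (by positivity)
    nlinarith
  have h9 : 0 ≤ S.N γ ^ ε := Real.rpow_nonneg hNγ.le _
  calc (P.card : ℝ) ≤ _ := h7
    _ ≤ (C1 * S.N γ ^ ε) * (Z.card * ((S.C0 * (1 + K2 * Q) ^ S.d) * (S.C0 * 2 ^ S.d))) :=
        mul_le_mul_of_nonneg_right hD (by positivity)
    _ = K1 * S.N γ ^ ε * (1 + K2 * Q) ^ S.d := by rw [hK1]; ring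
    _ ≤ _ := by
        apply mul_le_mul _ h8 (by positivity) (by positivity)
        apply mul_le_mul_of_nonneg_right _ h9
        linarith

end Setup

end Pool.Agent.P.MP_dc323a_nt
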