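import Pool.Agent.P.MP_dc323a_nt.Divisor

set_option autoImplicit false

namespace Pool.Agent.P.MP_dc323a_nt

open Finset

theorem pow_expand {R : Type*} [CommRing R] (y v : R) (n : ℕ) :
    ∃ T : R, (y + v) ^ (n + 1) = y ^ (n + 1) + ((n + 1 : ℕ) : R) * y ^ n * v + v ^ 2 * T := by
  induction n with
  | zero => exact ⟨0, by simp⟩
  | succ n ih =>
    obtain ⟨T, hT⟩ := ih
    refine ⟨((n + 1 : ℕ) : R) * y ^ n + T * y + v * T, ?_⟩
    rw [pow_succ (y + v) (n + 1), hT]
    push_cast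
    ring

namespace Setup

variable {R : Type} [CommRing R] [IsDomain R] [IsPrincipalIdealRing R] (S : Setup R)

include S in
theorem root_prime (e : ℕ) (he : 1 ≤ e) : ∃ A : ℝ, 1 ≤ A ∧ ∀ (p : R) (i : ℕ), Prime p → 1 ≤ i →
    ∀ t : R, IsCoprime t (p ^ i) → ∃ D : Finset R, (D.card : ℝ) ≤ A ∧
      ∀ x : R, p ^ i ∣ x ^ e - t → ∃ y ∈ D, p ^ i ∣ (e : R) * (x - y) := by
  classical
  have he0 : (e : R) ≠ 0 := S.natCast_ne_zero (by omega)
  have hee : (e : R) * e ≠ 0 := mul_ne_zero he0 he0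
  choose w hw1 hw2 using S.rep _ hee
  set W : Finset R := S.ball (S.N ((e : R) * e)) with hW
  refine ⟨e * W.card + 1, by have : (0 : ℝ) ≤ e * W.card := by positivity
                             linarith, ?_⟩
  intro p i hp hi t ht
  have hI : (Ideal.span {p}).IsPrime := (Ideal.span_singleton_prime hp.ne_zero).2 hp
  let mk := Ideal.Quotient.mk (Ideal.span {p})
  let κ : R → (R ⧸ Ideal.span {p}) × R := fun x => (mk x, w x)
  let Z : Finset ((R ⧸ Ideal.span {p}) × R) :=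
    (Polynomial.nthRoots e (mk t)).toFinset ×ˢ W
  let g : (R ⧸ Ideal.span {p}) × R → R := fun z =>
    if h : ∃ x, p ^ i ∣ x ^ e - t ∧ κ x = z then h.choose else 0
  have hpi : p ∣ p ^ i := dvd_pow_self p (by omega)
  refine ⟨Z.image g, ?_, fun x hx => ?_⟩
  · have h1 : (Z.image g).card ≤ e * W.card := by
      refine Finset.card_image_le.trans ?_
      rw [Finset.card_product]
      exact Nat.mul_le_mul_right _
        ((Multiset.toFinset_card_le _).trans (Polynomial.card_nthRoots _ _))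
    have h2 : ((Z.image g).card : ℝ) ≤ e * W.card := by exact_mod_cast h1
    linarith
  · have hxZ : κ x ∈ Z := by
      refine Finset.mem_product.2 ⟨?_, S.mem_ball.2 (hw2 x)⟩
      rw [Multiset.mem_toFinset, Polynomial.mem_nthRoots (by omega)]
      change mk x ^ e = mk t
      rw [← map_pow]
      exact Ideal.Quotient.eq.2 (Ideal.mem_span_singleton.2 (hpi.trans hx))
    have hex : ∃ x', p ^ i ∣ x' ^ e - t ∧ κ x' = κ x := ⟨x, hx, rfl⟩
    have hg : g (κ x) = hex.choose := dif_pos hex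
    obtain ⟨hy1, hy2⟩ := hex.choose_spec
    set y := hex.choose with hy
    refine ⟨y, Finset.mem_image.2 ⟨κ x, hxZ, hg⟩, ?_⟩
    have h1 : mk y = mk x := congrArg Prod.fst hy2
    have h2 : w y = w x := congrArg Prod.snd hy2
    have hpv : p ∣ x - y := Ideal.mem_span_singleton.1 (Ideal.Quotient.eq.1 h1.symm)
    have hev : (e : R) * e ∣ x - y := by
      have := dvd_sub (hw1 x) (hw1 y)
      rw [h2] at this
      have h3 : x - w x - (y - w x) = x - y := by ring
      rwa [h3] at this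
    have hepv : (e : R) * p ∣ x - y := by
      by_cases hpe : p ∣ (e : R)
      · exact (mul_dvd_mul_left _ hpe).trans hev
      · have hco : IsCoprime (e : R) p := ((Prime.coprime_iff_not_dvd hp).2 hpe).symm
        exact hco.mul_dvd ((dvd_mul_right _ _).trans hev) hpv
    obtain ⟨s, hs⟩ := hepv
    obtain ⟨n, rfl⟩ : ∃ n, e = n + 1 := ⟨e - 1, by omega⟩
    obtain ⟨T, hT⟩ := pow_expand y (x - y) n
    have hxy : y + (x - y) = x := by ring
    rw [hxy] at hT
    have hpy : ¬ p ∣ y := by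
      intro h
      have h3 : p ∣ y ^ (n + 1) := h.trans (dvd_pow_self y (by omega))
      have h4 : p ∣ t := by
        have := dvd_sub h3 (hpi.trans hy1)
        simpa using this
      exact hp.not_isUnit (ht.isUnit_of_dvd' h4 hpi)
    have hpu : ¬ p ∣ y ^ n + p * (s * T) := by
      intro h
      have : p ∣ y ^ n := (dvd_add_left (dvd_mul_right _ _)).1 h
      exact hpy (hp.dvd_of_dvd_pow this)
    have hco : IsCoprime (p ^ i) (y ^ n + p * (s * T)) :=
      ((Prime.coprime_iff_not_dvd hp).2 hpu).pow_left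
    apply hco.dvd_of_dvd_mul_right
    have h5 := dvd_sub hx hy1
    have h6 : x ^ (n + 1) - t - (y ^ (n + 1) - t) =
        ((n + 1 : ℕ) : R) * (x - y) * (y ^ n + p * (s * T)) := by
      rw [hT]
      have h7 : (x - y) ^ 2 = (x - y) * (((n + 1 : ℕ) : R) * p * s) := by rw [← hs]; ring
      rw [h7]; ring
    rwa [h6] at h5

theorem root_cover (e : ℕ) (he : 1 ≤ e) (ε : ℝ) (hε : 0 < ε) : ∃ C : ℝ, 1 ≤ C ∧
    ∀ γ : R, γ ≠ 0 → ∀ t : R, IsCoprime t γ → ∃ D : Finset R, (D.card : ℝ) ≤ C * S.N γ ^ ε ∧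
      ∀ x : R, γ ∣ x ^ e - t → ∃ y ∈ D, γ ∣ (e : R) * (x - y) := by
  classical
  obtain ⟨A, hA, hAp⟩ := S.root_prime e he
  exact S.mult
    (fun γ L => ∀ t : R, IsCoprime t γ → ∃ D : Finset R, (D.card : ℝ) ≤ L ∧
      ∀ x : R, γ ∣ x ^ e - t → ∃ y ∈ D, γ ∣ (e : R) * (x - y)) A hA
    (by
      intro n L L' hL h t ht
      obtain ⟨D, hD, h⟩ := h t ht
      exact ⟨D, hD.trans hL, h⟩)
    (by
      intro u hu t _
      exact ⟨{0}, by simp, fun x _ => ⟨0, by simp, hu.dvd⟩⟩)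
    (by
      intro p i hp hi t ht
      obtain ⟨D, hD, h⟩ := hAp p i hp hi t ht
      refine ⟨D, hD.trans ?_, h⟩
      have : (0 : ℝ) ≤ i := by positivity
      nlinarith)
    (by
      intro x y L L' hL hL' hco h h' t ht
      obtain ⟨D, hD, h⟩ := h t ht.of_mul_right_left
      obtain ⟨D', hD', h'⟩ := h' t ht.of_mul_right_right
      obtain ⟨a, b, hab⟩ := hco
      refine ⟨(D ×ˢ D').image (fun q => q.1 * (b * y) + q.2 * (a * x)), ?_, fun z hz => ?_⟩
      · have : ((D ×ˢ D').image (fun q => q.1 * (b * y) + q.2 * (a * x))).card ≤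
            D.card * D'.card := by
          simpa using Finset.card_image_le (s := D ×ˢ D')
            (f := fun q => q.1 * (b * y) + q.2 * (a * x))
        have h2 : (((D ×ˢ D').image (fun q => q.1 * (b * y) + q.2 * (a * x))).card : ℝ) ≤
            (D.card : ℝ) * D'.card := by exact_mod_cast this
        exact h2.trans (mul_le_mul hD hD' (by positivity) hL)
      · obtain ⟨y1, hy1, k1, hk1⟩ := h z ((dvd_mul_right _ _).trans hz)
        obtain ⟨y2, hy2, k2, hk2⟩ := h' z ((dvd_mul_left _ _).trans hz)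
        refine ⟨y1 * (b * y) + y2 * (a * x),
          Finset.mem_image.2 ⟨(y1, y2), Finset.mem_product.2 ⟨hy1, hy2⟩, rfl⟩, ?_⟩
        apply IsCoprime.mul_dvd ⟨a, b, hab⟩
        · refine ⟨k1 + (e : R) * a * (y1 - y2), ?_⟩
          linear_combination hk1 - (e : R) * y1 * hab
        · refine ⟨k2 + (e : R) * b * (y2 - y1), ?_⟩
          linear_combination hk2 - (e : R) * y2 * hab)
    ε hε

omit [IsPrincipalIdealRing R] in
theorem sep_of_dvd {e : ℕ} (he : 1 ≤ e) {γ v : R} (hv : v ≠ 0) (h : γ ∣ (e : R) * v) :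
    S.N γ / e ≤ S.N v := by
  have h1 := S.N_le_of_dvd (mul_ne_zero (S.natCast_ne_zero (by omega)) hv) h
  rw [S.N_mul, S.N_natCast] at h1
  have h2 : (0 : ℝ) < e := by exact_mod_cast he
  rw [div_le_iff₀ h2]; linarith

theorem cong_bound (e : ℕ) (he : 1 ≤ e) (ε : ℝ) (hε : 0 < ε) : ∃ C : ℝ, 1 ≤ C ∧
    ∀ γ : R, γ ≠ 0 → ∀ t : R, IsCoprime t γ → ∀ (Y : ℝ), 0 ≤ Y → ∀ T : Finset R,
      (∀ x ∈ T, S.N x ≤ Y) → (∀ x ∈ T, γ ∣ x ^ e - t) →
      (T.card : ℝ) ≤ C * S.N γ ^ ε * (1 + e * Y / S.N γ) ^ S.d := by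
  classical
  obtain ⟨C, hC, h⟩ := S.root_cover e he ε hε
  refine ⟨C * S.C0, by nlinarith [S.C0_ge], fun γ hγ t ht Y hY T hT1 hT2 => ?_⟩
  obtain ⟨D, hD, hcov⟩ := h γ hγ t ht
  have hN := S.N_pos hγ
  have he' : (0 : ℝ) < e := by exact_mod_cast he
  have := card_le_of_cover T D (fun x y => γ ∣ (e : R) * (x - y))
    (S.C0 * (1 + e * Y / S.N γ) ^ S.d) (fun x hx => hcov x (hT2 x hx)) (fun y _ => by
      have h1 := S.card_sep (T.filter (fun x => γ ∣ (e : R) * (x - y))) Y (S.N γ / e) hY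
        (by positivity) (fun a ha => hT1 a (Finset.mem_filter.1 ha).1) (fun a ha b hb hab => by
          apply S.sep_of_dvd he (sub_ne_zero.2 hab)
          have := dvd_sub (Finset.mem_filter.1 ha).2 (Finset.mem_filter.1 hb).2
          have h3 : (e : R) * (a - y) - (e : R) * (b - y) = (e : R) * (a - b) := by ring
          rwa [h3] at this)
      have h2 : Y / (S.N γ / e) = e * Y / S.N γ := by field_simp
      rwa [h2] at h1)
  have h3 : 0 ≤ S.C0 * (1 + e * Y / S.N γ) ^ S.d := by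
    have := S.C0_pos
    positivity
  calc (T.card : ℝ) ≤ _ := this
    _ ≤ (C * S.N γ ^ ε) * (S.C0 * (1 + e * Y / S.N γ) ^ S.d) := mul_le_mul_of_nonneg_right hD h3
    _ = _ := by ring

end Setup

end Pool.Agent.P.MP_dc323a_nt
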