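import Pool.Agent.P.MP_dc323a_nt.XTensor
import Pool.Agent.P.MP_dc323a_nt.XNum

set_option autoImplicit false

namespace Pool.Agent.P.MP_dc323a_nt.Ext

open Finset Filter

theorem sum_range_cast (M : ℕ) : ∑ u ∈ range M, (u : ℝ) = M * (M - 1) / 2 := by
  induction M with
  | zero => simp
  | succ M ih => rw [sum_range_succ, ih]; push_cast; ring

theorem cell_same (M : ℕ) : ∑ u ∈ range M, ∑ v ∈ range M, |(u : ℝ) - v| = (M ^ 3 - M) / 3 := by
  induction M with
  | zero => simp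
  | succ M ih =>
    have h1 : ∑ u ∈ range M, |(u : ℝ) - M| = M * (M + 1) / 2 := by
      rw [sum_congr rfl (g := fun u : ℕ => (M : ℝ) - u), sum_sub_distrib, sum_range_cast,
        sum_const, card_range, nsmul_eq_mul]
      · ring
      · intro u hu
        have : (u : ℝ) ≤ M := by exact_mod_cast (mem_range.1 hu).le
        rw [abs_of_nonpos (by linarith)]; ring
    have h2 : ∑ u ∈ range M, |(M : ℝ) - u| = M * (M + 1) / 2 := by
      rw [← h1]; exact sum_congr rfl fun u _ => abs_sub_comm _ _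
    simp only [sum_range_succ, sum_add_distrib, ih, h1, h2, sub_self, abs_zero]
    push_cast
    ring

theorem cell_lt (M A A' : ℕ) (h : A' < A) :
    ∑ u : Fin M, ∑ v : Fin M, |((M * A + u : ℕ) : ℝ) - (M * A' + v : ℕ)| =
      M ^ 3 * |(A : ℝ) - A'| := by
  have h' : (A' : ℝ) + 1 ≤ A := by exact_mod_cast h
  have h1 : ∀ u v : Fin M, |((M * A + u : ℕ) : ℝ) - (M * A' + v : ℕ)| =
      M * (A - A') + (u : ℕ) - (v : ℕ) := fun u v => by
    have a1 : ((v : ℕ) : ℝ) ≤ M := by exact_mod_cast v.2.le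
    have a2 : (0 : ℝ) ≤ (u : ℕ) := Nat.cast_nonneg _
    have a3 : (0 : ℝ) ≤ M := Nat.cast_nonneg _
    push_cast
    rw [abs_of_nonneg (by nlinarith)]
    ring
  simp only [h1, sum_sub_distrib, sum_add_distrib, sum_const, card_univ, Fintype.card_fin,
    nsmul_eq_mul, ← mul_sum]
  rw [abs_of_nonneg (by linarith)]
  ring

theorem cell_le (M A A' : ℕ) :
    ∑ u : Fin M, ∑ v : Fin M, |((M * A + u : ℕ) : ℝ) - (M * A' + v : ℕ)| ≤
      M ^ 3 / 3 * (if A = A' then 1 else 3 * |(A : ℝ) - A'|) := by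
  rcases lt_trichotomy A A' with h | rfl | h
  · rw [if_neg h.ne, sum_comm, abs_sub_comm]
    simp only [fun (u v : Fin M) => abs_sub_comm ((M * A + u : ℕ) : ℝ) (M * A' + v : ℕ)]
    rw [cell_lt M A' A h]
    exact le_of_eq (by ring)
  · rw [if_pos rfl]
    have h1 : ∑ u : Fin M, ∑ v : Fin M, |((M * A + u : ℕ) : ℝ) - (M * A + v : ℕ)| =
        ∑ u ∈ range M, ∑ v ∈ range M, |(u : ℝ) - v| := by
      rw [← Fin.sum_univ_eq_sum_range (fun u => ∑ v ∈ range M, |(u : ℝ) - v|)]
      refine sum_congr rfl fun u _ => ?_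
      rw [← Fin.sum_univ_eq_sum_range (fun v => |((u : ℕ) : ℝ) - v|)]
      refine sum_congr rfl fun v _ => ?_
      push_cast
      rw [add_sub_add_left_eq_sub]
    rw [h1, cell_same]
    have : (0 : ℝ) ≤ M := Nat.cast_nonneg _
    linarith
  · rw [if_neg h.ne', cell_lt M A A' h]
    exact le_of_eq (by ring)

/-- The table, constant on cells of length `M`. -/
def bM (M : ℕ) (a : Fin 100 × Fin M) (i : Fin 8) : ℝ := bZ a.1 i

theorem ker_bM (M : ℕ) (a a' : Fin 100 × Fin M) : ker (bM M) a a' = kZ a.1 a'.1 := by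
  simp only [ker, bM, kZ]
  push_cast
  rfl

theorem mu_bM (M : ℕ) (a : Fin 100 × Fin M) : mu (bM M) a = M * muZ a.1 := by
  simp only [mu, ker_bM, muZ, Fintype.sum_prod_type, sum_const, card_univ, Fintype.card_fin,
    nsmul_eq_mul, ← mul_sum]
  push_cast
  rfl

theorem gam_bM (M : ℕ) (i : Fin 8) : gam (bM M) i = M ^ 2 * gamZ i := by
  simp only [gam, bM, gamZ, Fintype.sum_prod_type, sum_const, card_univ, Fintype.card_fin,
    nsmul_eq_mul, ← mul_sum, mul_pow]
  push_cast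
  rfl

theorem sum_cell (M : ℕ) (f : Fin 100 → ℝ) : ∑ a : Fin 100 × Fin M, f a.1 = M * ∑ A, f A := by
  simp only [Fintype.sum_prod_type, sum_const, card_univ, Fintype.card_fin, nsmul_eq_mul,
    ← mul_sum]

theorem sum_mu_bM (M : ℕ) : ∑ a, mu (bM M) a = M ^ 2 * 110137567128310155276 := by
  have h : ∑ A, (muZ A : ℝ) = 110137567128310155276 := by exact_mod_cast num_T
  simp only [mu_bM]
  rw [sum_cell M (fun A => M * (muZ A : ℝ)), ← mul_sum, h]
  ring

theorem short_cells (M : ℕ) (hM : 0 < M) :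
    ∃ C : ℝ, 0 < C ∧ ∀ᶠ n : ℕ in atTop, ∀ D : ℕ, 0 < D → ∀ (Γ : Type) [Fintype Γ]
      (γ : (Fin n → ℕ) → Γ), C * Fintype.card Γ < (D * (M * 36.104)) ^ n →
        ∃ e e', e ≠ e' ∧ γ e = γ e' ∧ ∑ j, |(e j : ℝ) - e' j| ≤ n * D * (M * 9.08 + 1) := by
  have hM' : (0 : ℝ) < M := by exact_mod_cast hM
  obtain ⟨C, hC, h⟩ := short_pair (bM M) (fun a => M * a.1 + a.2)
    (by
      rintro ⟨A, u⟩ ⟨A', u'⟩ h
      have a2 := congrArg (· / M) h
      have a3 := congrArg (· % M) h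
      simp only [Nat.mul_add_div hM, Nat.div_eq_of_lt (Fin.is_lt _), add_zero,
        Nat.mul_add_mod, Nat.mod_eq_of_lt (Fin.is_lt _)] at a2 a3
      exact Prod.ext (Fin.ext a2) (Fin.ext a3))
    (fun i => sZ i / 10 ^ 13) (fun a => gZ a.1 / 10 ^ 13) 8192 (M * 9.0799) (1 - 1 / 10 ^ 10)
    (M * 2402965000000000000) (M ^ 2 * 86758580000000000000) (1 / 10 ^ 6) (M * 9.07995)
    (M * 9.08)
    (fun i => by
      have : (0 : ℝ) ≤ sZ i := by exact_mod_cast num_s0 i
      positivity)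
    (fun a => by
      have : (0 : ℝ) ≤ gZ a.1 := by exact_mod_cast num_g0 a.1
      positivity)
    (by rw [sum_mu_bM]; positivity)
    (by
      have h : ∑ A : Fin 100, ∑ A' : Fin 100,
          (if A = A' then 1 else 3 * |((A : ℕ) : ℝ) - (A' : ℕ)|) * (kZ A A' : ℝ) ^ 2 =
            3000105200577153700318 := by exact_mod_cast num_E
      calc _ = ∑ A : Fin 100, ∑ A' : Fin 100, (∑ u : Fin M, ∑ v : Fin M,
            |((M * A + u : ℕ) : ℝ) - (M * A' + v : ℕ)|) * (kZ A A' : ℝ) ^ 2 := by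
            simp only [ker_bM, Fintype.sum_prod_type, sum_mul]
            exact sum_congr rfl fun A _ => sum_comm
        _ ≤ ∑ A : Fin 100, ∑ A' : Fin 100, (M : ℝ) ^ 3 / 3 *
            ((if A = A' then 1 else 3 * |((A : ℕ) : ℝ) - (A' : ℕ)|) * (kZ A A' : ℝ) ^ 2) := by
            refine sum_le_sum fun A _ => sum_le_sum fun A' _ => ?_
            rw [← mul_assoc]
            refine mul_le_mul_of_nonneg_right ((cell_le M A A').trans (le_of_eq ?_)) (sq_nonneg _)
            simp only [Fin.val_inj]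
        _ ≤ _ := by
            simp only [← mul_sum]
            rw [h, sum_mu_bM]
            have : (0 : ℝ) < M ^ 3 := by positivity
            linarith)
    (by
      have h : ∑ i, (gamZ i : ℝ) * sZ i ≤ (10 ^ 10 - 1) * 10 ^ 3 * 110137567128310155276 := by
        exact_mod_cast num_s1
      have h1 : ∑ i, gam (bM M) i * (sZ i / 10 ^ 13) =
          M ^ 2 / 10 ^ 13 * ∑ i, (gamZ i : ℝ) * sZ i := by
        rw [mul_sum]
        exact sum_congr rfl fun i _ => by rw [gam_bM]; ring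
      rw [h1, sum_mu_bM]
      refine (mul_le_mul_of_nonneg_left h (by positivity)).trans (le_of_eq (by ring)))
    (fun i => by
      have h : ((86758580000000000000 * (10 ^ 13) ^ 8192 : ℤ) : ℝ) ≤
        (gamZ i * sZ i ^ 8192 : ℤ) := Int.cast_le.2 (num_s2 i)
      rw [Int.cast_mul, Int.cast_mul, Int.cast_pow, Int.cast_pow, Int.cast_pow, Int.cast_ofNat,
        Int.cast_ofNat] at h
      rw [gam_bM, mul_assoc, div_pow, ← mul_div_assoc]
      exact mul_le_mul_of_nonneg_left ((le_div_iff₀ (by positivity)).2 h) (by positivity))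
    (by
      have h : ∑ A, (muZ A : ℝ) * gZ A ≤ (10 ^ 10 - 1) * 10 ^ 3 * 110137567128310155276 := by
        exact_mod_cast num_g1
      have h1 : ∑ a, mu (bM M) a * (gZ a.1 / 10 ^ 13) =
          M ^ 2 / 10 ^ 13 * ∑ A, (muZ A : ℝ) * gZ A := by
        simp only [mu_bM]
        rw [sum_cell M (fun A => M * (muZ A : ℝ) * (gZ A / 10 ^ 13)), mul_sum, mul_sum]
        exact sum_congr rfl fun i _ => by ring
      rw [h1, sum_mu_bM]
      refine (mul_le_mul_of_nonneg_left h (by positivity)).trans (le_of_eq (by ring)))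
    (fun a => by
      have h : ((muZ a.1 * (10 ^ 13) ^ 8192 : ℤ) : ℝ) ≤
        (2402965000000000000 * gZ a.1 ^ 8192 : ℤ) := Int.cast_le.2 (num_g2 a.1)
      rw [Int.cast_mul, Int.cast_mul, Int.cast_pow, Int.cast_pow, Int.cast_pow, Int.cast_ofNat,
        Int.cast_ofNat] at h
      rw [mu_bM, mul_assoc, div_pow, ← mul_div_assoc]
      exact mul_le_mul_of_nonneg_left ((le_div_iff₀ (by positivity)).2 h) (by positivity))
    (by norm_num) (by norm_num) (by positivity) (by positivity) (by norm_num) (by norm_num)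
    (by positivity) (by linarith) (by linarith)
  refine ⟨C, hC, h.mono fun n hn D hD Γ _ γ hγ => hn D hD Γ γ (hγ.trans_le ?_)⟩
  refine pow_le_pow_left₀ (by positivity) (mul_le_mul_of_nonneg_left ?_ (Nat.cast_nonneg _)) n
  rw [le_div_iff₀ (by positivity)]
  have : (0 : ℝ) < M ^ 2 := by positivity
  linarith

/-- The short pair theorem with the constant `3.976`. -/
theorem short_main : ∃ τ Λ C : ℝ, 0 < Λ ∧ 0 < C ∧ 3.976 * Λ ≤ τ ∧
    ∀ᶠ n : ℕ in atTop, ∀ D : ℕ, 0 < D → ∀ (Γ : Type) [Fintype Γ]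
      (γ : (Fin n → ℕ) → Γ), C * Fintype.card Γ < (D * τ) ^ n →
        ∃ e e', e ≠ e' ∧ γ e = γ e' ∧ ∑ j, |(e j : ℝ) - e' j| ≤ n * D * Λ := by
  obtain ⟨C, hC, h⟩ := short_cells 100000 (by norm_num)
  exact ⟨_, _, C, by positivity, hC, by norm_num, h⟩

end Pool.Agent.P.MP_dc323a_nt.Ext
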