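import Mathlib

set_option autoImplicit false

namespace Pool.Agent.P.MP_dc323a_nt.Ext

open Finset Matrix

theorem sum_comm4 {X U : Type*} (O : Finset X) (S : Finset U) (f : X → X → U → U → ℝ) :
    ∑ z ∈ O, ∑ z' ∈ O, ∑ i ∈ S, ∑ j ∈ S, f z z' i j =
      ∑ i ∈ S, ∑ j ∈ S, ∑ z ∈ O, ∑ z' ∈ O, f z z' i j := by
  calc ∑ z ∈ O, ∑ z' ∈ O, ∑ i ∈ S, ∑ j ∈ S, f z z' i j
      = ∑ z ∈ O, ∑ i ∈ S, ∑ z' ∈ O, ∑ j ∈ S, f z z' i j :=
        sum_congr rfl fun z _ => sum_comm
    _ = ∑ i ∈ S, ∑ z ∈ O, ∑ z' ∈ O, ∑ j ∈ S, f z z' i j := sum_comm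
    _ = ∑ i ∈ S, ∑ z ∈ O, ∑ j ∈ S, ∑ z' ∈ O, f z z' i j :=
        sum_congr rfl fun i _ => sum_congr rfl fun z _ => sum_comm
    _ = _ := sum_congr rfl fun i _ => sum_comm

/-- The two Gram matrices of a matrix have the same Frobenius norm. -/
theorem gram_sq {X U : Type*} (B : X → U → ℝ) (O : Finset X) (S : Finset U) :
    ∑ z ∈ O, ∑ z' ∈ O, (∑ i ∈ S, B z i * B z' i) ^ 2 =
      ∑ i ∈ S, ∑ j ∈ S, (∑ z ∈ O, B z i * B z j) ^ 2 := by
  simp only [sq, sum_mul_sum]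
  rw [sum_comm4]
  refine sum_congr rfl fun i _ => sum_congr rfl fun j _ => sum_congr rfl fun z _ =>
    sum_congr rfl fun z' _ => by ring

variable {X U : Type*} [Fintype X] [Fintype U]

/-- The weighted square sum of the Gram kernel. -/
def en (w : X → X → ℝ) (B : Matrix X U ℝ) : ℝ := ∑ y, ∑ z, w y z * (B * Bᵀ) y z ^ 2

/-- Invariance under a set of permutations. -/
def Inv (G : Set (Equiv.Perm X)) (A : Matrix X X ℝ) : Prop := ∀ σ ∈ G, A.submatrix σ σ = A

theorem Inv.mul {G : Set (Equiv.Perm X)} {A C : Matrix X X ℝ} (hA : Inv G A) (hC : Inv G C) :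
    Inv G (A * C) := fun σ hσ => by
  rw [← submatrix_mul_equiv A C σ σ σ, hA σ hσ, hC σ hσ]

omit [Fintype X] in
theorem Inv.apply {G : Set (Equiv.Perm X)} {A : Matrix X X ℝ} (hA : Inv G A) {σ : Equiv.Perm X}
    (hσ : σ ∈ G) (y z : X) : A (σ y) (σ z) = A y z := congrFun (congrFun (hA σ hσ) y) z

theorem en_smul (w : X → X → ℝ) (c : ℝ) (B : Matrix X U ℝ) : en w (c • B) = c ^ 4 * en w B := by
  simp only [en, mul_sum]
  refine sum_congr rfl fun y _ => sum_congr rfl fun z _ => ?_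
  rw [transpose_smul, Matrix.smul_mul, Matrix.mul_smul]
  simp only [Matrix.smul_apply, smul_eq_mul]
  ring

theorem en_cont (w : X → X → ℝ) : Continuous (fun B : X → U → ℝ => en w (Matrix.of B)) := by
  simp only [en, mul_apply, transpose_apply, of_apply]
  fun_prop

theorem sq_le_en (B : Matrix X U ℝ) (y z : X) : (B * Bᵀ) y z ^ 2 ≤ en (fun _ _ => 1) B := by
  simp only [en, one_mul]
  calc (B * Bᵀ) y z ^ 2 ≤ ∑ z, (B * Bᵀ) y z ^ 2 :=
        single_le_sum (f := fun z => (B * Bᵀ) y z ^ 2) (fun _ _ => sq_nonneg _) (mem_univ z)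
    _ ≤ _ := single_le_sum (f := fun y => ∑ z, (B * Bᵀ) y z ^ 2)
        (fun _ _ => sum_nonneg fun _ _ => sq_nonneg _) (mem_univ y)

theorem exists_scale (G : Set (Equiv.Perm X)) (B : Matrix X U ℝ) (hB : Inv G (B * Bᵀ))
    (hN : 0 < en (fun _ _ => 1) B) : ∃ c : ℝ, c ^ 4 * en (fun _ _ => 1) B = 1 ∧
      Inv G ((c • B) * (c • B)ᵀ) := by
  refine ⟨(√√(en (fun _ _ => 1) B))⁻¹, ?_, fun σ hσ => ?_⟩
  · have h1 : (√√(en (fun _ _ => 1) B)) ^ 4 = en (fun _ _ => 1) B := by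
      rw [show (4 : ℕ) = 2 * 2 from rfl, pow_mul, Real.sq_sqrt (Real.sqrt_nonneg _),
        Real.sq_sqrt hN.le]
    rw [inv_pow, h1, inv_mul_cancel₀ hN.ne']
  · rw [transpose_smul, Matrix.smul_mul, Matrix.mul_smul, submatrix_smul, submatrix_smul]
    simp only [Pi.smul_apply]
    rw [hB σ hσ]

theorem exists_min (w : X → X → ℝ) (G : Set (Equiv.Perm X)) (B0 : Matrix X U ℝ)
    (h0 : Inv G (B0 * B0ᵀ)) (hN : 0 < en (fun _ _ => 1) B0) :
    ∃ B : Matrix X U ℝ, Inv G (B * Bᵀ) ∧ en (fun _ _ => 1) B = 1 ∧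
      ∀ B' : Matrix X U ℝ, Inv G (B' * B'ᵀ) → en w B * en (fun _ _ => 1) B' ≤ en w B' := by
  let C : Set (X → U → ℝ) :=
    {B | Inv G (Matrix.of B * (Matrix.of B)ᵀ) ∧ en (fun _ _ => 1) (Matrix.of B) = 1}
  have hcl : IsClosed C := by
    refine IsClosed.inter ?_ (isClosed_eq (en_cont _) continuous_const)
    have : {B : X → U → ℝ | Inv G (Matrix.of B * (Matrix.of B)ᵀ)} =
        ⋂ σ ∈ G, ⋂ y, ⋂ z, {B : X → U → ℝ | ∑ i, B (σ y) i * B (σ z) i = ∑ i, B y i * B z i} := by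
      ext B
      simp only [Inv, Set.mem_ofPred_eq, Set.mem_iInter]
      refine forall₂_congr fun σ _ => ⟨fun h y z => congrFun (congrFun h y) z, fun h => ?_⟩
      ext y z
      exact h y z
    show IsClosed {B : X → U → ℝ | Inv G (Matrix.of B * (Matrix.of B)ᵀ)}
    rw [this]
    exact isClosed_biInter fun σ _ => isClosed_iInter fun y => isClosed_iInter fun z =>
      isClosed_eq (by fun_prop) (by fun_prop)
  have hcp : IsCompact C := by
    refine (isCompact_closedBall (0 : X → U → ℝ) 1).of_isClosed_subset hcl fun B hB => ?_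
    rw [mem_closedBall_zero_iff, pi_norm_le_iff_of_nonneg zero_le_one]
    intro y
    rw [pi_norm_le_iff_of_nonneg zero_le_one]
    intro i
    have h1 := sq_le_en (Matrix.of B) y y
    rw [hB.2] at h1
    have h2 : B y i * B y i ≤ (Matrix.of B * (Matrix.of B)ᵀ) y y :=
      single_le_sum (f := fun i => B y i * B y i) (fun _ _ => mul_self_nonneg _) (mem_univ i)
    have h3 : B y i * B y i ≤ 1 := by nlinarith [mul_self_nonneg (B y i)]
    rw [Real.norm_eq_abs, abs_le]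
    constructor <;> nlinarith
  have hne : C.Nonempty := by
    obtain ⟨c, hc, hi⟩ := exists_scale G B0 h0 hN
    exact ⟨c • B0, hi, (en_smul _ c B0).trans hc⟩
  obtain ⟨B, hB, hmin⟩ := hcp.exists_isMinOn hne (en_cont w).continuousOn
  refine ⟨Matrix.of B, hB.1, hB.2, fun B' hB' => ?_⟩
  have hnn : 0 ≤ en (fun _ _ => 1) B' := by
    simp only [en, one_mul]; positivity
  rcases hnn.eq_or_lt with h | h
  · have h1 : ∀ y z, (B' * B'ᵀ) y z ^ 2 = 0 := fun y z =>
      le_antisymm ((sq_le_en B' y z).trans h.symm.le) (sq_nonneg _)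
    rw [← h]
    simp [en, h1]
  · obtain ⟨c, hc, hi⟩ := exists_scale G B' hB' h
    have h1 : en w (Matrix.of B) ≤ en w (c • B') :=
      hmin (a := c • B') ⟨hi, (en_smul _ c B').trans hc⟩
    rw [en_smul] at h1
    calc en w (Matrix.of B) * en (fun _ _ => 1) B' ≤ c ^ 4 * en w B' * en (fun _ _ => 1) B' :=
          mul_le_mul_of_nonneg_right h1 hnn
      _ = c ^ 4 * en (fun _ _ => 1) B' * en w B' := by ring
      _ = en w B' := by rw [hc, one_mul]

/-- First order condition at the minimiser. -/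
theorem first_order [DecidableEq X] (u : X → X → ℝ) (hu : ∀ y z, u y z = u z y)
    (G : Set (Equiv.Perm X)) (huG : ∀ σ ∈ G, ∀ y z, u (σ y) (σ z) = u y z) (B : Matrix X U ℝ)
    (hB : Inv G (B * Bᵀ)) (h0 : en u B = 0)
    (hmin : ∀ B' : Matrix X U ℝ, Inv G (B' * B'ᵀ) → 0 ≤ en u B') (y : X) (i : U) :
    ∑ z, u y z * (B * Bᵀ) y z * B z i = 0 := by
  let M : Matrix X X ℝ := Matrix.of fun y z => u y z * (B * Bᵀ) y z
  have hK : ∀ y z, (B * Bᵀ) y z = (B * Bᵀ) z y := fun y z => by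
    simp only [mul_apply, transpose_apply, mul_comm]
  have hM : Inv G M := fun σ hσ => by
    ext y z
    simp only [M, submatrix_apply, of_apply, huG σ hσ, hB.apply hσ]
  let C : Matrix X U ℝ := M * B
  have hinv : ∀ ε : ℝ, Inv G ((B + ε • C) * (B + ε • C)ᵀ) := fun ε => by
    have h1 : B + ε • C = (1 + ε • M) * B := by
      rw [Matrix.add_mul, Matrix.one_mul, Matrix.smul_mul]
    have h2 : Inv G (1 + ε • M) := fun σ hσ => by
      rw [submatrix_add, submatrix_smul]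
      simp only [Pi.add_apply, Pi.smul_apply]
      rw [hM σ hσ, submatrix_one_equiv]
    have h3 : Inv G (1 + ε • M)ᵀ := fun σ hσ => by
      rw [← transpose_submatrix, h2 σ hσ]
    rw [h1, transpose_mul, Matrix.mul_assoc, ← Matrix.mul_assoc B]
    exact h2.mul (hB.mul h3)
  have hloc : IsLocalMin (fun ε : ℝ => en u (B + ε • C)) 0 := by
    refine Filter.Eventually.of_forall fun ε => ?_
    simp only [zero_smul, add_zero, h0]
    exact hmin _ (hinv ε)
  have hd : HasDerivAt (fun ε : ℝ => en u (B + ε • C))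
      (∑ y, ∑ z, u y z * (2 * (B * Bᵀ) y z * ∑ i, (C y i * B z i + B y i * C z i))) 0 := by
    simp only [en]
    refine HasDerivAt.fun_sum fun y _ => HasDerivAt.fun_sum fun z _ => HasDerivAt.const_mul _ ?_
    have h1 : HasDerivAt (fun ε : ℝ => ((B + ε • C) * (B + ε • C)ᵀ) y z)
        (∑ i, (C y i * B z i + B y i * C z i)) 0 := by
      simp only [mul_apply, transpose_apply, Matrix.add_apply, Matrix.smul_apply, smul_eq_mul]
      refine HasDerivAt.fun_sum fun i _ => ?_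
      have a1 : HasDerivAt (fun ε : ℝ => B y i + ε * C y i) (C y i) 0 := by
        simpa using ((hasDerivAt_id (0 : ℝ)).mul_const (C y i)).const_add (B y i)
      have a2 : HasDerivAt (fun ε : ℝ => B z i + ε * C z i) (C z i) 0 := by
        simpa using ((hasDerivAt_id (0 : ℝ)).mul_const (C z i)).const_add (B z i)
      simpa using a1.fun_mul a2
    simpa using h1.fun_pow 2
  have h1 := hloc.hasDerivAt_eq_zero hd
  have hC : ∀ y i, C y i = ∑ z, u y z * (B * Bᵀ) y z * B z i := fun y i => rfl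
  have e1 : ∑ y, ∑ z, u y z * ((B * Bᵀ) y z * ∑ i, C y i * B z i) = ∑ y, ∑ i, C y i ^ 2 := by
    refine sum_congr rfl fun y _ => ?_
    simp only [mul_sum]
    rw [sum_comm]
    refine sum_congr rfl fun i _ => ?_
    rw [sq]
    nth_rewrite 3 [hC]
    rw [mul_sum]
    exact sum_congr rfl fun z _ => by ring
  have e2 : ∑ y, ∑ z, u y z * ((B * Bᵀ) y z * ∑ i, B y i * C z i) = ∑ y, ∑ i, C y i ^ 2 := by
    rw [sum_comm, ← e1]
    refine sum_congr rfl fun y _ => sum_congr rfl fun z _ => ?_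
    rw [hu z y, hK z y]
    simp only [mul_comm]
  have e3 : ∑ y, ∑ i, C y i ^ 2 = 0 := by
    have : ∑ y, ∑ z, u y z * (2 * (B * Bᵀ) y z * ∑ i, (C y i * B z i + B y i * C z i)) =
        2 * (∑ y, ∑ z, u y z * ((B * Bᵀ) y z * ∑ i, C y i * B z i) +
          ∑ y, ∑ z, u y z * ((B * Bᵀ) y z * ∑ i, B y i * C z i)) := by
      rw [← sum_add_distrib, mul_sum]
      refine sum_congr rfl fun y _ => ?_
      rw [← sum_add_distrib, mul_sum]
      refine sum_congr rfl fun z _ => ?_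
      rw [sum_add_distrib]
      ring
    rw [this, e1, e2] at h1
    linarith
  have e4 := (sum_eq_zero_iff_of_nonneg fun y _ => sum_nonneg fun i _ => sq_nonneg _).1 e3 y
    (mem_univ y)
  have e5 := (sum_eq_zero_iff_of_nonneg fun i _ => sq_nonneg _).1 e4 i (mem_univ i)
  rw [← hC]
  exact pow_eq_zero_iff two_ne_zero |>.1 e5

theorem exists_decomp (B : Matrix X U ℝ) (v : X → ℝ) :
    ∃ (c : U → ℝ) (v2 : X → ℝ), (∀ y, v y = ∑ i, B y i * c i + v2 y) ∧
      ∀ i, ∑ y, v2 y * B y i = 0 := by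
  classical
  let L : (U → ℝ) →ₗ[ℝ] EuclideanSpace ℝ X :=
    (WithLp.linearEquiv 2 ℝ (X → ℝ)).symm.toLinearMap ∘ₗ B.mulVecLin
  obtain ⟨a, ⟨c, rfl⟩, b, hb, hab⟩ :=
    (LinearMap.range L).exists_add_mem_mem_orthogonal (WithLp.toLp 2 v)
  refine ⟨c, fun y => b y, fun y => ?_, fun i => ?_⟩
  · have := congrArg (fun x : EuclideanSpace ℝ X => x y) hab
    simpa [L, mulVec, dotProduct] using this
  · have := (Submodule.mem_orthogonal _ _).1 hb (L (Pi.single i 1)) ⟨_, rfl⟩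
    simpa [L, PiLp.inner_apply, mul_comm] using this

/-- The minimiser is a subsolution. -/
theorem nsd (w : X → X → ℝ) (hw : ∀ y z, w y z = w z y)
    (hneg : ∀ c : X → ℝ, ∑ y, c y = 0 → ∑ y, ∑ z, c y * c z * w y z ≤ 0) (lam : ℝ)
    (B : Matrix X U ℝ) (hM : ∀ y i, ∑ z, (w y z - lam) * (B * Bᵀ) y z * B z i = 0)
    (v : X → ℝ) : ∑ y, ∑ z, v y * v z * ((w y z - lam) * (B * Bᵀ) y z) ≤ 0 := by
  obtain ⟨c, v2, hv, hv2⟩ := exists_decomp B v
  let M : X → X → ℝ := fun y z => (w y z - lam) * (B * Bᵀ) y z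
  have hMs : ∀ y z, M y z = M z y := fun y z => by
    simp only [M, mul_apply, transpose_apply, mul_comm, hw y z]
  have h1 : ∀ y, ∑ z, v z * M y z = ∑ z, v2 z * M y z := fun y => by
    have : ∑ z, (∑ i, B z i * c i) * M y z = 0 := by
      simp only [sum_mul]
      rw [sum_comm]
      refine sum_eq_zero fun i _ => ?_
      rw [← mul_zero (c i), ← hM y i, mul_sum]
      exact sum_congr rfl fun z _ => by simp only [M]; ring
    simp only [hv, add_mul, sum_add_distrib, this, zero_add]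
  have h2 : ∀ a b : X → ℝ, ∑ y, ∑ z, a y * b z * M y z = ∑ y, a y * ∑ z, b z * M y z :=
    fun a b => sum_congr rfl fun y _ => by
      rw [mul_sum]; exact sum_congr rfl fun z _ => by ring
  have h3 : ∀ a b : X → ℝ, ∑ y, ∑ z, a y * b z * M y z = ∑ y, ∑ z, b y * a z * M y z :=
    fun a b => by
      rw [sum_comm]
      exact sum_congr rfl fun y _ => sum_congr rfl fun z _ => by rw [hMs y z]; ring
  have h4 : ∑ y, ∑ z, v y * v z * M y z = ∑ y, ∑ z, v2 y * v2 z * M y z := by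
    rw [h2 v v]
    simp only [h1]
    rw [← h2 v v2, h3 v v2, h2 v2 v]
    simp only [h1]
    rw [← h2 v2 v2]
  show ∑ y, ∑ z, v y * v z * M y z ≤ 0
  rw [h4]
  have h5 : ∑ y, ∑ z, v2 y * v2 z * M y z =
      ∑ i, (∑ y, ∑ z, (v2 y * B y i) * (v2 z * B z i) * w y z -
        lam * ((∑ y, v2 y * B y i) * ∑ y, v2 y * B y i)) := by
    simp only [sum_mul_sum]
    simp only [M, mul_apply, transpose_apply, mul_sum, ← sum_sub_distrib]
    symm
    rw [sum_comm]
    refine sum_congr rfl fun y _ => ?_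
    rw [sum_comm]
    exact sum_congr rfl fun z _ => sum_congr rfl fun i _ => by ring
  rw [h5]
  refine sum_nonpos fun i _ => ?_
  rw [hv2 i, mul_zero, mul_zero, sub_zero]
  exact hneg _ (hv2 i)

/-- The diagonal of an invariant Gram kernel is small when all orbits are large. -/
theorem diag_le (G : Set (Equiv.Perm X)) (B : Matrix X U ℝ) (hB : Inv G (B * Bᵀ)) (T : ℝ) (y : X)
    (O : Finset X) (hT : T ≤ O.card) (hO : ∀ z ∈ O, ∃ σ ∈ G, σ y = z) :
    T * (B * Bᵀ) y y ^ 2 ≤ Fintype.card U * ∑ z, (B * Bᵀ) y z ^ 2 := by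
  have h1 : ∑ z ∈ O, (B * Bᵀ) z z = O.card * (B * Bᵀ) y y := by
    rw [sum_congr rfl (g := fun _ => (B * Bᵀ) y y), sum_const, nsmul_eq_mul]
    intro z hz
    obtain ⟨σ, hσ, rfl⟩ := hO z hz
    exact hB.apply hσ y y
  have h2 : ∑ z ∈ O, ∑ x, (B * Bᵀ) z x ^ 2 = O.card * ∑ x, (B * Bᵀ) y x ^ 2 := by
    rw [sum_congr rfl (g := fun _ => ∑ x, (B * Bᵀ) y x ^ 2), sum_const, nsmul_eq_mul]
    intro z hz
    obtain ⟨σ, hσ, rfl⟩ := hO z hz
    rw [← Equiv.sum_comp σ]
    exact sum_congr rfl fun x _ => by rw [hB.apply hσ]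
  have h3 : ∑ z ∈ O, (B * Bᵀ) z z = ∑ i, ∑ z ∈ O, B z i * B z i := by
    rw [sum_comm]; rfl
  have h4 : (∑ i, ∑ z ∈ O, B z i * B z i) ^ 2 ≤
      Fintype.card U * ∑ i, (∑ z ∈ O, B z i * B z i) ^ 2 := sq_sum_le_card_mul_sum_sq
  have h5 : ∑ i, (∑ z ∈ O, B z i * B z i) ^ 2 ≤ ∑ i, ∑ j, (∑ z ∈ O, B z i * B z j) ^ 2 :=
    sum_le_sum fun i _ => single_le_sum (f := fun j => (∑ z ∈ O, B z i * B z j) ^ 2)
      (fun _ _ => sq_nonneg _) (mem_univ i)
  have h6 : ∑ z ∈ O, ∑ z' ∈ O, (∑ i, B z i * B z' i) ^ 2 ≤ ∑ z ∈ O, ∑ x, (B * Bᵀ) z x ^ 2 :=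
    sum_le_sum fun z _ => sum_le_sum_of_subset_of_nonneg (subset_univ _) fun _ _ _ => sq_nonneg _
  rw [← gram_sq (fun z i => B z i)] at h5
  have h7 : ((O.card : ℝ) * (B * Bᵀ) y y) ^ 2 ≤
      Fintype.card U * (O.card * ∑ x, (B * Bᵀ) y x ^ 2) := by
    rw [← h1, h3, ← h2]
    exact h4.trans (mul_le_mul_of_nonneg_left (h5.trans h6) (Nat.cast_nonneg _))
  have hR : 0 ≤ (Fintype.card U : ℝ) * ∑ z, (B * Bᵀ) y z ^ 2 := by positivity
  rcases (Nat.cast_nonneg (α := ℝ) O.card).eq_or_lt with h | h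
  · exact (mul_nonpos_of_nonpos_of_nonneg (hT.trans h.symm.le) (sq_nonneg _)).trans hR
  · refine (mul_le_mul_of_nonneg_right hT (sq_nonneg _)).trans (le_of_mul_le_mul_left ?_ h)
    calc (O.card : ℝ) * (O.card * (B * Bᵀ) y y ^ 2) = (O.card * (B * Bᵀ) y y) ^ 2 := by ring
      _ ≤ _ := h7
      _ = _ := by ring

/-- A positive semidefinite kernel is dominated by its monochromatic part. -/
theorem colour_le {Γ : Type*} [Fintype Γ] [DecidableEq Γ] (F : X → X → ℝ)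
    (hF : ∀ v : X → ℝ, 0 ≤ ∑ y, ∑ z, v y * v z * F y z) (γ : X → Γ) :
    ∑ y, ∑ z, F y z ≤ Fintype.card Γ * ∑ y, ∑ z, if γ y = γ z then F y z else 0 := by
  let e : Γ → X → ℝ := fun g y => if γ y = g then 1 else 0
  have h1 : 0 ≤ ∑ g, ∑ g', ∑ y, ∑ z, (e g y - e g' y) * (e g z - e g' z) * F y z :=
    sum_nonneg fun g _ => sum_nonneg fun g' _ => hF _
  rw [← sum_comm4] at h1
  have h2 : ∀ y z, ∑ g, ∑ g', (e g y - e g' y) * (e g z - e g' z) * F y z =
      2 * (Fintype.card Γ * (if γ y = γ z then F y z else 0) - F y z) := fun y z => by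
    have a1 : ∑ g, e g y * e g z = if γ y = γ z then 1 else 0 := by
      simp [e, eq_comm]
    have a2 : ∀ x, ∑ g, e g x = 1 := fun x => by simp [e]
    have a3 : ∀ g g', (e g y - e g' y) * (e g z - e g' z) * F y z =
        (e g y * e g z) * F y z + (e g' y * e g' z) * F y z - e g y * (e g' z * F y z) -
          e g z * (e g' y * F y z) := fun g g' => by ring
    simp only [a3, sum_sub_distrib, sum_add_distrib, sum_const, card_univ, nsmul_eq_mul,
      ← mul_sum, ← sum_mul, a1, a2]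
    split_ifs <;> ring
  simp only [h2, ← mul_sum, sum_sub_distrib] at h1
  linarith

/-- The linear programming bound for colourings of a space of negative type. -/
theorem lp_bound {Γ : Type*} [Fintype Γ] (w : X → X → ℝ) (hw : ∀ y z, w y z = w z y)
    (hw0 : ∀ y, w y y = 0)
    (hneg : ∀ c : X → ℝ, ∑ y, c y = 0 → ∑ y, ∑ z, c y * c z * w y z ≤ 0)
    (G : Set (Equiv.Perm X)) (hG : ∀ σ ∈ G, ∀ y z, w (σ y) (σ z) = w y z) (T : ℝ) (hT0 : 0 ≤ T)
    (hT : ∀ y, ∃ O : Finset X, T ≤ O.card ∧ ∀ z ∈ O, ∃ σ ∈ G, σ y = z)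
    (B0 : Matrix X U ℝ) (h0 : Inv G (B0 * B0ᵀ)) (hN : 0 < en (fun _ _ => 1) B0) (lam d : ℝ)
    (hE : en w B0 ≤ lam * en (fun _ _ => 1) B0) (hd : lam ≤ d) (hd0 : 0 ≤ d) (γ : X → Γ)
    (hγ : ∀ y z, y ≠ z → γ y = γ z → d ≤ w y z) :
    T * (d - lam) ≤ Fintype.card Γ * (d * Fintype.card U) := by
  classical
  obtain ⟨B, hB, hB1, hmin⟩ := exists_min w G B0 h0 hN
  have hl : en w B ≤ lam := le_of_mul_le_mul_right ((hmin B0 h0).trans hE) hN
  have hsub : ∀ (l : ℝ) (B' : Matrix X U ℝ),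
      en (fun y z => w y z - l) B' = en w B' - l * en (fun _ _ => 1) B' := fun l B' => by
    simp only [en, mul_sum, ← sum_sub_distrib]
    exact sum_congr rfl fun y _ => sum_congr rfl fun z _ => by ring
  have hM := first_order (fun y z => w y z - en w B) (fun y z => by rw [hw y z]) G
    (fun σ hσ y z => by rw [hG σ hσ]) B hB (by rw [hsub, hB1]; ring)
    (fun B' hB' => by rw [hsub]; linarith [hmin B' hB'])
  have hn := nsd w hw hneg (en w B) B hM
  have hK : ∀ v : X → ℝ, 0 ≤ ∑ y, ∑ z, v y * v z * (B * Bᵀ) y z := fun v => by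
    have : ∑ y, ∑ z, v y * v z * (B * Bᵀ) y z = ∑ i, (∑ y, v y * B y i) * ∑ y, v y * B y i := by
      simp only [sum_mul_sum]
      simp only [mul_apply, transpose_apply, mul_sum]
      symm
      rw [sum_comm]
      refine sum_congr rfl fun y _ => ?_
      rw [sum_comm]
      exact sum_congr rfl fun z _ => sum_congr rfl fun i _ => by ring
    rw [this]
    exact sum_nonneg fun i _ => mul_self_nonneg _
  have hK' : ∀ v : X → ℝ, 0 ≤ ∑ y, ∑ z, v y * v z * ((d - w y z) * (B * Bᵀ) y z) := fun v => by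
    have : ∑ y, ∑ z, v y * v z * ((d - w y z) * (B * Bᵀ) y z) =
        (d - en w B) * ∑ y, ∑ z, v y * v z * (B * Bᵀ) y z -
          ∑ y, ∑ z, v y * v z * ((w y z - en w B) * (B * Bᵀ) y z) := by
      simp only [mul_sum, ← sum_sub_distrib]
      exact sum_congr rfl fun y _ => sum_congr rfl fun z _ => by ring
    rw [this]
    have := mul_nonneg (sub_nonneg.2 (hl.trans hd)) (hK v)
    linarith [hn v]
  have hF : ∀ v : X → ℝ, 0 ≤ ∑ y, ∑ z, v y * v z * ((d - w y z) * (B * Bᵀ) y z ^ 2) := fun v => by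
    have : ∑ y, ∑ z, v y * v z * ((d - w y z) * (B * Bᵀ) y z ^ 2) =
        ∑ i, ∑ y, ∑ z, (v y * B y i) * (v z * B z i) * ((d - w y z) * (B * Bᵀ) y z) := by
      symm
      rw [sum_comm]
      refine sum_congr rfl fun y _ => ?_
      rw [sum_comm]
      refine sum_congr rfl fun z _ => ?_
      rw [sq]
      nth_rewrite 3 [mul_apply]
      simp only [transpose_apply, mul_sum]
      exact sum_congr rfl fun i _ => by ring
    rw [this]
    exact sum_nonneg fun i _ => hK' _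
  have h1 := colour_le _ hF γ
  have h2 : ∑ y, ∑ z, (d - w y z) * (B * Bᵀ) y z ^ 2 = d - en w B := by
    have : ∑ y, ∑ z, (d - w y z) * (B * Bᵀ) y z ^ 2 = d * en (fun _ _ => 1) B - en w B := by
      simp only [en, mul_sum, ← sum_sub_distrib]
      exact sum_congr rfl fun y _ => sum_congr rfl fun z _ => by ring
    rw [this, hB1, mul_one]
  have h3 : ∑ y, ∑ z, (if γ y = γ z then (d - w y z) * (B * Bᵀ) y z ^ 2 else 0) ≤
      ∑ y, d * (B * Bᵀ) y y ^ 2 := by
    refine sum_le_sum fun y _ => ?_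
    rw [← add_sum_erase _ _ (mem_univ y), if_pos rfl, hw0, sub_zero]
    refine add_le_of_nonpos_right (sum_nonpos fun z hz => ?_)
    split_ifs with h
    · exact mul_nonpos_of_nonpos_of_nonneg
        (sub_nonpos.2 (hγ y z (ne_of_mem_erase hz).symm h)) (sq_nonneg _)
    · exact le_rfl
  have h4 : T * ∑ y, (B * Bᵀ) y y ^ 2 ≤ Fintype.card U := by
    calc T * ∑ y, (B * Bᵀ) y y ^ 2 ≤ ∑ y, Fintype.card U * ∑ z, (B * Bᵀ) y z ^ 2 := by
          rw [mul_sum]
          refine sum_le_sum fun y _ => ?_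
          obtain ⟨O, h1, h2⟩ := hT y
          exact diag_le G B hB T y O h1 h2
      _ = Fintype.card U * en (fun _ _ => 1) B := by simp only [en, one_mul, mul_sum]
      _ = _ := by rw [hB1, mul_one]
  rw [h2] at h1
  rw [← mul_sum] at h3
  have hc : (0 : ℝ) ≤ Fintype.card Γ := Nat.cast_nonneg _
  calc T * (d - lam) ≤ T * (d - en w B) := mul_le_mul_of_nonneg_left (by linarith) hT0
    _ ≤ T * (Fintype.card Γ * (d * ∑ y, (B * Bᵀ) y y ^ 2)) :=
        mul_le_mul_of_nonneg_left (h1.trans (mul_le_mul_of_nonneg_left h3 hc)) hT0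
    _ = Fintype.card Γ * (d * (T * ∑ y, (B * Bᵀ) y y ^ 2)) := by ring
    _ ≤ _ := mul_le_mul_of_nonneg_left (mul_le_mul_of_nonneg_left h4 hd0) hc

end Pool.Agent.P.MP_dc323a_nt.Ext
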