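import Mathlib

set_option autoImplicit false

namespace Pool.Agent.P.MP_dc323a_nt.Ext

open Finset Filter Real

theorem sum_primesLE_succ (f : ℕ → ℝ) (N : ℕ) : ∑ p ∈ Nat.primesLE (N + 1), f p =
    ∑ p ∈ Nat.primesLE N, f p + if (N + 1).Prime then f (N + 1) else 0 := by
  simp only [Nat.primesLE_eq_filter_range, sum_filter]
  rw [sum_range_succ]

theorem mertens_lower {N : ℕ} (hN : 1 ≤ N) :
    log N - 1 ≤ ∑ p ∈ Nat.primesLE N, log p / (p - 1) := by
  have hN' : (0 : ℝ) < N := by exact_mod_cast hN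
  have hf : (0 : ℝ) < N.factorial := by exact_mod_cast N.factorial_pos
  have h1 : N * log N - N ≤ log N.factorial := by
    have a1 := log_le_log (by positivity) (pow_div_factorial_le_exp (N : ℝ) hN'.le N)
    rw [log_exp, log_div (by positivity) hf.ne', log_pow] at a1
    linarith
  have h2 : log N.factorial ≤ N * ∑ p ∈ Nat.primesLE N, log p / (p - 1) := by
    rw [log_nat_eq_sum_factorization, Finsupp.sum, mul_sum]
    have a1 : N.factorial.factorization.support ⊆ Nat.primesLE N := fun p hp => by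
      have hp' : p ∈ N.factorial.primeFactors := hp
      have := Nat.prime_of_mem_primeFactors hp'
      exact Nat.mem_primesLE.2 ⟨this.dvd_factorial.1 (Nat.dvd_of_mem_primeFactors hp'), this⟩
    refine (sum_le_sum_of_subset_of_nonneg a1 fun p _ _ =>
      mul_nonneg (Nat.cast_nonneg _) (log_natCast_nonneg _)).trans (sum_le_sum fun p hp => ?_)
    have hp' := Nat.prime_of_mem_primesLE hp
    have a2 : (N.factorial.factorization p : ℝ) ≤ N / (p - 1) := by
      refine le_trans (Nat.cast_le.2 (Nat.factorization_factorial_le_div_pred hp' N))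
        (Nat.cast_div_le.trans (le_of_eq ?_))
      rw [Nat.cast_pred hp'.pos]
    calc _ ≤ N / (p - 1) * log p := mul_le_mul_of_nonneg_right a2 (log_natCast_nonneg _)
      _ = _ := by ring
  refine le_of_mul_le_mul_left ?_ hN'
  linarith

/-- The logarithmically smoothed Chebyshev function. -/
noncomputable def smooth (N : ℕ) : ℝ := ∑ p ∈ Nat.primesLE N, log p * (log N - log p)

theorem inv_le_log_sub {N : ℕ} (hN : 1 ≤ N) : 1 / ((N : ℝ) + 1) ≤ log (N + 1 : ℕ) - log N := by
  have hN' : (0 : ℝ) < N := by exact_mod_cast hN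
  have h := log_le_sub_one_of_pos (show 0 < (N : ℝ) / (N + 1) by positivity)
  rw [log_div hN'.ne' (by positivity)] at h
  have h2 : (N : ℝ) / (N + 1) - 1 = -(1 / (N + 1)) := by field_simp; ring
  push_cast
  linarith

theorem smooth_succ (N : ℕ) :
    smooth (N + 1) = smooth N + Chebyshev.theta N * (log (N + 1 : ℕ) - log N) := by
  rw [smooth, sum_primesLE_succ, Chebyshev.theta_eq_sum_primesLE_log, smooth, sum_mul,
    ← sum_add_distrib, sub_self, mul_zero, ite_self, add_zero]
  exact sum_congr rfl fun p _ => by ring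

theorem frequently_smooth {ε : ℝ} (hε : 0 < ε) (hε1 : ε ≤ 1) :
    ∃ᶠ N : ℕ in atTop, (1 - ε) * N ≤ smooth N := by
  by_contra hcon
  rw [not_frequently, eventually_atTop] at hcon
  obtain ⟨N0, hN0⟩ := hcon
  obtain ⟨C, hC0, hC⟩ : ∃ C : ℝ, 0 ≤ C ∧ ∀ N : ℕ, smooth N ≤ (1 - ε) * N + C := by
    refine ⟨∑ M ∈ range N0, |smooth M|, sum_nonneg fun _ _ => abs_nonneg _, fun N => ?_⟩
    rcases lt_or_ge N N0 with h | h
    · refine le_add_of_nonneg_of_le (mul_nonneg (sub_nonneg.2 hε1) (Nat.cast_nonneg _)) ?_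
      exact (le_abs_self _).trans (single_le_sum (f := fun M => |smooth M|)
        (fun _ _ => abs_nonneg _) (mem_range.2 h))
    · exact le_add_of_le_of_nonneg (not_le.1 (hN0 N h)).le (sum_nonneg fun _ _ => abs_nonneg _)
  have hth : ∀ N : ℕ, Chebyshev.theta N ≤ 3 / 2 * N := fun N => by
    refine (Chebyshev.theta_le_log4_mul_x (Nat.cast_nonneg N)).trans
      (mul_le_mul_of_nonneg_right ?_ (Nat.cast_nonneg N))
    rw [show (4 : ℝ) = 2 ^ 2 by norm_num, log_pow]
    have := log_two_lt_d9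
    push_cast
    linarith
  let S : ℕ → ℝ := fun N => ∑ p ∈ Nat.primesLE N, log p / (p - 1)
  let Ψ : ℕ → ℝ := fun N => S N - Chebyshev.theta N / N - smooth (N + 1) / (N + 1) -
    (1 - ε) * log N + (C + 3) / N
  have hstep : ∀ N : ℕ, 1 ≤ N → Ψ (N + 1) ≤ Ψ N := fun N hN => by
    have hN' : (0 : ℝ) < N := by exact_mod_cast hN
    have a1 : S (N + 1) = S N + (Chebyshev.theta (N + 1 : ℕ) - Chebyshev.theta N) / N := by
      simp only [S]
      rw [Chebyshev.theta_eq_sum_primesLE_log, Chebyshev.theta_eq_sum_primesLE_log,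
        sum_primesLE_succ, sum_primesLE_succ]
      split_ifs <;> simp
    have a2 := smooth_succ (N + 1)
    have a3 := mul_le_mul_of_nonneg_left (inv_le_log_sub (N := N + 1) (by omega))
      (Chebyshev.theta_nonneg (N + 1 : ℕ))
    have a4 := mul_le_mul_of_nonneg_left (inv_le_log_sub hN) (sub_nonneg.2 hε1)
    have a5 := hC (N + 1 + 1)
    have a6 := hth (N + 1)
    simp only [Ψ, a1]
    rw [← sub_eq_iff_eq_add'] at a2
    rw [← a2] at a3
    push_cast at a3 a4 a5 a6 ⊢
    generalize smooth (N + 1 + 1) = b2 at *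
    generalize smooth (N + 1) = b1 at *
    generalize Chebyshev.theta ((N : ℝ) + 1) = t at *
    generalize (N : ℝ) = x at *
    have e1 : t / (x * (x + 1)) = t * (1 / (x + 1 + 1)) / (x + 1) +
        2 * t / (x * (x + 1) * (x + 2)) := by field_simp; ring
    have e2 : t * (1 / (x + 1 + 1)) / (x + 1) ≤ (b2 - b1) / (x + 1) :=
      div_le_div_of_nonneg_right a3 (by positivity)
    have e3 : 2 * t / (x * (x + 1) * (x + 2)) ≤ 3 / (x * (x + 1)) := by
      rw [div_le_div_iff₀ (by positivity) (by positivity)]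
      have : 0 < x * (x + 1) := by positivity
      nlinarith
    have e4 : (b2 - b1) / (x + 1) = b2 / (x + 1 + 1) - b1 / (x + 1) +
        b2 / ((x + 1) * (x + 1 + 1)) := by field_simp; ring
    have e5 : b2 / ((x + 1) * (x + 1 + 1)) ≤
        ((1 - ε) * (x + 1 + 1) + C) / ((x + 1) * (x + 1 + 1)) :=
      div_le_div_of_nonneg_right a5 (by positivity)
    have e6 : ((1 - ε) * (x + 1 + 1) + C) / ((x + 1) * (x + 1 + 1)) =
        (1 - ε) * (1 / (x + 1)) + C / ((x + 1) * (x + 1 + 1)) := by field_simp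
    have e7 : C / ((x + 1) * (x + 1 + 1)) ≤ C / (x * (x + 1)) :=
      div_le_div_of_nonneg_left hC0 (by positivity) (by nlinarith)
    have e8 : (C + 3) / x - (C + 3) / (x + 1) = C / (x * (x + 1)) + 3 / (x * (x + 1)) := by
      field_simp; ring
    have e9 : ∀ s : ℝ, (t - s) / x - t / (x + 1) = t / (x * (x + 1)) - s / x := fun s => by
      field_simp; ring
    linarith [e9 (Chebyshev.theta x)]
  have hall : ∀ N : ℕ, 1 ≤ N → Ψ N ≤ Ψ 1 := fun N hN => by
    induction N, hN using Nat.le_induction with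
    | base => exact le_rfl
    | succ N hN ih => exact (hstep N hN).trans ih
  have hbd : ∀ N : ℕ, 1 ≤ N → ε * log N ≤ Ψ 1 + C + 4 := fun N hN => by
    have hN' : (1 : ℝ) ≤ N := by exact_mod_cast hN
    have a1 := hall N hN
    have a2 := mertens_lower hN
    have a3 : Chebyshev.theta N / N ≤ 3 / 2 := by
      rw [div_le_iff₀ (by linarith)]; exact hth N
    have a4 : smooth (N + 1) / (N + 1) ≤ 1 + C := by
      rw [div_le_iff₀ (by linarith)]
      have := hC (N + 1)
      push_cast at this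
      nlinarith
    have a5 : 0 ≤ (C + 3) / N := by positivity
    have a6 : Ψ N = S N - Chebyshev.theta N / N - smooth (N + 1) / (N + 1) -
      (1 - ε) * log N + (C + 3) / N := rfl
    have a7 : log N - 1 ≤ S N := a2
    linarith
  have ht : Tendsto (fun N : ℕ => ε * log N) atTop atTop :=
    (tendsto_log_atTop.comp tendsto_natCast_atTop_atTop).const_mul_atTop hε
  obtain ⟨N, h1, h2⟩ := ((ht.eventually_gt_atTop (Ψ 1 + C + 4)).and (eventually_ge_atTop 1)).exists
  linarith [hbd N h2]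

theorem smooth_le (N : ℕ) :
    smooth N ≤ log N * (Nat.primeCounting N * log N - Chebyshev.theta N) := by
  rw [Chebyshev.theta_eq_sum_primesLE_log, ← Nat.primesLE_card_eq_primeCounting, ← nsmul_eq_mul,
    ← sum_const, ← sum_sub_distrib, mul_sum]
  refine sum_le_sum fun p hp => ?_
  have h : log p ≤ log N := log_le_log (by exact_mod_cast (Nat.prime_of_mem_primesLE hp).pos)
    (by exact_mod_cast Nat.le_of_mem_primesLE hp)
  exact mul_le_mul_of_nonneg_right h (sub_nonneg.2 h)

theorem rad_le {u v r x : ℕ} (huv : v < u) (hm : u ≡ v [MOD 2 ^ r]) (hx : 2 ≤ x)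
    (hu : ∀ p, p.Prime → p ∣ u → p ≤ x) (hv' : ∀ p, p.Prime → p ∣ v → p ≤ x) :
    (∏ p ∈ (v * (u - v) * u).primeFactors, p) * 2 ^ r ≤ primorial x * u := by
  obtain ⟨t, ht⟩ : 2 ^ r ∣ u - v := (Nat.modEq_iff_dvd' huv.le).1 hm.symm
  have ht0 : t ≠ 0 := by rintro rfl; omega
  have h1 : (v * (u - v) * u).primeFactors ⊆ Nat.primesLE x ∪ t.primeFactors := fun p hp => by
    have hp1 := Nat.prime_of_mem_primeFactors hp
    rcases (Nat.Prime.dvd_mul hp1).1 (Nat.dvd_of_mem_primeFactors hp) with h | h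
    · rcases (Nat.Prime.dvd_mul hp1).1 h with h | h
      · exact mem_union_left _ (Nat.mem_primesLE.2 ⟨hv' p hp1 h, hp1⟩)
      · rw [ht] at h
        rcases (Nat.Prime.dvd_mul hp1).1 h with h | h
        · exact mem_union_left _ (Nat.mem_primesLE.2
            ⟨(Nat.le_of_dvd two_pos (hp1.dvd_of_dvd_pow h)).trans hx, hp1⟩)
        · exact mem_union_right _ (Nat.mem_primeFactors.2 ⟨hp1, h, ht0⟩)
    · exact mem_union_left _ (Nat.mem_primesLE.2 ⟨hu p hp1 h, hp1⟩)
  have hpos : ∀ p ∈ Nat.primesLE x ∪ t.primeFactors, 1 ≤ p := fun p hp => by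
    rcases mem_union.1 hp with h | h
    · exact (Nat.prime_of_mem_primesLE h).pos
    · exact (Nat.prime_of_mem_primeFactors h).pos
  have h2 : ∏ p ∈ (v * (u - v) * u).primeFactors, p ≤ primorial x * t := by
    refine (prod_le_prod_of_subset_of_one_le' h1 fun p hp _ => hpos p hp).trans ?_
    refine (Nat.le_mul_of_pos_right _ (prod_pos (s := Nat.primesLE x ∩ t.primeFactors)
      (f := fun p => p) fun p hp => hpos p (mem_union_left _ (mem_inter.1 hp).1))).trans ?_
    rw [prod_union_inter]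
    exact Nat.mul_le_mul_left _ (Nat.le_of_dvd (Nat.pos_of_ne_zero ht0) (Nat.prod_primeFactors_dvd t))
  calc _ ≤ primorial x * t * 2 ^ r := Nat.mul_le_mul_right _ h2
    _ = primorial x * (u - v) := by rw [ht]; ring
    _ ≤ _ := Nat.mul_le_mul_left _ (Nat.sub_le _ _)

theorem exists_triple {x n r Q : ℕ} (hx : 2 ≤ x) (hn : n + 1 = Nat.primeCounting x) (R : ℝ)
    [NeZero Q] (hQ : R < Q)
    (h : ∀ γ : (Fin n → ℕ) → ZMod (2 ^ r) × ZMod Q,
      ∃ e e', e ≠ e' ∧ γ e = γ e' ∧ ∑ j, |(e j : ℝ) - e' j| ≤ R) :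
    ∃ a b c : ℕ, 0 < a ∧ 0 < b ∧ a + b = c ∧ Nat.Coprime a b ∧
      (∏ p ∈ (a * b * c).primeFactors, p) * 2 ^ r ≤ primorial x * c ∧ log c ≤ R / 2 * log x := by
  have hP : ((Nat.primesLE x).erase 2).card = n := by
    rw [card_erase_of_mem (Nat.mem_primesLE.2 ⟨hx, Nat.prime_two⟩),
      Nat.primesLE_card_eq_primeCounting]
    omega
  let p : Fin n → ℕ := ((Nat.primesLE x).erase 2).orderEmbOfFin hP
  have hinj : Function.Injective p := (((Nat.primesLE x).erase 2).orderEmbOfFin hP).injective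
  have hmem : ∀ j, p j ∈ (Nat.primesLE x).erase 2 := fun j => orderEmbOfFin_mem _ hP j
  have hpr : ∀ j, (p j).Prime := fun j => Nat.prime_of_mem_primesLE (mem_of_mem_erase (hmem j))
  have hle : ∀ j, p j ≤ x := fun j => Nat.le_of_mem_primesLE (mem_of_mem_erase (hmem j))
  let m : (Fin n → ℕ) → ℕ := fun e => ∏ j, p j ^ e j
  have hm0 : ∀ e, 0 < m e := fun e => prod_pos fun j _ => pow_pos (hpr j).pos _
  have hmp : ∀ e q, q.Prime → q ∣ m e → q ≤ x := fun e q hq hd => by
    obtain ⟨j, _, hj⟩ := (Prime.dvd_finsetProd_iff hq.prime _).1 hd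
    exact (Nat.le_of_dvd (hpr j).pos (hq.dvd_of_dvd_pow hj)).trans (hle j)
  obtain ⟨e, e', hne, hγ, hd⟩ := h fun e => ((m e : ℕ), (∑ j, e j : ℕ))
  have h1 : m e ≡ m e' [MOD 2 ^ r] := (ZMod.natCast_eq_natCast_iff _ _ _).1 (congrArg Prod.fst hγ)
  have h2 : ∑ j, e j ≡ ∑ j, e' j [MOD Q] :=
    (ZMod.natCast_eq_natCast_iff _ _ _).1 (congrArg Prod.snd hγ)
  have h3 : ∑ j, e j = ∑ j, e' j := by
    refine h2.eq_of_abs_lt ?_
    have : |((∑ j, e' j : ℕ) : ℝ) - (∑ j, e j : ℕ)| < Q := by
      push_cast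
      rw [abs_sub_comm, ← sum_sub_distrib]
      exact ((abs_sum_le_sum_abs _ _).trans hd).trans_lt hQ
    exact_mod_cast this
  have key : ∀ e e' : Fin n → ℕ, ∑ j, e j = ∑ j, e' j → ∑ j, |(e j : ℝ) - e' j| ≤ R →
      log (m (e - e')) ≤ R / 2 * log x := fun e e' h3 hd => by
    have a1 : ∀ j, (((e - e') j : ℕ) : ℝ) = (|(e j : ℝ) - e' j| + ((e j : ℝ) - e' j)) / 2 := by
      intro j
      rcases le_total (e j) (e' j) with h | h
      · have h' : (e j : ℝ) ≤ e' j := by exact_mod_cast h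
        rw [Pi.sub_apply, Nat.sub_eq_zero_of_le h, abs_of_nonpos (by linarith)]
        simp
      · have h' : (e' j : ℝ) ≤ e j := by exact_mod_cast h
        rw [Pi.sub_apply, Nat.cast_sub h, abs_of_nonneg (by linarith)]
        ring
    have a2 : ∑ j, (((e - e') j : ℕ) : ℝ) ≤ R / 2 := by
      have : ∑ j, (e j : ℝ) = ∑ j, (e' j : ℝ) := by exact_mod_cast h3
      simp only [a1]
      rw [← sum_div, sum_add_distrib, sum_sub_distrib, this]
      linarith
    calc log (m (e - e')) = ∑ j, ((e - e') j : ℕ) * log (p j) := by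
          simp only [m]
          push_cast
          rw [log_prod fun j _ => pow_ne_zero _ (by exact_mod_cast (hpr j).ne_zero)]
          simp only [log_pow]
      _ ≤ ∑ j, ((e - e') j : ℕ) * log x := sum_le_sum fun j _ => mul_le_mul_of_nonneg_left
          (log_le_log (by exact_mod_cast (hpr j).pos) (by exact_mod_cast hle j))
          (Nat.cast_nonneg _)
      _ ≤ _ := by
          rw [← sum_mul]
          exact mul_le_mul_of_nonneg_right a2 (log_natCast_nonneg _)
  have hsplit : ∀ e e' : Fin n → ℕ, m e = m (e ⊓ e') * m (e - e') := fun e e' => by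
    simp only [m, ← prod_mul_distrib, ← pow_add]
    refine prod_congr rfl fun j _ => ?_
    congr 1
    simp only [Pi.inf_apply, Pi.sub_apply]
    omega
  have h4 : m (e - e') ≡ m (e' - e) [MOD 2 ^ r] := by
    rw [hsplit e e', hsplit e' e, inf_comm e' e] at h1
    refine h1.cancel_left_of_coprime (Nat.Coprime.pow_left _ ?_)
    refine Nat.Coprime.prod_right fun j _ => Nat.Coprime.pow_right _ ?_
    exact (Nat.coprime_primes Nat.prime_two (hpr j)).2 (ne_of_mem_erase (hmem j)).symm
  have h5 : Nat.Coprime (m (e - e')) (m (e' - e)) := by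
    refine Nat.Coprime.prod_left fun i _ => Nat.Coprime.prod_right fun j _ => ?_
    rcases eq_or_ne i j with rfl | hij
    · rcases le_total (e i) (e' i) with h | h <;> simp [Nat.sub_eq_zero_of_le h]
    · exact Nat.coprime_pow_primes _ _ (hpr i) (hpr j) (hinj.ne hij)
  have h6 : m (e - e') ≠ m (e' - e) := fun h => by
    have a1 : ∀ f : Fin n → ℕ, m f = 1 → ∀ j, f j = 0 := fun f hf j => by
      have := (prod_eq_one_iff.1 hf) j (mem_univ j)
      exact (Nat.pow_eq_one.1 this).resolve_left (hpr j).ne_one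
    have a2 : m (e' - e) = 1 := by rw [h] at h5; exact Nat.coprime_self _ |>.1 h5
    refine hne (funext fun j => ?_)
    have b1 := a1 _ a2 j
    have b2 := a1 _ (h.trans a2) j
    simp only [Pi.sub_apply] at b1 b2
    omega
  rcases lt_or_gt_of_ne h6 with h7 | h7
  · refine ⟨_, _, _, hm0 _, Nat.sub_pos_of_lt h7, Nat.add_sub_cancel' h7.le,
      (Nat.coprime_sub_self_right h7.le).2 h5, rad_le h7 h4.symm hx (hmp _) (hmp _),
      key e' e h3.symm (by simpa only [abs_sub_comm] using hd)⟩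
  · exact ⟨_, _, _, hm0 _, Nat.sub_pos_of_lt h7, Nat.add_sub_cancel' h7.le,
      (Nat.coprime_sub_self_right h7.le).2 h5.symm, rad_le h7 h4 hx (hmp _) (hmp _),
      key e e' h3 hd⟩

end Pool.Agent.P.MP_dc323a_nt.Ext
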