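import Pool.Agent.P.MP_dc323a_nt.XData
import Pool.Agent.P.MP_dc323a_nt.XPrimes

set_option autoImplicit false

namespace Pool.Agent.P.MP_dc323a_nt.Ext

open Finset Filter Real

theorem sqrt_div_log_mono {u v : ℝ} (hu : 9 ≤ u) (huv : u ≤ v) :
    √u / log u ≤ √v / log v := by
  have hu0 : 0 < u := by linarith
  have h2 : 2 ≤ log u := by
    rw [le_log_iff_exp_le hu0, show (2 : ℝ) = 1 + 1 by norm_num, exp_add]
    have := exp_one_lt_d9
    have := exp_pos 1
    nlinarith
  have h3 : log u ≤ log v := log_le_log hu0 huv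
  have hs : 0 < √u := sqrt_pos.2 hu0
  have hs' : √u ≤ √v := sqrt_le_sqrt huv
  have h4 := log_le_sub_one_of_pos (show 0 < √v / √u from div_pos (hs.trans_le hs') hs)
  rw [log_div (hs.trans_le hs').ne' hs.ne', log_sqrt (hu0.le.trans huv), log_sqrt hu0.le,
    div_sub_one hs.ne', le_div_iff₀ hs] at h4
  rw [div_le_div_iff₀ (by linarith) (by linarith)]
  nlinarith [mul_nonneg (sub_nonneg.2 hs') (sub_nonneg.2 h2)]

theorem final_ineq {x k A g h : ℝ} (hx : 0 < x) (hL : 10 ^ 6 ≤ log x)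
    (hL2 : log x ^ 2 ≤ x / 10 ^ 6) (hk : x / 2 ≤ k * log x)
    (hA : (1 - 1 / 10 ^ 5) * x ≤ log x * A) (hg : A + k - 6 * log x ≤ g) (hgh : g ≤ h)
    (hh : h ≤ 0.58472 ^ 2 * (k * x * log x)) :
    log x ≤ g ∧ 6.84 * √h / log h < g := by
  set L := log x with hLx
  have hL0 : 0 < L := by linarith
  have hk0 : 0 < k := (mul_pos_iff_of_pos_right hL0).1 (by linarith)
  have hA0 : 0 < A := (mul_pos_iff_of_pos_left hL0).1 (by linarith)
  obtain ⟨y, hy0, hy⟩ : ∃ y : ℝ, 0 < y ∧ y ^ 2 * L = k * x :=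
    ⟨√(k * x / L), by positivity, by rw [sq_sqrt (by positivity), div_mul_cancel₀ _ hL0.ne']⟩
  have h1 : x ≤ 2 * y * L := by
    refine (pow_le_pow_iff_left₀ hx.le (by positivity) two_ne_zero).1 ?_
    have : (2 * y * L) ^ 2 = 4 * (k * L) * x := by
      calc (2 * y * L) ^ 2 = 4 * (y ^ 2 * L) * L := by ring
        _ = _ := by rw [hy]; ring
    rw [this]
    nlinarith
  have h2 : 5 * 10 ^ 5 * L ≤ y := by
    refine le_of_mul_le_mul_right ?_ hL0
    nlinarith
  have h3 : 2 * (1 - 1 / 10 ^ 5) * y ≤ A + k := by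
    refine (pow_le_pow_iff_left₀ (by positivity) (by positivity) two_ne_zero).1 ?_
    have a1 : (1 - 1 / 10 ^ 5) * y ^ 2 ≤ A * k := by
      refine le_of_mul_le_mul_right ?_ hL0
      calc (1 - 1 / 10 ^ 5) * y ^ 2 * L = (1 - 1 / 10 ^ 5) * x * k := by
            rw [mul_assoc, hy]; ring
        _ ≤ L * A * k := mul_le_mul_of_nonneg_right hA hk0.le
        _ = _ := by ring
    nlinarith [sq_nonneg (A - k), sq_nonneg y]
  have h4 : 2 * (1 - 2 / 10 ^ 5) * y ≤ g := by linarith
  have h5 : 0.58472 ^ 2 * (k * x * L) = (0.58472 * y * L) ^ 2 := by rw [← hy]; ring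
  have h6 : 2 * (1 - 1 / 10 ^ 5) * L ≤ log ((0.58472 * y * L) ^ 2) := by
    have a1 : log (x * (1 / 4)) ≤ log (0.58472 * y * L) := log_le_log (by positivity) (by
      have : 0 < y * L := by positivity
      nlinarith)
    have a2 := one_sub_inv_le_log_of_pos (show (0 : ℝ) < 1 / 4 by norm_num)
    rw [log_mul hx.ne' (by norm_num)] at a1
    rw [log_pow]
    push_cast
    norm_num at a2 a1 ⊢
    linarith
  refine ⟨by linarith, ?_⟩
  have h7 := sqrt_div_log_mono (u := h) (by linarith) hh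
  rw [h5, sqrt_sq (by positivity)] at h7
  have h8 : 0.58472 * y * L / log ((0.58472 * y * L) ^ 2) ≤
      0.58472 * y * L / (2 * (1 - 1 / 10 ^ 5) * L) :=
    div_le_div_of_nonneg_left (by positivity) (by positivity) h6
  rw [mul_div_mul_right _ _ hL0.ne'] at h8
  have h9 : 6.84 * (0.58472 * y / (2 * (1 - 1 / 10 ^ 5))) < 2 * (1 - 2 / 10 ^ 5) * y := by
    rw [← mul_div_assoc, div_lt_iff₀ (by norm_num)]
    linarith
  rw [mul_div_assoc]
  linarith

theorem extremal (B : ℕ) : ∃ a b c : ℕ, B ≤ c ∧ 0 < a ∧ 0 < b ∧ a + b = c ∧ Nat.Coprime a b ∧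
    ((∏ p ∈ (a * b * c).primeFactors, p : ℕ) : ℝ) *
      exp (6.84 * √(log c) / log (log c)) < c := by
  obtain ⟨τ, Λ, C, hΛ, hC, hτ, h⟩ := short_main
  have hτ0 : 0 < τ := by linarith
  have t0 : Tendsto (fun x : ℕ => (x : ℝ)) atTop atTop := tendsto_natCast_atTop_atTop
  have t1 : Tendsto (fun x : ℕ => Nat.primeCounting x - 1) atTop atTop :=
    (tendsto_sub_atTop_nat 1).comp Nat.tendsto_primeCounting
  have e1 := t0.eventually ((isLittleO_pow_log_id_atTop (n := 2)).bound
    (show (0 : ℝ) < 1 / 10 ^ 6 by norm_num))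
  have e2 := (tendsto_log_atTop.comp t0).eventually_ge_atTop (10 ^ 6)
  obtain ⟨x, hx1, ⟨⟨⟨⟨hx2, hx3⟩, hx4⟩, hx5⟩, hx6⟩, hx7⟩ :=
    ((frequently_smooth (ε := 1 / 10 ^ 5) (by norm_num) (by norm_num)).and_eventually
      ((((((t1.eventually h).and e1).and e2).and (eventually_ge_atTop (B + 2))).and
        (t0.eventually_ge_atTop (4 * C))).and (t0.eventually_ge_atTop (10 ^ 5 * Λ)))).exists
  have hx : 2 ≤ x := by omega
  have hx' : (2 : ℝ) ≤ x := by exact_mod_cast hx
  have hx0 : (0 : ℝ) < x := by linarith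
  have hL : (10 : ℝ) ^ 6 ≤ log x := hx4
  have hL2 : log x ^ 2 ≤ (x : ℝ) / 10 ^ 6 := by
    rw [id, norm_of_nonneg (sq_nonneg _), norm_of_nonneg hx0.le] at hx3
    linarith
  have hk : (x : ℝ) / 2 ≤ Nat.primeCounting x * log x := by
    have a1 := Chebyshev.pi_ge x
    rw [div_le_iff₀ (by linarith)] at a1
    have a2 : log ((x : ℝ) + 1) ≤ log ((x : ℝ) ^ 2) := log_le_log (by linarith) (by nlinarith)
    rw [log_pow] at a2
    push_cast at a2
    have := log_two_gt_d9
    nlinarith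
  obtain ⟨n, hn⟩ : ∃ n, n + 1 = Nat.primeCounting x := by
    refine ⟨Nat.primeCounting x - 1, Nat.sub_add_cancel (Nat.pos_of_ne_zero fun h => ?_)⟩
    rw [h] at hk
    simp only [Nat.cast_zero, zero_mul] at hk
    linarith
  rw [← hn, Nat.add_sub_cancel] at hx2
  have hn' : (n : ℝ) + 1 = Nat.primeCounting x := by exact_mod_cast hn
  have hnx : (n : ℝ) + 1 ≤ x := by
    have : Nat.primeCounting x ≤ x := by
      rw [← Nat.primesLE_card_eq_primeCounting, Nat.primesLE_eq_filter_Ioc_zero]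
      exact (card_filter_le _ _).trans (by simp)
    rw [hn']
    exact_mod_cast this
  have hn0 : (0 : ℝ) ≤ n := Nat.cast_nonneg _
  let D : ℕ := ⌈exp 1 * x / τ⌉₊
  have hD0 : 0 < D := Nat.ceil_pos.2 (by positivity)
  have hD1 : exp 1 * x ≤ D * τ := (div_le_iff₀ hτ0).1 (Nat.le_ceil _)
  have hD2 : D * Λ ≤ 2 * 0.58472 ^ 2 * x := by
    have a1 : (D : ℝ) ≤ exp 1 * x / τ + 1 := (Nat.ceil_lt_add_one (by positivity)).le
    have a2 : exp 1 * x / τ * Λ ≤ 2.7182818286 / 3.976 * x := by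
      rw [div_mul_eq_mul_div, div_le_iff₀ hτ0]
      have := exp_one_lt_d9.le
      calc exp 1 * x * Λ ≤ 2.7182818286 * x * Λ := by gcongr
        _ = 2.7182818286 / 3.976 * x * (3.976 * Λ) := by ring
        _ ≤ _ := by gcongr
    have a3 := mul_le_mul_of_nonneg_right a1 hΛ.le
    rw [add_mul, one_mul] at a3
    linarith
  let Q : ℕ := ⌊n * D * Λ⌋₊ + 1
  have hQ1 : n * D * Λ < Q := by
    simp only [Q]
    push_cast
    exact Nat.lt_floor_add_one _
  have hQ2 : (Q : ℝ) ≤ x ^ 2 := by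
    have a1 : (⌊n * D * Λ⌋₊ : ℝ) ≤ n * D * Λ := Nat.floor_le (by positivity)
    have a2 : n * (D * Λ) ≤ n * x := mul_le_mul_of_nonneg_left (by linarith) hn0
    simp only [Q]
    push_cast
    nlinarith
  have hQ0 : (0 : ℝ) < Q := by positivity
  have hDτ : 0 < D * τ := by positivity
  let g : ℝ := log ((D * τ) ^ n) - log (4 * C * Q) - Chebyshev.theta x
  have hg : Nat.primeCounting x * log x - Chebyshev.theta x + Nat.primeCounting x - 6 * log x
      ≤ g := by
    have a1 : 1 + log x ≤ log (D * τ) := by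
      have := log_le_log (by positivity) hD1
      rwa [log_mul (exp_pos 1).ne' hx0.ne', log_exp] at this
    have a2 : log (4 * C * Q) ≤ log ((x : ℝ) ^ 3) := log_le_log (by positivity) (by
      calc 4 * C * Q ≤ x * x ^ 2 := by gcongr
        _ = _ := by ring)
    have a3 := mul_le_mul_of_nonneg_left a1 hn0
    rw [log_pow] at a2
    simp only [g]
    rw [log_pow, ← hn']
    push_cast at a2
    linarith
  have hfin := fun h' => final_ineq (h := h') hx0 hL hL2 hk (hx1.trans (smooth_le x)) hg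
  have hZ : 1 ≤ (D * τ) ^ n / (2 * C * Q) := by
    have a1 : 0 ≤ g := by
      have b1 : Chebyshev.theta x ≤ Nat.primeCounting x * log x := Chebyshev.theta_le_pi_mul_log x
      have b2 : 6 * log x ≤ Nat.primeCounting x := by
        refine le_of_mul_le_mul_right ?_ (show 0 < log x by linarith)
        nlinarith
      linarith
    have a2 : log (4 * C * Q) ≤ log ((D * τ) ^ n) := by
      have := Chebyshev.theta_nonneg x
      simp only [g] at a1
      linarith
    have a3 := (log_le_log_iff (by positivity) (by positivity)).1 a2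
    rw [le_div_iff₀ (by positivity)]
    have : 0 < C * Q := by positivity
    linarith
  obtain ⟨r, hr1, hr2⟩ := exists_nat_pow_near hZ one_lt_two
  rw [le_div_iff₀ (by positivity)] at hr1
  rw [div_lt_iff₀ (by positivity), pow_succ] at hr2
  obtain ⟨a, b, c, ha, hb, habc, hab, hrad, hc⟩ := exists_triple (r := r) (Q := Q) hx hn
    (n * D * Λ) hQ1 fun γ => hx2 D hD0 _ γ (by
      rw [Fintype.card_prod, ZMod.card, ZMod.card]
      push_cast
      have : 0 < (D * τ) ^ n := by positivity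
      linarith)
  have hc0 : (0 : ℝ) < c := by exact_mod_cast (show 0 < c by omega)
  have hR : 1 ≤ ∏ p ∈ (a * b * c).primeFactors, p :=
    prod_pos fun p hp => (Nat.prime_of_mem_primeFactors hp).pos
  generalize hRd : ∏ p ∈ (a * b * c).primeFactors, p = R at hrad hR
  have hR' : (1 : ℝ) ≤ R := by exact_mod_cast hR
  have hexp : R * exp g ≤ c := by
    have a1 : (R : ℝ) * 2 ^ r ≤ primorial x * c := by exact_mod_cast hrad
    have a2 : (0 : ℝ) < primorial x := by exact_mod_cast primorial_pos x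
    have a3 : exp g = (D * τ) ^ n / (4 * C * Q) / primorial x := by
      simp only [g]
      rw [exp_sub, exp_sub, exp_log (by positivity), exp_log (by positivity),
        Chebyshev.theta_eq_log_primorial, Nat.floor_natCast, exp_log a2]
    rw [a3, ← mul_div_assoc, div_le_iff₀ a2]
    have a4 : (D * τ) ^ n / (4 * C * Q) ≤ 2 ^ r := by
      rw [div_le_iff₀ (by positivity)]
      linarith
    calc _ ≤ (R : ℝ) * 2 ^ r := by gcongr
      _ ≤ _ := by linarith
  have hgc : g ≤ log c := by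
    rw [le_log_iff_exp_le hc0]
    exact (le_mul_of_one_le_left (exp_pos g).le hR').trans hexp
  obtain ⟨f1, f2⟩ := hfin (log c) hgc (hc.trans (by
    rw [← hn']
    have a1 : n * (D * Λ) ≤ (n + 1) * (2 * 0.58472 ^ 2 * x) := by gcongr; linarith
    have a2 := mul_le_mul_of_nonneg_right a1 (show 0 ≤ log x by linarith)
    linarith))
  refine ⟨a, b, c, ?_, ha, hb, habc, hab, lt_of_lt_of_le ?_ hexp⟩
  · have : (x : ℝ) ≤ c := (log_le_log_iff hx0 hc0).1 (f1.trans hgc)
    have : x ≤ c := by exact_mod_cast this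
    omega
  · rw [hRd]
    exact mul_lt_mul_of_pos_left (exp_lt_exp.2 f2) (one_pos.trans_le hR')

end Pool.Agent.P.MP_dc323a_nt.Ext
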