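import Pool.Agent.P.MP_dc323a_nt.XLP

set_option autoImplicit false

namespace Pool.Agent.P.MP_dc323a_nt.Ext

open Finset Matrix Filter Topology

theorem neg_abs {X : Type*} [Fintype X] (f : X → ℕ) (c : X → ℝ) (hc : ∑ y, c y = 0) :
    ∑ y, ∑ z, c y * c z * |(f y : ℝ) - f z| ≤ 0 := by
  let P := univ.sup f
  let e : ℕ → X → ℝ := fun t y => if t < f y then 1 else 0
  have h1 : ∀ y z, |(f y : ℝ) - f z| = f y + f z - 2 * ∑ t ∈ range P, e t y * e t z := by
    intro y z
    have a1 : ∑ t ∈ range P, e t y * e t z = (min (f y) (f z) : ℕ) := by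
      have : ∀ t, e t y * e t z = if t < min (f y) (f z) then 1 else 0 := fun t => by
        simp only [e, lt_min_iff]
        by_cases h1 : t < f y <;> by_cases h2 : t < f z <;> simp [h1, h2]
      simp only [this, sum_boole]
      congr 1
      refine Eq.trans ?_ (card_range (min (f y) (f z)))
      congr 1
      ext t
      have : f y ≤ P := le_sup (mem_univ y)
      simp only [mem_filter, mem_range]
      omega
    rw [a1]
    rcases le_total (f y) (f z) with h | h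
    · have h' : (f y : ℝ) ≤ f z := by exact_mod_cast h
      rw [min_eq_left h, abs_of_nonpos (by linarith)]; ring
    · have h' : (f z : ℝ) ≤ f y := by exact_mod_cast h
      rw [min_eq_right h, abs_of_nonneg (by linarith)]; ring
  have h2 : ∑ y, ∑ z, c y * c z * |(f y : ℝ) - f z| =
      (∑ y, c y * f y) * (∑ z, c z) + (∑ y, c y) * (∑ z, c z * f z) -
        2 * ∑ t ∈ range P, (∑ y, c y * e t y) * ∑ z, c z * e t z := by
    simp only [sum_mul_sum]
    rw [sum_comm (s := range P), mul_sum, ← sum_add_distrib, ← sum_sub_distrib]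
    refine sum_congr rfl fun y _ => ?_
    rw [sum_comm (s := range P), mul_sum, ← sum_add_distrib, ← sum_sub_distrib]
    refine sum_congr rfl fun z _ => ?_
    have : ∑ t ∈ range P, c y * e t y * (c z * e t z) =
        c y * c z * ∑ t ∈ range P, e t y * e t z := by
      rw [mul_sum]; exact sum_congr rfl fun t _ => by ring
    rw [h1, this]
    ring
  rw [h2, hc]
  have : 0 ≤ ∑ t ∈ range P, (∑ y, c y * e t y) * ∑ z, c z * e t z :=
    sum_nonneg fun t _ => mul_self_nonneg _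
  linarith

theorem sum_pi {n : ℕ} {I : Type*} [Fintype I] (f : Fin n → I → ℝ) :
    ∑ α : Fin n → I, ∏ j, f j (α j) = ∏ j, ∑ i, f j i := by
  classical
  rw [prod_univ_sum, Fintype.piFinset_univ]

theorem sum_pi' (n : ℕ) {I : Type*} [Fintype I] (f : I → ℝ) :
    ∑ α : Fin n → I, ∏ j, f (α j) = (∑ i, f i) ^ n := by
  rw [sum_pi (fun _ => f), prod_const, card_univ, Fintype.card_fin]

theorem sum_pi2 {n : ℕ} {I : Type*} [Fintype I] (f : Fin n → I → I → ℝ) :
    ∑ α : Fin n → I, ∑ β : Fin n → I, ∏ j, f j (α j) (β j) = ∏ j, ∑ i, ∑ i', f j i i' := by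
  rw [← sum_pi (fun j i => ∑ i', f j i i')]
  exact sum_congr rfl fun α _ => sum_pi (fun j i' => f j (α j) i')

variable {L I : Type} [Fintype L] [Fintype I]

/-- The one letter kernel. -/
def ker (b : L → I → ℝ) (a a' : L) : ℝ := ∑ i, b a i * b a' i
/-- Row masses. -/
def mu (b : L → I → ℝ) (a : L) : ℝ := ∑ a', ker b a a' ^ 2
/-- Column masses. -/
def gam (b : L → I → ℝ) (i : I) : ℝ := ∑ j, (∑ a, b a i * b a j) ^ 2
/-- The tensor power. -/
def tens {n : ℕ} (b : L → I → ℝ) (y : Fin n → L) (α : Fin n → I) : ℝ := ∏ j, b (y j) (α j)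
/-- The truncated kernel. -/
def kerS {n : ℕ} (b : L → I → ℝ) (S : Finset (Fin n → I)) (y z : Fin n → L) : ℝ :=
  ∑ α ∈ S, tens b y α * tens b z α
/-- The distance of two words. -/
def dis {n : ℕ} (pos : L → ℕ) (y z : Fin n → L) : ℝ := ∑ j, |(pos (y j) : ℝ) - pos (z j)|
/-- The type of a word. -/
def cnt [DecidableEq L] {n : ℕ} (y : Fin n → L) (a : L) : ℕ := #{j | y j = a}

theorem mu_nonneg (b : L → I → ℝ) (a : L) : 0 ≤ mu b a := sum_nonneg fun _ _ => sq_nonneg _
theorem gam_nonneg (b : L → I → ℝ) (i : I) : 0 ≤ gam b i := sum_nonneg fun _ _ => sq_nonneg _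
theorem sum_gam (b : L → I → ℝ) : ∑ i, gam b i = ∑ a, mu b a := (gram_sq b univ univ).symm

omit [Fintype L] in
theorem kerS_univ {n : ℕ} (b : L → I → ℝ) (y z : Fin n → L) :
    kerS b univ y z = ∏ j, ker b (y j) (z j) := by
  simp only [kerS, tens, ← prod_mul_distrib]
  exact sum_pi (fun j i => b (y j) i * b (z j) i)

theorem row_mass {n : ℕ} (b : L → I → ℝ) (y : Fin n → L) :
    ∑ z, kerS b univ y z ^ 2 = ∏ j, mu b (y j) := by
  simp only [kerS_univ, ← prod_pow]
  exact sum_pi (fun j a => ker b (y j) a ^ 2)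

theorem energy_le {n : ℕ} (b : L → I → ℝ) (pos : L → ℕ) (lam : ℝ)
    (hE : ∑ a, ∑ a', |(pos a : ℝ) - pos a'| * ker b a a' ^ 2 ≤ lam * ∑ a, mu b a) :
    ∑ y : Fin n → L, ∑ z, dis pos y z * kerS b univ y z ^ 2 ≤ n * lam * (∑ a, mu b a) ^ n := by
  have h1 : ∀ j0 : Fin n, ∑ y : Fin n → L, ∑ z : Fin n → L,
      |(pos (y j0) : ℝ) - pos (z j0)| * kerS b univ y z ^ 2 ≤ lam * (∑ a, mu b a) ^ n := by
    intro j0
    have a1 : ∀ y z : Fin n → L, |(pos (y j0) : ℝ) - pos (z j0)| * kerS b univ y z ^ 2 =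
        ∏ j, (if j = j0 then |(pos (y j) : ℝ) - pos (z j)| else 1) * ker b (y j) (z j) ^ 2 := by
      intro y z
      rw [prod_mul_distrib, prod_ite_eq', if_pos (mem_univ _), kerS_univ, prod_pow]
    simp only [a1]
    rw [sum_pi2 (fun j a a' => (if j = j0 then |(pos a : ℝ) - pos a'| else 1) * ker b a a' ^ 2)]
    calc _ ≤ ∏ j : Fin n, (if j = j0 then lam else 1) * ∑ a, mu b a := by
          refine prod_le_prod (fun j _ => sum_nonneg fun a _ => sum_nonneg fun a' _ => ?_)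
            fun j _ => ?_
          · split_ifs <;> positivity
          · split_ifs
            · exact hE
            · simp [mu]
      _ = _ := by
          rw [prod_mul_distrib, prod_ite_eq', if_pos (mem_univ _), prod_const, card_univ,
            Fintype.card_fin]
  calc _ = ∑ j0 : Fin n, ∑ y : Fin n → L, ∑ z : Fin n → L,
        |(pos (y j0) : ℝ) - pos (z j0)| * kerS b univ y z ^ 2 := by
        simp only [dis, sum_mul]
        symm
        rw [sum_comm]
        exact sum_congr rfl fun y _ => sum_comm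
    _ ≤ ∑ j0 : Fin n, lam * (∑ a, mu b a) ^ n := sum_le_sum fun j0 _ => h1 j0
    _ = _ := by rw [sum_const, card_univ, Fintype.card_fin, nsmul_eq_mul, mul_assoc]

theorem tail_le {n : ℕ} (b : L → I → ℝ) (s : I → ℝ) (hs : ∀ i, 0 ≤ s i)
    (S : Finset (Fin n → I)) (hS : ∀ α ∈ S, 1 ≤ ∏ j, s (α j)) :
    ∑ y : Fin n → L, ∑ z, kerS b S y z ^ 2 ≤ (∑ i, gam b i * s i) ^ n := by
  have h1 : ∀ α β : Fin n → I, ∑ y : Fin n → L, tens b y α * tens b y β =
      ∏ j, ∑ a, b a (α j) * b a (β j) := fun α β => by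
    simp only [tens, ← prod_mul_distrib]
    exact sum_pi (fun j a => b a (α j) * b a (β j))
  calc _ = ∑ α ∈ S, ∑ β ∈ S, (∑ y : Fin n → L, tens b y α * tens b y β) ^ 2 :=
        gram_sq (tens b) univ S
    _ ≤ ∑ α ∈ S, ∑ β, (∑ y : Fin n → L, tens b y α * tens b y β) ^ 2 :=
        sum_le_sum fun α _ => sum_le_sum_of_subset_of_nonneg (subset_univ _)
          fun _ _ _ => sq_nonneg _
    _ = ∑ α ∈ S, ∏ j, gam b (α j) := by
        refine sum_congr rfl fun α _ => ?_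
        simp only [h1, ← prod_pow]
        exact sum_pi (fun j i => (∑ a, b a (α j) * b a i) ^ 2)
    _ ≤ ∑ α ∈ S, ∏ j, gam b (α j) * s (α j) := by
        refine sum_le_sum fun α hα => ?_
        rw [prod_mul_distrib]
        exact le_mul_of_one_le_right (prod_nonneg fun j _ => gam_nonneg _ _) (hS α hα)
    _ ≤ ∑ α : Fin n → I, ∏ j, gam b (α j) * s (α j) :=
        sum_le_sum_of_subset_of_nonneg (subset_univ _)
          fun _ _ _ => prod_nonneg fun j _ => mul_nonneg (gam_nonneg _ _) (hs _)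
    _ = _ := sum_pi' n (fun i => gam b i * s i)

theorem card_le {n : ℕ} (b : L → I → ℝ) (s : I → ℝ) (hs : ∀ i, 0 ≤ s i) (m : ℕ) (c : ℝ)
    (hc : 0 ≤ c) (h : ∀ i, c ≤ gam b i * s i ^ m)
    (S : Finset (Fin n → I)) (hS : ∀ α ∈ S, ∏ j, s (α j) ≤ 1) :
    S.card * c ^ n ≤ (∑ a, mu b a) ^ n := by
  calc S.card * c ^ n = ∑ α ∈ S, ∏ j : Fin n, c := by
        rw [prod_const, card_univ, Fintype.card_fin, sum_const, nsmul_eq_mul]
    _ ≤ ∑ α ∈ S, ∏ j, gam b (α j) := by
        refine sum_le_sum fun α hα => (prod_le_prod (fun _ _ => hc) fun j _ => h (α j)).trans ?_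
        rw [prod_mul_distrib, prod_pow]
        exact mul_le_of_le_one_right (prod_nonneg fun j _ => gam_nonneg _ _)
          (pow_le_one₀ (prod_nonneg fun j _ => hs _) (hS α hα))
    _ ≤ ∑ α : Fin n → I, ∏ j, gam b (α j) :=
        sum_le_sum_of_subset_of_nonneg (subset_univ _)
          fun _ _ _ => prod_nonneg fun j _ => gam_nonneg _ _
    _ = _ := by rw [sum_pi', sum_gam]

theorem mass_le {n : ℕ} (b : L → I → ℝ) (g : L → ℝ) (hg : ∀ a, 0 ≤ g a) (m : ℕ) (c : ℝ)
    (hc : 0 ≤ c) (h : ∀ a, mu b a ≤ c * g a ^ m) (S : Finset (Fin n → L)) :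
    ∑ y ∈ S, ∏ j, mu b (y j) ≤ S.card * c ^ n + (∑ a, mu b a * g a) ^ n := by
  have h0 : ∀ y : Fin n → L, 0 ≤ ∏ j, mu b (y j) * g (y j) := fun y =>
    prod_nonneg fun j _ => mul_nonneg (mu_nonneg _ _) (hg _)
  calc _ ≤ ∑ y ∈ S, (c ^ n + ∏ j, mu b (y j) * g (y j)) := by
        refine sum_le_sum fun y _ => ?_
        rcases le_total (∏ j, g (y j)) 1 with h1 | h1
        · refine le_add_of_le_of_nonneg
            ((prod_le_prod (fun j _ => mu_nonneg _ _) fun j _ => h (y j)).trans ?_) (h0 y)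
          rw [prod_mul_distrib, prod_pow, prod_const, card_univ, Fintype.card_fin]
          exact mul_le_of_le_one_right (pow_nonneg hc _)
            (pow_le_one₀ (prod_nonneg fun j _ => hg _) h1)
        · refine le_add_of_nonneg_of_le (pow_nonneg hc _) ?_
          rw [prod_mul_distrib]
          exact le_mul_of_one_le_right (prod_nonneg fun j _ => mu_nonneg _ _) h1
    _ ≤ _ := by
        rw [sum_add_distrib, sum_const, nsmul_eq_mul, ← sum_pi' n (fun a => mu b a * g a)]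
        gcongr
        · exact fun y _ _ => h0 y
        · exact subset_univ _

theorem card_bad [DecidableEq L] (n : ℕ) (T : ℝ) (hT : 0 ≤ T) (S : Finset (Fin n → L))
    (hS : ∀ y ∈ S, (#{z : Fin n → L | cnt z = cnt y} : ℝ) ≤ T) :
    (S.card : ℝ) ≤ (n + 1) ^ Fintype.card L * T := by
  rw [card_eq_sum_card_image cnt S, Nat.cast_sum]
  calc _ ≤ ∑ c ∈ S.image cnt, T := by
        refine sum_le_sum fun c hc => ?_
        obtain ⟨y, hy, rfl⟩ := mem_image.1 hc
        refine le_trans ?_ (hS y hy)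
        exact_mod_cast card_le_card (filter_subset_filter _ (subset_univ _))
    _ ≤ _ := by
        rw [sum_const, nsmul_eq_mul]
        refine mul_le_mul_of_nonneg_right ?_ hT
        have h1 : S.image cnt ⊆ Fintype.piFinset fun _ : L => range (n + 1) := by
          intro c hc
          obtain ⟨y, _, rfl⟩ := mem_image.1 hc
          refine Fintype.mem_piFinset.2 fun a => mem_range.2 (Nat.lt_succ_of_le ?_)
          exact (card_le_univ _).trans (Fintype.card_fin n).le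
        have h2 := card_le_card h1
        rw [Fintype.card_piFinset, prod_const, card_range, card_univ] at h2
        exact_mod_cast h2

omit [Fintype L] in
theorem cnt_comp [DecidableEq L] {n : ℕ} (y : Fin n → L) (τ : Equiv.Perm (Fin n)) :
    cnt (y ∘ τ) = cnt y := by
  ext a
  exact card_equiv τ (by simp)

omit [Fintype L] in
theorem exists_perm [DecidableEq L] {n : ℕ} (y z : Fin n → L) (h : cnt z = cnt y) :
    ∃ τ : Equiv.Perm (Fin n), y ∘ τ = z := by
  have h1 : ∀ a, Fintype.card {j // z j = a} = Fintype.card {j // y j = a} := fun a => by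
    rw [Fintype.card_subtype, Fintype.card_subtype]
    exact congrFun h a
  refine ⟨Equiv.ofFiberEquiv fun a => Fintype.equivOfCardEq (h1 a), ?_⟩
  ext j
  exact Equiv.ofFiberEquiv_map _ j

omit [Fintype L] in
theorem dis_le {n : ℕ} (pos : L → ℕ) (P : ℕ) (hP : ∀ a, pos a ≤ P) (y z : Fin n → L) :
    dis pos y z ≤ n * P := by
  calc dis pos y z ≤ ∑ j : Fin n, (P : ℝ) := by
        refine sum_le_sum fun j _ => ?_
        have h1 : (pos (y j) : ℝ) ≤ P := by exact_mod_cast hP _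
        have h2 : (pos (z j) : ℝ) ≤ P := by exact_mod_cast hP _
        have h3 : (0 : ℝ) ≤ pos (y j) := Nat.cast_nonneg _
        have h4 : (0 : ℝ) ≤ pos (z j) := Nat.cast_nonneg _
        rw [abs_le]
        constructor <;> linarith
    _ = _ := by rw [sum_const, card_univ, Fintype.card_fin, nsmul_eq_mul]

theorem trunc_energy [DecidableEq I] {n : ℕ} (b : L → I → ℝ) (pos : L → ℕ) (P : ℕ) (hP : ∀ a, pos a ≤ P)
    (S : Finset (Fin n → I)) (θ : ℝ) (hθ : 0 < θ) :
    ∑ y : Fin n → L, ∑ z, dis pos y z * kerS b S y z ^ 2 ≤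
      (1 + θ) * ∑ y : Fin n → L, ∑ z, dis pos y z * kerS b univ y z ^ 2 +
        (1 + θ⁻¹) * (n * P) * ∑ y : Fin n → L, ∑ z, kerS b Sᶜ y z ^ 2 := by
  simp only [mul_sum, ← sum_add_distrib]
  refine sum_le_sum fun y _ => sum_le_sum fun z _ => ?_
  have h1 : kerS b S y z = kerS b univ y z - kerS b Sᶜ y z := by
    rw [eq_sub_iff_add_eq]; exact sum_add_sum_compl _ _
  have h2 : 0 ≤ dis pos y z := sum_nonneg fun _ _ => abs_nonneg _
  have h3 := dis_le pos P hP y z
  rw [h1]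
  generalize kerS b univ y z = u
  generalize kerS b Sᶜ y z = v
  have h4 : (u - v) ^ 2 ≤ (1 + θ) * u ^ 2 + (1 + θ⁻¹) * v ^ 2 := by
    have : (1 + θ) * u ^ 2 + (1 + θ⁻¹) * v ^ 2 - (u - v) ^ 2 = θ⁻¹ * (θ * u + v) ^ 2 := by
      field_simp; ring
    have : 0 ≤ θ⁻¹ * (θ * u + v) ^ 2 := by positivity
    linarith
  have h5 : dis pos y z * ((1 + θ⁻¹) * v ^ 2) ≤ n * P * ((1 + θ⁻¹) * v ^ 2) :=
    mul_le_mul_of_nonneg_right h3 (by positivity)
  nlinarith [mul_le_mul_of_nonneg_left h4 h2]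

theorem trunc_mass [DecidableEq I] [DecidableEq L] {n : ℕ} (b : L → I → ℝ) (S : Finset (Fin n → I))
    (W : Finset (Fin n → L)) (θ : ℝ) (hθ : 0 < θ) (hθ1 : θ ≤ 1) :
    (1 - θ) * ((∑ a, mu b a) ^ n - 2 * ∑ y ∈ Wᶜ, ∏ j, mu b (y j)) -
      θ⁻¹ * ∑ y : Fin n → L, ∑ z, kerS b Sᶜ y z ^ 2 ≤ ∑ y ∈ W, ∑ z ∈ W, kerS b S y z ^ 2 := by
  have h1 : (∑ a, mu b a) ^ n - 2 * ∑ y ∈ Wᶜ, ∏ j, mu b (y j) ≤
      ∑ y ∈ W, ∑ z ∈ W, kerS b univ y z ^ 2 := by
    have a1 : ∑ y ∈ W, ∏ j, mu b (y j) + ∑ y ∈ Wᶜ, ∏ j, mu b (y j) = (∑ a, mu b a) ^ n := by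
      rw [sum_add_sum_compl, sum_pi']
    have a2 : ∑ y ∈ W, ∑ z ∈ W, kerS b univ y z ^ 2 + ∑ y ∈ W, ∑ z ∈ Wᶜ, kerS b univ y z ^ 2 =
        ∑ y ∈ W, ∏ j, mu b (y j) := by
      rw [← sum_add_distrib]
      exact sum_congr rfl fun y _ => by rw [sum_add_sum_compl, row_mass]
    have a3 : ∑ y ∈ W, ∑ z ∈ Wᶜ, kerS b univ y z ^ 2 ≤ ∑ y ∈ Wᶜ, ∏ j, mu b (y j) := by
      rw [sum_comm]
      refine sum_le_sum fun z _ => ?_
      rw [← row_mass]
      refine (sum_le_sum_of_subset_of_nonneg (subset_univ _) fun _ _ _ => sq_nonneg _).trans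
        (le_of_eq (sum_congr rfl fun y _ => ?_))
      simp only [kerS, mul_comm]
    linarith
  have h2 : ∑ y ∈ W, ∑ z ∈ W, kerS b Sᶜ y z ^ 2 ≤ ∑ y : Fin n → L, ∑ z, kerS b Sᶜ y z ^ 2 :=
    (sum_le_sum fun y _ => sum_le_sum_of_subset_of_nonneg (subset_univ _)
      fun _ _ _ => sq_nonneg _).trans (sum_le_sum_of_subset_of_nonneg (subset_univ _)
        fun _ _ _ => sum_nonneg fun _ _ => sq_nonneg _)
  have h3 : (1 - θ) * ∑ y ∈ W, ∑ z ∈ W, kerS b univ y z ^ 2 -
      θ⁻¹ * ∑ y ∈ W, ∑ z ∈ W, kerS b Sᶜ y z ^ 2 ≤ ∑ y ∈ W, ∑ z ∈ W, kerS b S y z ^ 2 := by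
    simp only [mul_sum, ← sum_sub_distrib]
    refine sum_le_sum fun y _ => sum_le_sum fun z _ => ?_
    have h1 : kerS b S y z = kerS b univ y z - kerS b Sᶜ y z := by
      rw [eq_sub_iff_add_eq]; exact sum_add_sum_compl _ _
    rw [h1]
    generalize kerS b univ y z = u
    generalize kerS b Sᶜ y z = v
    have : (u - v) ^ 2 - ((1 - θ) * u ^ 2 - θ⁻¹ * v ^ 2) = θ⁻¹ * (θ * u - v) ^ 2 + v ^ 2 := by
      field_simp; ring
    have : 0 ≤ θ⁻¹ * (θ * u - v) ^ 2 + v ^ 2 := by positivity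
    linarith
  have h4 := mul_le_mul_of_nonneg_left h1 (sub_nonneg.2 hθ1)
  have h5 := mul_le_mul_of_nonneg_left h2 (inv_nonneg.2 hθ.le)
  linarith

/-- The linear programming bound applied to a symmetric set of words and the truncated kernel. -/
theorem words_bound [DecidableEq L] {n : ℕ} (b : L → I → ℝ) (pos : L → ℕ)
    (hpos : Function.Injective pos) (S : Finset (Fin n → I))
    (hS : ∀ (α : Fin n → I) (τ : Equiv.Perm (Fin n)), α ∈ S → α ∘ τ ∈ S) (T lam d : ℝ)
    (hT : 0 ≤ T) (W : Finset (Fin n → L))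
    (hW : ∀ y, y ∈ W ↔ T ≤ (#{z : Fin n → L | cnt z = cnt y} : ℝ))
    (hN : 0 < ∑ y ∈ W, ∑ z ∈ W, kerS b S y z ^ 2)
    (hE : ∑ y : Fin n → L, ∑ z, dis pos y z * kerS b S y z ^ 2 ≤
      lam * ∑ y ∈ W, ∑ z ∈ W, kerS b S y z ^ 2) (hd : lam ≤ d) (hd0 : 0 ≤ d) (D : ℕ) (hD : 0 < D)
    {Γ : Type} [Fintype Γ] (γ : (Fin n → ℕ) → Γ)
    (hγ : ∀ e e', e ≠ e' → γ e = γ e' → D * (d + n) ≤ ∑ j, |(e j : ℝ) - e' j|) :
    T * D ^ n * (d - lam) ≤ Fintype.card Γ * (d * S.card) := by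
  classical
  let X := W × (Fin n → Fin D)
  let w : X → X → ℝ := fun p q => dis pos p.1.1 q.1.1
  let G : Set (Equiv.Perm X) := {σ | ∃ τ : Equiv.Perm (Fin n), ∀ p, (σ p).1.1 = p.1.1 ∘ τ}
  let B0 : Matrix X S ℝ := Matrix.of fun p α => tens b p.1.1 α.1
  let e : X → Fin n → ℕ := fun p j => D * pos (p.1.1 j) + p.2 j
  have hK : ∀ p q, (B0 * B0ᵀ) p q = kerS b S p.1.1 q.1.1 := fun p q =>
    sum_coe_sort S (fun α => tens b p.1.1 α * tens b q.1.1 α)
  have hen : ∀ u : (Fin n → L) → (Fin n → L) → ℝ, en (fun p q : X => u p.1.1 q.1.1) B0 =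
      ((D : ℝ) ^ n) ^ 2 * ∑ y ∈ W, ∑ z ∈ W, u y z * kerS b S y z ^ 2 := fun u => by
    simp only [en, hK, X, Fintype.sum_prod_type, sum_const, card_univ, Fintype.card_fun,
      Fintype.card_fin, nsmul_eq_mul, ← mul_sum]
    rw [sum_coe_sort W (fun y => ∑ z : W, u y z.1 * kerS b S y z.1 ^ 2)]
    simp only [fun y => sum_coe_sort W (fun z => u y z * kerS b S y z ^ 2)]
    push_cast
    ring
  have hD' : (0 : ℝ) < D := by exact_mod_cast hD
  have hen1 : en (fun _ _ => 1) B0 = ((D : ℝ) ^ n) ^ 2 * ∑ y ∈ W, ∑ z ∈ W, kerS b S y z ^ 2 := by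
    simpa using hen (fun _ _ => 1)
  have h := lp_bound (Γ := Γ) w
    (fun p q => sum_congr rfl fun j _ => abs_sub_comm _ _) (fun p => by simp [w, dis])
    (fun c hc => by
      have : ∑ p, ∑ q, c p * c q * w p q =
          ∑ j, ∑ p, ∑ q, c p * c q * |(pos (p.1.1 j) : ℝ) - pos (q.1.1 j)| := by
        simp only [w, dis, mul_sum]
        symm
        rw [sum_comm]
        exact sum_congr rfl fun y _ => sum_comm
      rw [this]
      exact sum_nonpos fun j _ => neg_abs (fun p : X => pos (p.1.1 j)) c hc)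
    G (by
      rintro σ ⟨τ, hτ⟩ p q
      simp only [w, hτ, dis, Function.comp_apply]
      exact Equiv.sum_comp τ (fun j => |(pos (p.1.1 j) : ℝ) - pos (q.1.1 j)|))
    (T * D ^ n) (by positivity)
    (fun p => by
      refine ⟨(({z : Fin n → L | cnt z = cnt p.1.1} : Finset _).subtype (· ∈ W)) ×ˢ univ, ?_, ?_⟩
      · rw [card_product, card_subtype, filter_true_of_mem, card_univ, Fintype.card_fun,
          Fintype.card_fin, Fintype.card_fin]
        · push_cast
          exact mul_le_mul_of_nonneg_right ((hW _).1 p.1.2) (by positivity)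
        · intro z hz
          rw [hW, (mem_filter.1 hz).2]
          exact (hW _).1 p.1.2
      · intro q hq
        have h1 : cnt q.1.1 = cnt p.1.1 :=
          (mem_filter.1 (mem_subtype.1 (mem_product.1 hq).1)).2
        obtain ⟨τ, hτ⟩ := exists_perm p.1.1 q.1.1 h1
        let σ0 : Equiv.Perm (Fin n → L) := Equiv.arrowCongr τ.symm (Equiv.refl L)
        have h0 : ∀ y, σ0 y = y ∘ τ := fun y => rfl
        refine ⟨Equiv.prodCongr (σ0.subtypePerm fun y => by rw [h0, hW, hW, cnt_comp])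
          (Equiv.swap p.2 q.2), ⟨τ, fun r => rfl⟩, ?_⟩
        refine Prod.ext (Subtype.ext hτ) ?_
        exact Equiv.swap_apply_left _ _)
    B0 (by
      rintro σ ⟨τ, hτ⟩
      ext p q
      rw [submatrix_apply, hK, hK, hτ, hτ]
      have h1 : ∀ (y : Fin n → L) (α : Fin n → I), tens b (y ∘ τ) (α ∘ τ) = tens b y α :=
        fun y α => Equiv.prod_comp τ (fun j => b (y j) (α j))
      symm
      refine sum_nbij' (fun α => α ∘ τ) (fun α => α ∘ τ.symm) (fun α hα => hS α τ hα)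
        (fun α hα => hS α τ.symm hα) (fun α _ => by ext j; simp) (fun α _ => by ext j; simp)
        fun α _ => by rw [h1, h1])
    (by rw [hen1]; positivity) lam d
    (by
      rw [hen1, hen (dis pos), mul_left_comm]
      refine mul_le_mul_of_nonneg_left (le_trans ?_ hE) (by positivity)
      have h0 : ∀ y z : Fin n → L, 0 ≤ dis pos y z * kerS b S y z ^ 2 := fun y z =>
        mul_nonneg (sum_nonneg fun _ _ => abs_nonneg _) (sq_nonneg _)
      exact (sum_le_sum fun y _ => sum_le_sum_of_subset_of_nonneg (subset_univ _)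
        fun _ _ _ => h0 _ _).trans (sum_le_sum_of_subset_of_nonneg (subset_univ _)
          fun _ _ _ => sum_nonneg fun _ _ => h0 _ _))
    hd hd0 (fun p => γ (e p))
    (fun p q hpq h => by
      have h1 : e p ≠ e q := fun h1 => hpq (by
        have h2 : ∀ j, pos (p.1.1 j) = pos (q.1.1 j) ∧ (p.2 j : ℕ) = q.2 j := fun j => by
          have a1 : D * pos (p.1.1 j) + p.2 j = D * pos (q.1.1 j) + q.2 j := congrFun h1 j
          have a2 := congrArg (· / D) a1
          have a3 := congrArg (· % D) a1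
          simp only [Nat.mul_add_div hD, Nat.div_eq_of_lt (Fin.is_lt _), add_zero,
            Nat.mul_add_mod, Nat.mod_eq_of_lt (Fin.is_lt _)] at a2 a3
          exact ⟨a2, a3⟩
        exact Prod.ext (Subtype.ext (funext fun j => hpos (h2 j).1))
          (funext fun j => Fin.ext (h2 j).2))
      have h2 := hγ _ _ h1 h
      have h3 : ∑ j, |(e p j : ℝ) - e q j| ≤ D * (w p q + n) := by
        have : (D : ℝ) * (w p q + n) =
            ∑ j, D * (|(pos (p.1.1 j) : ℝ) - pos (q.1.1 j)| + 1) := by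
          simp only [w, dis, ← mul_sum, sum_add_distrib, sum_const, card_univ, Fintype.card_fin,
            nsmul_eq_mul, mul_one]
        rw [this]
        refine sum_le_sum fun j _ => ?_
        have a1 : ((p.2 j : ℕ) : ℝ) ≤ D := by exact_mod_cast (p.2 j).2.le
        have a2 : ((q.2 j : ℕ) : ℝ) ≤ D := by exact_mod_cast (q.2 j).2.le
        have a3 : (0 : ℝ) ≤ ((p.2 j : ℕ) : ℝ) := Nat.cast_nonneg _
        have a4 : (0 : ℝ) ≤ ((q.2 j : ℕ) : ℝ) := Nat.cast_nonneg _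
        have a5 := mul_le_mul_of_nonneg_left
          (le_abs_self ((pos (p.1.1 j) : ℝ) - pos (q.1.1 j))) hD'.le
        have a6 := mul_le_mul_of_nonneg_left
          (neg_abs_le ((pos (p.1.1 j) : ℝ) - pos (q.1.1 j))) hD'.le
        simp only [e]
        push_cast
        rw [abs_le]
        constructor <;> linarith
      have h4 := le_of_mul_le_mul_left (h2.trans h3) hD'
      linarith)
  rwa [Fintype.card_coe] at h

/-- Every colouring of the grid with few colours has two close points of one colour. -/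
theorem short_pair (b : L → I → ℝ) (pos : L → ℕ) (hpos : Function.Injective pos)
    (s : I → ℝ) (g : L → ℝ) (m : ℕ) (lam ρ c1 c2 θ l1 l2 : ℝ) (hs : ∀ i, 0 ≤ s i)
    (hg : ∀ a, 0 ≤ g a) (hT0 : 0 < ∑ a, mu b a)
    (hE : ∑ a, ∑ a', |(pos a : ℝ) - pos a'| * ker b a a' ^ 2 ≤ lam * ∑ a, mu b a)
    (hs1 : ∑ i, gam b i * s i ≤ ρ * ∑ a, mu b a) (hs2 : ∀ i, c2 ≤ gam b i * s i ^ m)
    (hg1 : ∑ a, mu b a * g a ≤ ρ * ∑ a, mu b a) (hg2 : ∀ a, mu b a ≤ c1 * g a ^ m)
    (hρ : 0 < ρ) (hρ1 : ρ < 1) (hc1 : 0 < c1) (hc2 : 0 < c2) (hθ : 0 < θ) (hθ1 : θ < 1)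
    (hl0 : 0 < l1) (hl1 : lam * (1 + θ) < l1 * (1 - θ)) (hl2 : l1 < l2) :
    ∃ C : ℝ, 0 < C ∧ ∀ᶠ n : ℕ in atTop, ∀ D : ℕ, 0 < D → ∀ (Γ : Type) [Fintype Γ]
      (γ : (Fin n → ℕ) → Γ), C * Fintype.card Γ < (D * (ρ * c2 / c1)) ^ n →
        ∃ e e', e ≠ e' ∧ γ e = γ e' ∧ ∑ j, |(e j : ℝ) - e' j| ≤ n * D * (l2 + 1) := by
  classical
  set T0 := ∑ a, mu b a with hT0'
  let P := univ.sup pos
  let β : ℕ → ℝ := fun n => ((n + 1) ^ Fintype.card L + 1) * ρ ^ n
  have t1 : Tendsto (fun n : ℕ => ρ ^ n) atTop (𝓝 0) :=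
    tendsto_pow_atTop_nhds_zero_of_lt_one hρ.le hρ1
  have t2 : Tendsto β atTop (𝓝 0) := by
    have a1 := (tendsto_pow_const_mul_const_pow_of_abs_lt_one (Fintype.card L)
      (r := ρ) (by rwa [abs_of_pos hρ])).comp (tendsto_add_atTop_nat 1)
    have a2 := (a1.mul_const ρ⁻¹).add t1
    rw [zero_mul, zero_add] at a2
    refine a2.congr fun n => ?_
    simp only [β, Function.comp_apply]
    push_cast
    field_simp
    ring
  let ν : ℕ → ℝ := fun n => (1 - θ) * (1 - 2 * β n) - θ⁻¹ * ρ ^ n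
  have t3 : Tendsto ν atTop (𝓝 (1 - θ)) := by
    simpa using (((t2.const_mul 2).const_sub 1).const_mul (1 - θ)).sub (t1.const_mul θ⁻¹)
  have t4 : Tendsto (fun n : ℕ => (1 + θ) * lam + (1 + θ⁻¹) * P * ρ ^ n) atTop
      (𝓝 (lam * (1 + θ))) := by
    simpa [mul_comm] using (t1.const_mul ((1 + θ⁻¹) * P)).const_add ((1 + θ) * lam)
  refine ⟨l2 / (l2 - l1), div_pos (hl0.trans hl2) (sub_pos.2 hl2), ?_⟩
  filter_upwards [t4.eventually_lt (t3.const_mul l1) hl1,
    t3.eventually_const_lt (sub_pos.2 hθ1), eventually_gt_atTop 0] with n h1 h2 hn D hD Γ _ γ hC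
  by_contra hcon
  push Not at hcon
  let S : Finset (Fin n → I) := {α | ∏ j, s (α j) ≤ 1}
  let T : ℝ := (ρ * T0 / c1) ^ n
  let W : Finset (Fin n → L) := {y | T ≤ (#{z : Fin n → L | cnt z = cnt y} : ℝ)}
  have hT : 0 ≤ T := by positivity
  have hTn : 0 < T0 ^ n := by positivity
  have hn' : (0 : ℝ) < n := by exact_mod_cast hn
  have e1 : ∑ y : Fin n → L, ∑ z, kerS b Sᶜ y z ^ 2 ≤ ρ ^ n * T0 ^ n := by
    refine (tail_le b s hs _ fun α hα => ?_).trans ?_
    · have : ¬ ∏ j, s (α j) ≤ 1 := by simpa [S] using hα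
      exact (not_le.1 this).le
    · rw [← mul_pow]
      exact pow_le_pow_left₀ (sum_nonneg fun i _ => mul_nonneg (gam_nonneg _ _) (hs i)) hs1 n
  have e2 : ∑ y ∈ Wᶜ, ∏ j, mu b (y j) ≤ β n * T0 ^ n := by
    have a1 := card_bad n T hT Wᶜ fun y hy => by
      have : ¬ T ≤ (#{z : Fin n → L | cnt z = cnt y} : ℝ) := by simpa [W] using hy
      exact (not_le.1 this).le
    have a2 : (∑ a, mu b a * g a) ^ n ≤ (ρ * T0) ^ n :=
      pow_le_pow_left₀ (sum_nonneg fun a _ => mul_nonneg (mu_nonneg _ _) (hg a)) hg1 n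
    have a3 : T * c1 ^ n = (ρ * T0) ^ n := by
      rw [← mul_pow, div_mul_cancel₀ _ hc1.ne']
    have a4 := mul_le_mul_of_nonneg_right a1 (pow_nonneg hc1.le n)
    rw [mul_assoc, a3] at a4
    refine (mass_le b g hg m c1 hc1.le hg2 _).trans ((add_le_add a4 a2).trans (le_of_eq ?_))
    simp only [β]
    ring
  have e3 : ν n * T0 ^ n ≤ ∑ y ∈ W, ∑ z ∈ W, kerS b S y z ^ 2 := by
    refine le_trans ?_ (trunc_mass b S W θ hθ hθ1.le)
    have a1 := mul_le_mul_of_nonneg_left e1 (inv_nonneg.2 hθ.le)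
    have a2 := mul_le_mul_of_nonneg_left e2 (sub_nonneg.2 hθ1.le)
    simp only [ν, ← hT0']
    linarith
  have e4 : ∑ y : Fin n → L, ∑ z, dis pos y z * kerS b S y z ^ 2 ≤
      n * l1 * ∑ y ∈ W, ∑ z ∈ W, kerS b S y z ^ 2 := by
    refine (trunc_energy b pos P (fun a => le_sup (mem_univ a)) S θ hθ).trans ?_
    have a1 := mul_le_mul_of_nonneg_left (energy_le (n := n) b pos lam hE)
      (show 0 ≤ 1 + θ by positivity)
    rw [← hT0'] at a1
    have a2 := mul_le_mul_of_nonneg_left e1 (show 0 ≤ (1 + θ⁻¹) * (n * P) by positivity)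
    have a3 := mul_le_mul_of_nonneg_left e3 (show 0 ≤ n * l1 by positivity)
    have a4 := mul_le_mul_of_nonneg_left h1.le (show 0 ≤ n * T0 ^ n by positivity)
    linarith
  have e5 := words_bound b pos hpos S
    (fun α τ hα => by
      simp only [S, mem_filter, mem_univ, true_and, Function.comp_apply] at hα ⊢
      rwa [Equiv.prod_comp τ (fun j => s (α j))])
    T (n * l1) (n * l2) hT W (fun y => by simp [W]) (lt_of_lt_of_le (by positivity) e3) e4
    (mul_le_mul_of_nonneg_left hl2.le hn'.le) (mul_nonneg hn'.le (hl0.trans hl2).le) D hD γ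
    (fun e e' h h' => le_of_eq_of_le (by ring) (hcon e e' h h').le)
  have e6 := card_le b s hs m c2 hc2.le hs2 S fun α hα => (mem_filter.1 hα).2
  have e7 : (D * (ρ * c2 / c1)) ^ n * T0 ^ n = T * D ^ n * c2 ^ n := by
    simp only [T, ← mul_pow]
    congr 1
    ring
  have hl := sub_pos.2 hl2
  have e8 : T * D ^ n * (l2 - l1) ≤ Fintype.card Γ * (l2 * S.card) :=
    le_of_mul_le_mul_left (by linarith) hn'
  have e9 : (D * (ρ * c2 / c1)) ^ n * (l2 - l1) ≤ l2 * Fintype.card Γ := by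
    refine le_of_mul_le_mul_right ?_ hTn
    have a1 := mul_le_mul_of_nonneg_right e8 (pow_nonneg hc2.le n)
    have a2 := mul_le_mul_of_nonneg_left e6
      (show 0 ≤ l2 * Fintype.card Γ from mul_nonneg (hl0.trans hl2).le (Nat.cast_nonneg _))
    calc _ = (D * (ρ * c2 / c1)) ^ n * T0 ^ n * (l2 - l1) := by ring
      _ = T * D ^ n * (l2 - l1) * c2 ^ n := by rw [e7]; ring
      _ ≤ _ := by linarith
  rw [div_mul_eq_mul_div, div_lt_iff₀ hl] at hC
  linarith

end Pool.Agent.P.MP_dc323a_nt.Ext
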